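import Pool.Agent.H410.QL.Stm

/-!
Series for `a(k,J)`.
-/

namespace Pool.Agent.H410.QL

open Finset Polynomial
open Pool.Agent.H410.NQ (ph PP Om vv rr)
open Pool.Agent.H410.FL (Dg Wt nw)
open Pool.Agent.H475.QZ (D RpS pik VV xx XX QQ EE FF nu ea C3 ww)

namespace P_ASER

/-- The double sequence. -/
noncomputable def f (w : Fin 3 → ℝ) (p : ℤ) (k J e t : ℕ) : ℝ :=
  (((p : ℝ) ^ k) ^ (e + 1))⁻¹ * Wt w ((e + (J + 1) : ℕ) : ℝ) * (xx p (t + 1)) ^ (e + (J + 1))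

theorem abs_Wt (w : Fin 3 → ℝ) (n : ℕ) :
    |Wt w (n : ℝ)| ≤ |w 0| + |w 1| * n + |w 2| * n ^ 2 := by
  unfold Wt
  refine (abs_add_le _ _).trans (add_le_add ((abs_add_le _ _).trans (add_le_add le_rfl ?_)) ?_)
  · rw [abs_mul, Nat.abs_cast]
  · rw [abs_mul, abs_of_nonneg (by positivity : (0 : ℝ) ≤ (n : ℝ) ^ 2)]

theorem abs_p {p : ℤ} (hp : 2 ≤ |p|) : (2:ℝ) ≤ |(p:ℝ)| := by
  have h : ((2:ℤ):ℝ) ≤ ((|p| : ℤ) : ℝ) := by exact_mod_cast hp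
  rw [Int.cast_abs] at h
  simpa using h

theorem abs_xx {p : ℤ} (hp : 2 ≤ |p|) (t : ℕ) : |xx p t| ≤ (1 / 2) ^ t := by
  have h := abs_p hp
  unfold xx
  rw [abs_inv, abs_pow, one_div, inv_pow]
  exact inv_anti₀ (by positivity) (pow_le_pow_left₀ (by norm_num) h t)

theorem abs_f (w : Fin 3 → ℝ) {p : ℤ} (hp : 2 ≤ |p|) (k J e t : ℕ) :
    |f w p k J e t| ≤ (|Wt w ((e + (J + 1) : ℕ) : ℝ)| *
      (1 / 2) ^ (e + (J + 1))) * (1 / 2) ^ t := by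
  have h := abs_p hp
  have h1 : |(((p : ℝ) ^ k) ^ (e + 1))⁻¹| ≤ 1 := by
    rw [abs_inv, abs_pow, abs_pow]
    apply inv_le_one_of_one_le₀
    exact one_le_pow₀ (one_le_pow₀ (by linarith))
  have h2 : |(xx p (t + 1)) ^ (e + (J + 1))| ≤ (1 / 2) ^ (e + (J + 1)) * (1 / 2) ^ t := by
    rw [abs_pow]
    calc |xx p (t + 1)| ^ (e + (J + 1)) ≤ ((1 / 2 : ℝ) ^ (t + 1)) ^ (e + (J + 1)) :=
          pow_le_pow_left₀ (abs_nonneg _) (abs_xx hp _) _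
      _ = (1 / 2 : ℝ) ^ ((t + 1) * (e + (J + 1))) := by rw [← pow_mul]
      _ ≤ (1 / 2 : ℝ) ^ ((e + (J + 1)) + t) := by
          apply pow_le_pow_of_le_one (by norm_num) (by norm_num)
          nlinarith [Nat.zero_le (t * e), Nat.zero_le (t * J)]
      _ = _ := by rw [pow_add]
  unfold f
  rw [abs_mul, abs_mul]
  calc |(((p : ℝ) ^ k) ^ (e + 1))⁻¹| *
        |Wt w ((e + (J + 1) : ℕ) : ℝ)| * |(xx p (t + 1)) ^ (e + (J + 1))| ≤
        1 * |Wt w ((e + (J + 1) : ℕ) : ℝ)| *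
        ((1 / 2) ^ (e + (J + 1)) * (1 / 2) ^ t) := by gcongr
    _ = _ := by ring

theorem summable_W (w : Fin 3 → ℝ) :
    Summable (fun n : ℕ => |Wt w (n : ℝ)| * (1 / 2 : ℝ) ^ n) := by
  have h11 : Summable (fun n : ℕ => (n : ℝ) ^ 2 * (1 / 2 : ℝ) ^ n) :=
    summable_pow_mul_geometric_of_norm_lt_one 2 (by rw [Real.norm_eq_abs]; norm_num)
  have h12 : Summable (fun n : ℕ => (n : ℝ) ^ 1 * (1 / 2 : ℝ) ^ n) :=
    summable_pow_mul_geometric_of_norm_lt_one 1 (by rw [Real.norm_eq_abs]; norm_num)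
  have h13 : Summable (fun n : ℕ => (n : ℝ) ^ 0 * (1 / 2 : ℝ) ^ n) :=
    summable_pow_mul_geometric_of_norm_lt_one 0 (by rw [Real.norm_eq_abs]; norm_num)
  have h2 := ((h13.mul_left |w 0|).add (h12.mul_left |w 1|)).add (h11.mul_left |w 2|)
  refine Summable.of_nonneg_of_le (fun n => by positivity) (fun n => ?_) h2
  calc |Wt w (n : ℝ)| * (1 / 2 : ℝ) ^ n ≤
        (|w 0| + |w 1| * n + |w 2| * n ^ 2) * (1 / 2 : ℝ) ^ n :=
        mul_le_mul_of_nonneg_right (abs_Wt w n) (by positivity)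
    _ = _ := by ring

theorem summable_f (w : Fin 3 → ℝ) {p : ℤ} (hp : 2 ≤ |p|) (k J : ℕ) :
    Summable (fun z : ℕ × ℕ => f w p k J z.1 z.2) := by
  have h2 : Summable (fun e : ℕ => |Wt w ((e + (J + 1) : ℕ) : ℝ)| *
      (1 / 2 : ℝ) ^ (e + (J + 1))) :=
    (summable_nat_add_iff (f := fun n : ℕ => |Wt w (n : ℝ)| * (1 / 2 : ℝ) ^ n)
      (J + 1)).2 (summable_W w)
  have h3 : Summable (fun t : ℕ => (1 / 2 : ℝ) ^ t) :=
    summable_geometric_of_lt_one (by norm_num) (by norm_num)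
  have h4 : Summable (fun z : ℕ × ℕ => (|Wt w ((z.1 + (J + 1) : ℕ) : ℝ)| *
      (1 / 2 : ℝ) ^ (z.1 + (J + 1))) * (1 / 2 : ℝ) ^ z.2) :=
    Summable.mul_of_nonneg h2 h3 (fun e => by positivity) (fun t => by positivity)
  refine Summable.of_norm_bounded h4 ?_
  rintro ⟨e, t⟩
  rw [Real.norm_eq_abs]
  exact abs_f w hp k J e t

theorem Wz_eq (w : Fin 3 → ℤ) (n : ℕ) : (Wz w (n : ℤ) : ℝ) = Wt (wR w) (n : ℝ) := by
  unfold Wz Wt wR
  push_cast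
  ring

theorem hasSum_t (w : Fin 3 → ℤ) {p : ℤ} (hp : 2 ≤ |p|) (k J e : ℕ) :
    HasSum (fun t : ℕ => f (wR w) p k J e t)
      (((p : ℝ) ^ (k * (e + 1)))⁻¹ * cR p w (e + 1 + J)) := by
  have h := abs_p hp
  have e0 : e + 1 + J = e + (J + 1) := by ring
  rw [e0]
  have hn1 : 1 ≤ e + (J + 1) := by omega
  have hpn : (2:ℝ) ≤ |(p:ℝ) ^ (e + (J + 1))| := by
    rw [abs_pow]
    calc (2:ℝ) = 2 ^ 1 := by norm_num
      _ ≤ 2 ^ (e + (J + 1)) := pow_le_pow_right₀ (by norm_num) hn1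
      _ ≤ _ := pow_le_pow_left₀ (by norm_num) h _
  have hf : ∀ t, f (wR w) p k J e t = (((p : ℝ) ^ k) ^ (e + 1))⁻¹ *
      Wt (wR w) ((e + (J + 1) : ℕ) : ℝ) *
      ((p:ℝ) ^ (e + (J + 1)))⁻¹ * (((p:ℝ) ^ (e + (J + 1)))⁻¹) ^ t := by
    intro t
    unfold f xx
    have e5 : ((p:ℝ) ^ (t + 1)) ^ (e + (J + 1)) =
        (p:ℝ) ^ (e + (J + 1)) * ((p:ℝ) ^ (e + (J + 1))) ^ t := by
      ring
    rw [inv_pow, inv_pow, e5, mul_inv]
    ring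
  have hc : ((p : ℝ) ^ (k * (e + 1)))⁻¹ * cR p w (e + (J + 1)) =
      (((p : ℝ) ^ k) ^ (e + 1))⁻¹ * Wt (wR w) ((e + (J + 1) : ℕ) : ℝ) *
      ((p:ℝ) ^ (e + (J + 1)))⁻¹ * (1 - ((p:ℝ) ^ (e + (J + 1)))⁻¹)⁻¹ := by
    unfold cR
    rw [Wz_eq, ← pow_mul]
    generalize (p:ℝ) ^ (e + (J + 1)) = y at hpn
    have hy0 : y ≠ 0 := by
      intro h0
      rw [h0, abs_zero] at hpn
      linarith
    have hy1 : y - 1 ≠ 0 := by
      intro h0
      have h00 : y = 1 := by linarith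
      rw [h00, abs_one] at hpn
      linarith
    have e2 : (1 - y⁻¹)⁻¹ = y / (y - 1) := by
      have e4 : (1 - y⁻¹) = (y - 1) / y := by
        rw [sub_div, div_self hy0, one_div]
      rw [e4, inv_div]
    have e3 : y⁻¹ * (y / (y - 1)) = 1 / (y - 1) := by
      rw [← mul_div_assoc, inv_mul_cancel₀ hy0]
    rw [e2, mul_assoc _ y⁻¹, e3]
    ring
  rw [hc, funext hf]
  have hq : |((p:ℝ) ^ (e + (J + 1)))⁻¹| < 1 := by
    rw [abs_inv]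
    exact inv_lt_one_of_one_lt₀ (by linarith)
  exact (hasSum_geometric_of_abs_lt_one hq).mul_left _

end P_ASER

open P_ASER in
/-- **Series for `a(k,J)`.** -/
theorem t_ASER (hSUM : S_SUM) (hKER : Pool.Agent.H410.FL.S_KER) : S_ASER := by
  intro p hp w k J
  have hs := summable_f (wR w) hp k J
  have h1 : HasSum (fun e : ℕ => ((p : ℝ) ^ (k * (e + 1)))⁻¹ * cR p w (e + 1 + J))
      (∑' z : ℕ × ℕ, f (wR w) p k J z.1 z.2) :=
    hs.hasSum.prod_fiberwise fun e => hasSum_t w hp k J e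
  have h2 : aR p w k J = ∑' z : ℕ × ℕ, f (wR w) p k J z.1 z.2 := h1.tsum_eq
  have h3 : HasSum (fun z : ℕ × ℕ => f (wR w) p k J z.2 z.1)
      (∑' z : ℕ × ℕ, f (wR w) p k J z.1 z.2) :=
    (Equiv.prodComm ℕ ℕ).hasSum_iff.2 hs.hasSum
  have h4 : HasSum (fun t : ℕ => ∑' e : ℕ, f (wR w) p k J e t)
      (∑' z : ℕ × ℕ, f (wR w) p k J z.1 z.2) :=
    h3.prod_fiberwise fun t => (h3.summable.prod_factor t).hasSum
  rw [← h2] at h4
  have h5 : (fun t : ℕ => ∑' e : ℕ, f (wR w) p k J e t) = fun t : ℕ =>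
      Dg (wR w) (XX p (t + 1) ^ (J + 1) *
        (PowerSeries.C ((p : ℝ) ^ k) - XX p (t + 1))⁻¹) := by
    funext t
    have hx : |xx p (t + 1)| ≤ 1 / 2 := by
      refine (abs_xx hp (t + 1)).trans ?_
      calc ((1:ℝ) / 2) ^ (t + 1) ≤ (1 / 2) ^ 1 :=
            pow_le_pow_of_le_one (by norm_num) (by norm_num) (by omega)
        _ = 1 / 2 := by norm_num
    have hP : 1 ≤ |(p:ℝ) ^ k| := by
      rw [abs_pow]
      exact one_le_pow₀ (by linarith [abs_p hp])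
    have h6 := hKER (wR w) (xx p (t + 1)) ((p:ℝ) ^ k) hx hP (J + 1) (by omega)
    unfold XX
    rw [h6]
    rfl
  rw [h5] at h4
  exact h4

end Pool.Agent.H410.QL
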