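import Pool.Agent.H410.QL.Stm

/-!
Closed form of `a(k,J)`.
-/

namespace Pool.Agent.H410.QL

open Finset Polynomial

namespace P_CF

/-- `∑ W(n) y^n`. -/
lemma w_sum (w : Fin 3 → ℤ) {y : ℝ} (hy : ‖y‖ < 1) :
    HasSum (fun e : ℕ => ((w 0 : ℝ) + (w 1 : ℝ) * ((e : ℝ) + 1) + (w 2 : ℝ) * ((e : ℝ) + 1) ^ 2) *
        y ^ (e + 1))
      ((w 0 : ℝ) * (y / (1 - y)) + (w 1 : ℝ) * (y / (1 - y) ^ 2) +
        (w 2 : ℝ) * (y * (1 + y) / (1 - y) ^ 3)) := by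
  have h0 : (1 : ℝ) - y ≠ 0 := by
    intro h
    have h1 : y = 1 := by linarith
    rw [h1, norm_one] at hy
    exact lt_irrefl _ hy
  have h1 := hasSum_choose_mul_geometric_of_norm_lt_one 2 hy
  have h2 := hasSum_choose_mul_geometric_of_norm_lt_one 1 hy
  have h22 := hasSum_choose_mul_geometric_of_norm_lt_one 0 hy
  have h3 := ((h22.mul_left ((w 0 : ℝ) * y)).add (h2.mul_left ((w 1 : ℝ) * y))).add
    (((h1.mul_left 2).sub h2).mul_left ((w 2 : ℝ) * y))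
  have h4 : (fun e : ℕ => ((w 0 : ℝ) + (w 1 : ℝ) * ((e : ℝ) + 1) +
      (w 2 : ℝ) * ((e : ℝ) + 1) ^ 2) * y ^ (e + 1)) = fun e : ℕ =>
      (w 0 : ℝ) * y * ((((e + 0).choose 0 : ℕ) : ℝ) * y ^ e) +
      (w 1 : ℝ) * y * ((((e + 1).choose 1 : ℕ) : ℝ) * y ^ e) +
      (w 2 : ℝ) * y * (2 * ((((e + 2).choose 2 : ℕ) : ℝ) * y ^ e) -
        (((e + 1).choose 1 : ℕ) : ℝ) * y ^ e) := by
    funext e
    rw [Nat.cast_choose_two, Nat.choose_one_right, Nat.choose_zero_right]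
    push_cast
    ring
  have h5 : (w 0 : ℝ) * (y / (1 - y)) + (w 1 : ℝ) * (y / (1 - y) ^ 2) +
        (w 2 : ℝ) * (y * (1 + y) / (1 - y) ^ 3) =
      (w 0 : ℝ) * y * (1 / (1 - y) ^ (0 + 1)) + (w 1 : ℝ) * y * (1 / (1 - y) ^ (1 + 1)) +
      (w 2 : ℝ) * y * (2 * (1 / (1 - y) ^ (2 + 1)) - 1 / (1 - y) ^ (1 + 1)) := by
    have e1 : y * (1 + y) / (1 - y) ^ 3 =
        y * (2 * (1 / (1 - y) ^ (2 + 1)) - 1 / (1 - y) ^ (1 + 1)) := by
      field_simp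
      ring
    rw [e1, zero_add, pow_one]
    ring
  rw [h4, h5]
  exact h3

/-- the terms of `b_k` -/
noncomputable def t (p : ℤ) (w : Fin 3 → ℤ) (k e : ℕ) : ℝ :=
  ((p : ℝ) ^ (k * (e + 1)))⁻¹ * cR p w (e + 1)

lemma abs_pow_gt {p : ℤ} (hp : 2 ≤ |p|) (k : ℕ) : 1 < |(p : ℝ) ^ (k + 1)| := by
  have h1 : (2 : ℝ) ≤ |(p : ℝ)| := by exact_mod_cast hp
  rw [abs_pow]
  exact one_lt_pow₀ (by linarith) (Nat.succ_ne_zero k)

lemma p_ne {p : ℤ} (hp : 2 ≤ |p|) : (p : ℝ) ≠ 0 := by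
  intro h
  have h1 : (2 : ℝ) ≤ |(p : ℝ)| := by exact_mod_cast hp
  rw [h, abs_zero] at h1
  linarith

lemma pow_ne_one {p : ℤ} (hp : 2 ≤ |p|) (k : ℕ) : (p : ℝ) ^ (k + 1) - 1 ≠ 0 := by
  intro h
  have h1 := abs_pow_gt hp k
  have h2 : (p : ℝ) ^ (k + 1) = 1 := by linarith
  rw [h2, abs_one] at h1
  exact lt_irrefl _ h1

lemma t_sub {p : ℤ} (hp : 2 ≤ |p|) (w : Fin 3 → ℤ) (k e : ℕ) :
    t p w k e - t p w (k + 1) e =
      ((w 0 : ℝ) + (w 1 : ℝ) * ((e : ℝ) + 1) + (w 2 : ℝ) * ((e : ℝ) + 1) ^ 2) *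
        (((p : ℝ) ^ (k + 1))⁻¹) ^ (e + 1) := by
  have h1 := pow_ne_one hp e
  have h2 : (p : ℝ) ^ (e + 1) ≠ 0 := pow_ne_zero _ (p_ne hp)
  have h3 : (p : ℝ) ^ (k * (e + 1)) ≠ 0 := pow_ne_zero _ (p_ne hp)
  have h4 : (p : ℝ) ^ ((k + 1) * (e + 1)) = (p : ℝ) ^ (k * (e + 1)) * (p : ℝ) ^ (e + 1) := by
    rw [← pow_add]
    congr 1
    ring
  have h5 : (((p : ℝ) ^ (k + 1))⁻¹) ^ (e + 1) =
      ((p : ℝ) ^ (k * (e + 1)) * (p : ℝ) ^ (e + 1))⁻¹ := by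
    rw [inv_pow, ← pow_mul, h4]
  unfold t cR Wz
  rw [h4, h5]
  push_cast
  field_simp

lemma b_zero {p : ℤ} (w : Fin 3 → ℤ) : ∑' e, t p w 0 e = ZZ p w := by
  unfold ZZ
  refine tsum_congr fun e => ?_
  simp [t]

lemma b_eq {p : ℤ} (hp : 2 ≤ |p|) (w : Fin 3 → ℤ) (ht : ∀ k, Summable (t p w k)) (k : ℕ) :
    ∑' e, t p w k e = ZZ p w - ((hq p w k : ℚ) : ℝ) := by
  induction k with
  | zero =>
    rw [b_zero]
    simp [hq]
  | succ k ih =>
    set y : ℝ := ((p : ℝ) ^ (k + 1))⁻¹ with hy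
    have hy1 : ‖y‖ < 1 := by
      rw [hy, norm_inv, Real.norm_eq_abs]
      exact inv_lt_one_of_one_lt₀ (abs_pow_gt hp k)
    have h1 : ∑' e, t p w k e - ∑' e, t p w (k + 1) e =
        (w 0 : ℝ) * (y / (1 - y)) + (w 1 : ℝ) * (y / (1 - y) ^ 2) +
        (w 2 : ℝ) * (y * (1 + y) / (1 - y) ^ 3) := by
      rw [← (ht k).tsum_sub (ht (k + 1))]
      rw [← (w_sum w hy1).tsum_eq]
      exact tsum_congr fun e => t_sub hp w k e
    have h2 : hq p w (k + 1) = hq p w k + QL.h1 p w (k + 1) := by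
      unfold hq
      rw [Finset.sum_Icc_succ_top (by omega)]
    have h3 : (w 0 : ℝ) * (y / (1 - y)) + (w 1 : ℝ) * (y / (1 - y) ^ 2) +
        (w 2 : ℝ) * (y * (1 + y) / (1 - y) ^ 3) = ((QL.h1 p w (k + 1) : ℚ) : ℝ) := by
      unfold QL.h1
      push_cast
      have h4 := pow_ne_one hp k
      have h5 : (p : ℝ) ^ (k + 1) ≠ 0 := pow_ne_zero _ (p_ne hp)
      have h6 : y * (p : ℝ) ^ (k + 1) = 1 := by rw [hy]; exact inv_mul_cancel₀ h5
      generalize (p : ℝ) ^ (k + 1) = P at h4 h5 h6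
      have h7 : 1 - y ≠ 0 := by
        intro h
        have h8 : y = 1 := by linarith
        rw [h8, one_mul] at h6
        exact h4 (by linarith)
      have h8 : y = P⁻¹ := eq_inv_of_mul_eq_one_left h6
      have k1 : y / (1 - y) = 1 / (P - 1) := by
        rw [div_eq_div_iff h7 h4, h8]
        field_simp
      have k2 : y / (1 - y) ^ 2 = P / (P - 1) ^ 2 := by
        rw [div_eq_div_iff (pow_ne_zero 2 h7) (pow_ne_zero 2 h4), h8]
        field_simp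
      have k3 : y * (1 + y) / (1 - y) ^ 3 = P * (P + 1) / (P - 1) ^ 3 := by
        rw [div_eq_div_iff (pow_ne_zero 3 h7) (pow_ne_zero 3 h4), h8]
        field_simp
      rw [k1, k2, k3]
      ring
    rw [h2]
    push_cast
    rw [← h3, ← h1, ih]
    ring

end P_CF

open P_CF in
theorem t_CF (hSUM : S_SUM) : S_CF := by
  intro p hp w k J
  obtain ⟨hS1, hS2⟩ := hSUM p hp w
  have ht : ∀ k, Summable (t p w k) := fun k => hS1 k 0
  have h1 := (ht k).sum_add_tsum_nat_add J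
  rw [b_eq hp w ht k] at h1
  have hp0 := p_ne hp
  have h2 : aR p w k J = (p : ℝ) ^ (k * J) * ∑' e, t p w k (e + J) := by
    unfold aR
    rw [← tsum_mul_left]
    refine tsum_congr fun e => ?_
    have h3 : (p : ℝ) ^ (k * (e + J + 1)) = (p : ℝ) ^ (k * J) * (p : ℝ) ^ (k * (e + 1)) := by
      rw [← pow_add]
      congr 1
      ring
    have h4 : (p : ℝ) ^ (k * J) ≠ 0 := pow_ne_zero _ hp0
    have h5 : e + J + 1 = e + 1 + J := by ring
    unfold t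
    rw [h3, mul_inv, h5]
    rw [mul_assoc, ← mul_assoc, mul_inv_cancel₀ h4, one_mul]
  have h3 : ∑ e ∈ Icc 1 J, (p : ℝ) ^ (k * (J - e)) * ((cq p w e : ℚ) : ℝ) =
      (p : ℝ) ^ (k * J) * ∑ e ∈ range J, t p w k e := by
    have h4 : Icc 1 J = (range J).image (fun e => e + 1) := by
      ext x
      simp only [mem_Icc, mem_image, mem_range]
      constructor
      · intro h
        exact ⟨x - 1, by omega, by omega⟩
      · rintro ⟨y, hy, rfl⟩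
        omega
    rw [h4, Finset.sum_image (fun x _ y _ h => Nat.succ_injective h), Finset.mul_sum]
    refine Finset.sum_congr rfl fun e he => ?_
    rw [mem_range] at he
    have h5 : (p : ℝ) ^ (k * J) = (p : ℝ) ^ (k * (J - (e + 1))) * (p : ℝ) ^ (k * (e + 1)) := by
      rw [← pow_add, ← mul_add]
      congr 2
      omega
    have h6 : (p : ℝ) ^ (k * (e + 1)) ≠ 0 := pow_ne_zero _ hp0
    have h7 : ((cq p w (e + 1) : ℚ) : ℝ) = cR p w (e + 1) := by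
      unfold cq cR
      push_cast
      rfl
    unfold t
    rw [h7, h5, mul_assoc, ← mul_assoc ((p : ℝ) ^ (k * (e + 1))), mul_inv_cancel₀ h6, one_mul]
  rw [h2, h3, ← h1]
  ring

end Pool.Agent.H410.QL
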