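import Pool.Agent.H410.QL.Stm

/-! Project QL, part E1: integrality of the first part of the entries. -/

set_option autoImplicit false

namespace Pool.Agent.H410.QL

open Finset
open Pool.Agent.H410.NQ (ph PP)

namespace P_E1

theorem eval_zero (p : ℤ) {j k : ℕ} (h : k < j) : (PP p j).eval (p ^ k) = 0 := by
  unfold PP
  rw [Polynomial.eval_prod]
  refine Finset.prod_eq_zero (Finset.mem_range.2 h) ?_
  simp

theorem D_mul (p : ℤ) {j i : ℕ} (h : j ≤ i) :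
    Pool.Agent.H475.QZ.D p j * ∏ d ∈ Ioc j i, ph p d = Pool.Agent.H475.QZ.D p i := by
  have h1 : ∀ n : ℕ, Pool.Agent.H475.QZ.D p n = ∏ d ∈ Ioc 0 n, ph p d := by
    intro n
    rfl
  rw [h1, h1, Finset.prod_Ioc_consecutive _ (Nat.zero_le _) h]

theorem pow_sub_ne {p : ℤ} (hp : 2 ≤ |p|) {l : ℕ} (hl : 1 ≤ l) : (p : ℚ) ^ l - 1 ≠ 0 := by
  intro h
  have h1 : (p : ℚ) ^ l = 1 := by linarith
  have h2 : p ^ l = 1 := by exact_mod_cast h1
  have h3 : |p| ^ l = 1 := by rw [← abs_pow, h2, abs_one]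
  have h4 : 1 < |p| ^ l := one_lt_pow₀ (by omega) (by omega)
  omega

end P_E1

theorem t_E1 (hPK : Pool.Agent.H410.NQ.S_PK) (hB1 : Pool.Agent.H475.QZ.S_B1) : S_E1 := by
  intro p hp w i j k hki
  by_cases hkj : k < j
  · refine ⟨0, ?_⟩
    rw [P_E1.eval_zero p hkj]
    simp
  · have hji : j ≤ i := by omega
    obtain ⟨Y, hY⟩ := hPK p j k
    have h1 : ∀ l : ℕ, ∃ c : ℤ, l ∈ Icc 1 k → Pool.Agent.H475.QZ.D p i = (p ^ l - 1) * c := by
      intro l
      by_cases hl : l ∈ Icc 1 k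
      · obtain ⟨c, hc⟩ := hB1 p i l (Finset.mem_Icc.1 hl).1 ((Finset.mem_Icc.1 hl).2.trans hki)
        exact ⟨c, fun _ => hc⟩
      · exact ⟨0, fun h => absurd h hl⟩
    choose c hc using h1
    refine ⟨∑ l ∈ Icc 1 k, Y * c l ^ 3 * (w 0 * (p ^ l - 1) ^ 2 + w 1 * p ^ l * (p ^ l - 1) +
      w 2 * (p ^ l * (p ^ l + 1))), ?_⟩
    have hD : ∏ d ∈ Icc 1 (min i j), ph p d = Pool.Agent.H475.QZ.D p j := by
      rw [min_eq_right hji]
      rfl
    have h2 : (((∏ d ∈ Ioc j i, ph p d) ^ 3 * (∏ d ∈ Icc 1 (min i j), ph p d) ^ 2 : ℤ) : ℚ) *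
        (((PP p j).eval (p ^ k) : ℤ) : ℚ) =
        (Y : ℚ) * ((Pool.Agent.H475.QZ.D p i : ℤ) : ℚ) ^ 3 := by
      rw [hD, hY, ← P_E1.D_mul p hji]
      push_cast
      ring
    rw [h2]
    unfold hq
    rw [Finset.mul_sum]
    push_cast
    refine Finset.sum_congr rfl fun l hl => ?_
    have h3 := P_E1.pow_sub_ne hp (Finset.mem_Icc.1 hl).1
    rw [hc l hl]
    unfold h1
    push_cast
    field_simp

end Pool.Agent.H410.QL
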