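import Pool.Agent.H410.QL.Stm

/-! Task QL HLL (helper570). Adapted from `QZ/P_HLL.lean` (helper657). -/

namespace Pool.Agent.H410.QL

open Finset Polynomial
open Pool.Agent.H410.NQ (ph PP Om vv rr)
open Pool.Agent.H410.FL (Dg Wt nw)
open Pool.Agent.H475.QZ (D RpS pik VV xx XX QQ EE FF nu ea C3 ww)

namespace P_HLL

theorem Dg_sum {ι : Type} (w : Fin 3 → ℝ) (s : Finset ι) (f : ι → PowerSeries ℝ) :
    Dg w (∑ i ∈ s, f i) = ∑ i ∈ s, Dg w (f i) := by
  unfold Dg
  rw [map_sum, map_sum, map_sum, Finset.mul_sum, Finset.mul_sum, Finset.mul_sum,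
    ← Finset.sum_add_distrib, ← Finset.sum_add_distrib]

theorem Dg_C (w : Fin 3 → ℝ) (x y : ℝ) (f : PowerSeries ℝ) :
    Dg w (PowerSeries.C x * f * PowerSeries.C y) = x * Dg w f * y := by
  unfold Dg
  rw [PowerSeries.coeff_mul_C, PowerSeries.coeff_C_mul, PowerSeries.coeff_mul_C,
    PowerSeries.coeff_C_mul, PowerSeries.coeff_mul_C, PowerSeries.coeff_C_mul]
  ring

end P_HLL

theorem t_HLL (hASER : S_ASER) (hLAG : Pool.Agent.H475.QZ.S_LAG) : S_HLL := by
  intro p hp w N F G hF hG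
  have key : ∀ t : ℕ, kap p (wR w) N (t + 1) (F * G) = ∑ k ∈ range N, ∑ j ∈ range N,
      F.eval ((p : ℝ) ^ k) / pik ℝ p N k * Dg (wR w) (XX p (t + 1) ^ (j + 1 + 1) *
        (PowerSeries.C ((p : ℝ) ^ k) - XX p (t + 1))⁻¹) * G.coeff j := by
    intro t
    have h1 := hLAG p hp N (t + 1) (by omega) F hF
    have h2 : Polynomial.aeval (XX p (t + 1)) G =
        ∑ j ∈ range N, PowerSeries.C (G.coeff j) * XX p (t + 1) ^ j := by
      rw [Polynomial.aeval_eq_sum_range' hG]
      refine Finset.sum_congr rfl fun j _ => ?_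
      rw [PowerSeries.smul_eq_C_mul]
    have h3 : XX p (t + 1) ^ 2 * Polynomial.aeval (XX p (t + 1)) (F * G) *
        (QQ p N (t + 1))⁻¹ = ∑ k ∈ range N, ∑ j ∈ range N,
          PowerSeries.C (F.eval ((p : ℝ) ^ k) / pik ℝ p N k) * (XX p (t + 1) ^ (j + 1 + 1) *
          (PowerSeries.C ((p : ℝ) ^ k) - XX p (t + 1))⁻¹) * PowerSeries.C (G.coeff j) := by
      rw [map_mul]
      calc XX p (t + 1) ^ 2 * (Polynomial.aeval (XX p (t + 1)) F *
            Polynomial.aeval (XX p (t + 1)) G) * (QQ p N (t + 1))⁻¹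
          = XX p (t + 1) ^ 2 * ((Polynomial.aeval (XX p (t + 1)) F * (QQ p N (t + 1))⁻¹) *
            Polynomial.aeval (XX p (t + 1)) G) := by ring
        _ = _ := by
            rw [← h1, h2, Finset.sum_mul_sum, Finset.mul_sum]
            refine Finset.sum_congr rfl fun k _ => ?_
            rw [Finset.mul_sum]
            refine Finset.sum_congr rfl fun j _ => ?_
            ring
    unfold kap
    rw [h3, P_HLL.Dg_sum]
    refine Finset.sum_congr rfl fun k _ => ?_
    rw [P_HLL.Dg_sum]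
    refine Finset.sum_congr rfl fun j _ => ?_
    rw [P_HLL.Dg_C]
  have h4 : HasSum (fun t : ℕ => ∑ k ∈ range N, ∑ j ∈ range N,
      F.eval ((p : ℝ) ^ k) / pik ℝ p N k * Dg (wR w) (XX p (t + 1) ^ (j + 1 + 1) *
        (PowerSeries.C ((p : ℝ) ^ k) - XX p (t + 1))⁻¹) * G.coeff j) (LL p w N F G) := by
    unfold LL
    refine hasSum_sum fun k _ => hasSum_sum fun j _ => ?_
    exact ((hASER p hp w k (j + 1)).mul_left _).mul_right _
  exact h4.congr_fun key

end Pool.Agent.H410.QL
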