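import Pool.Agent.H410.QL.Stm

/-!
Proof of `S_HP` (helper935, after `NQ/P_HP.lean` of helper795).
-/

set_option autoImplicit false

namespace Pool.Agent.H410.QL

open Finset Polynomial
open Pool.Agent.H410.NQ (Om vv)
open Pool.Agent.H475.QZ (RpS int_mem_RpS inv_mem_RpS)

namespace P_HP

variable {p : ℤ}

theorem pow_sub_ne (hp : 2 ≤ |p|) {f : ℕ} (hf : 1 ≤ f) : p ^ f - 1 ≠ 0 := by
  intro h
  have h1 : p ^ f = 1 := sub_eq_zero.1 h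
  have h2 : |p| ^ f = 1 := by rw [← abs_pow, h1, abs_one]
  have h3 : |p| ≤ |p| ^ f := le_self_pow₀ (by linarith) (by omega)
  linarith

theorem cop {f : ℕ} (hf : 1 ≤ f) : IsCoprime (p ^ f - 1) p := by
  refine ⟨-1, p ^ (f - 1), ?_⟩
  have h : p ^ (f - 1) * p = p ^ f := by rw [← pow_succ, Nat.sub_add_cancel hf]
  linear_combination h

theorem inv_mem (hp : 2 ≤ |p|) {f : ℕ} (hf : 1 ≤ f) : ((p : ℚ) ^ f - 1)⁻¹ ∈ RpS p := by
  have h := inv_mem_RpS (cop hf) (pow_sub_ne hp hf)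
  push_cast at h
  exact h

theorem p_mem : (p : ℚ) ∈ RpS p := int_mem_RpS p p

theorem p_ne (hp : 2 ≤ |p|) : (p : ℚ) ≠ 0 := by
  have h : p ≠ 0 := by
    rintro rfl
    rw [abs_zero] at hp
    linarith
  exact_mod_cast h

theorem ev {W : Polynomial ℤ} {r : ℕ} (hW : W.natDegree = r) (n : ℕ) :
    ((W.eval (p ^ n) : ℤ) : ℚ) =
      ∑ k ∈ range (r + 1), ((W.coeff k : ℤ) : ℚ) * (p : ℚ) ^ (k * n) := by
  rw [eval_eq_sum_range' (n := r + 1) (by omega)]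
  push_cast
  refine sum_congr rfl fun k _ => ?_
  rw [← pow_mul, mul_comm n k]

theorem ed {W : Polynomial ℤ} {r : ℕ} (hW : W.natDegree = r) (m : ℕ) :
    ((p ^ m * (derivative W).eval (p ^ m) : ℤ) : ℚ) =
      ∑ k ∈ range (r + 1), ((W.coeff k : ℤ) : ℚ) * (p : ℚ) ^ (k * m) * (k : ℚ) := by
  rw [derivative_eval, sum_over_range' _ (fun n => by simp) (r + 1) (by omega)]
  push_cast
  rw [mul_sum]
  refine sum_congr rfl fun k _ => ?_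
  rcases Nat.eq_zero_or_pos k with rfl | hk
  · simp
  · have h1 : (p : ℚ) ^ (k * m) = (p : ℚ) ^ m * ((p : ℚ) ^ m) ^ (k - 1) := by
      rw [← pow_succ', Nat.sub_add_cancel hk, ← pow_mul, mul_comm k m]
    rw [h1]
    ring

end P_HP

open P_HP in
theorem t_HP (hMON : Pool.Agent.H410.NQ.S_MON) (hOM : Pool.Agent.H410.NQ.S_OM) (hHX : S_HX) :
    S_HP := by
  intro p hp w r m
  have hdeg : (Om p r).natDegree = r := ((hMON p).2 r).2
  have hpv : (p : ℚ) ^ vv r ≠ 0 := pow_ne_zero _ (p_ne hp)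
  have h1 : ∀ n : ℕ, ∃ c : ℤ, ∑ k ∈ range (r + 1), (((Om p r).coeff k : ℤ) : ℚ) * (p : ℚ) ^ (k * n) =
      (p : ℚ) ^ vv r * c := by
    intro n
    obtain ⟨c, hc⟩ := (hOM p r n).1
    refine ⟨c, ?_⟩
    rw [← ev hdeg n, hc]
    push_cast
    rfl
  choose c hc using h1
  obtain ⟨d, hd⟩ : ∃ d : ℤ, ∑ k ∈ range (r + 1),
      (((Om p r).coeff k : ℤ) : ℚ) * (p : ℚ) ^ (k * m) * (k : ℚ) = (p : ℚ) ^ vv r * d := by
    obtain ⟨d, hd⟩ := (hOM p r m).2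
    refine ⟨d, ?_⟩
    rw [← ed hdeg m, hd]
    push_cast
    rfl
  choose u hu using fun k => hHX p hp w (vv r + 1) k (by omega)
  have hmain : ∑ k ∈ range (r + 1), (((Om p r).coeff k : ℤ) : ℚ) * (p : ℚ) ^ (k * m) * hq p w k =
      (p : ℚ) ^ vv r * (-((w 0 : ℚ) * (d : ℚ)) -
        (∑ f ∈ Ico 1 (vv r + 1), (Wz w (-(f : ℤ)) : ℚ) * ((p : ℚ) ^ f * ((p : ℚ) ^ f - 1)⁻¹ *
          ((c (m + f) : ℚ) - (c m : ℚ)))) +
        ∑ k ∈ range (r + 1), (((Om p r).coeff k : ℤ) : ℚ) * (p : ℚ) ^ (k * m) *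
          ∑ l ∈ Icc 1 k, (p : ℚ) ^ (l * (vv r + 1) - vv r) * (u k l : ℚ) *
            ((p : ℚ) ^ l - 1)⁻¹ ^ 3) := by
    have e1 : ∀ k, (((Om p r).coeff k : ℤ) : ℚ) * (p : ℚ) ^ (k * m) * hq p w k =
        -((w 0 : ℚ) * ((((Om p r).coeff k : ℤ) : ℚ) * (p : ℚ) ^ (k * m) * (k : ℚ))) -
        (∑ f ∈ Ico 1 (vv r + 1), (Wz w (-(f : ℤ)) : ℚ) * ((p : ℚ) ^ f * ((p : ℚ) ^ f - 1)⁻¹ *
          ((((Om p r).coeff k : ℤ) : ℚ) * (p : ℚ) ^ (k * (m + f)) -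
            (((Om p r).coeff k : ℤ) : ℚ) * (p : ℚ) ^ (k * m)))) +
        (((Om p r).coeff k : ℤ) : ℚ) * (p : ℚ) ^ (k * m) *
          ((p : ℚ) ^ vv r *
            ∑ l ∈ Icc 1 k, (p : ℚ) ^ (l * (vv r + 1) - vv r) * (u k l : ℚ) *
              ((p : ℚ) ^ l - 1)⁻¹ ^ 3) := by
      intro k
      rw [hu k]
      have e2 : ∑ l ∈ Icc 1 k, (p : ℚ) ^ (l * (vv r + 1)) * (u k l : ℚ) / ((p : ℚ) ^ l - 1) ^ 3 =
          (p : ℚ) ^ vv r *
            ∑ l ∈ Icc 1 k, (p : ℚ) ^ (l * (vv r + 1) - vv r) * (u k l : ℚ) *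
              ((p : ℚ) ^ l - 1)⁻¹ ^ 3 := by
        rw [mul_sum]
        refine sum_congr rfl fun l hl => ?_
        have hl1 := (mem_Icc.1 hl).1
        have h3 : vv r + (l * (vv r + 1) - vv r) = l * (vv r + 1) := by
          have : 1 * (vv r + 1) ≤ l * (vv r + 1) := Nat.mul_le_mul_right _ hl1
          omega
        rw [← mul_assoc, ← mul_assoc, ← pow_add, h3, div_eq_mul_inv, inv_pow]
      have e3 : ∑ f ∈ Ico 1 (vv r + 1), (Wz w (-(f : ℤ)) : ℚ) *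
          ((p : ℚ) ^ f * ((p : ℚ) ^ f - 1)⁻¹ *
          ((((Om p r).coeff k : ℤ) : ℚ) * (p : ℚ) ^ (k * (m + f)) -
            (((Om p r).coeff k : ℤ) : ℚ) * (p : ℚ) ^ (k * m))) =
          (((Om p r).coeff k : ℤ) : ℚ) * (p : ℚ) ^ (k * m) *
            ∑ f ∈ Ico 1 (vv r + 1), (Wz w (-(f : ℤ)) : ℚ) *
              ((p : ℚ) ^ f * ((p : ℚ) ^ (k * f) - 1) / ((p : ℚ) ^ f - 1)) := by
        rw [mul_sum]
        refine sum_congr rfl fun f _ => ?_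
        rw [mul_add k m f, pow_add, div_eq_mul_inv]
        ring
      rw [e2, e3]
      ring
    rw [sum_congr rfl fun k _ => e1 k, sum_add_distrib, sum_sub_distrib, sum_neg_distrib,
      ← mul_sum, hd, sum_comm]
    have e4 : ∀ f : ℕ, ∑ k ∈ range (r + 1), (Wz w (-(f : ℤ)) : ℚ) *
          ((p : ℚ) ^ f * ((p : ℚ) ^ f - 1)⁻¹ *
          ((((Om p r).coeff k : ℤ) : ℚ) * (p : ℚ) ^ (k * (m + f)) -
            (((Om p r).coeff k : ℤ) : ℚ) * (p : ℚ) ^ (k * m))) =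
        (p : ℚ) ^ vv r * ((Wz w (-(f : ℤ)) : ℚ) *
          ((p : ℚ) ^ f * ((p : ℚ) ^ f - 1)⁻¹ * ((c (m + f) : ℚ) - (c m : ℚ)))) := by
      intro f
      rw [← mul_sum, ← mul_sum, sum_sub_distrib, hc, hc]
      ring
    rw [sum_congr rfl fun f _ => e4 f, ← mul_sum]
    have e5 : ∑ k ∈ range (r + 1), (((Om p r).coeff k : ℤ) : ℚ) * (p : ℚ) ^ (k * m) *
          ((p : ℚ) ^ vv r *
            ∑ l ∈ Icc 1 k, (p : ℚ) ^ (l * (vv r + 1) - vv r) * (u k l : ℚ) *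
              ((p : ℚ) ^ l - 1)⁻¹ ^ 3) =
        (p : ℚ) ^ vv r * ∑ k ∈ range (r + 1), (((Om p r).coeff k : ℤ) : ℚ) * (p : ℚ) ^ (k * m) *
          ∑ l ∈ Icc 1 k, (p : ℚ) ^ (l * (vv r + 1) - vv r) * (u k l : ℚ) *
            ((p : ℚ) ^ l - 1)⁻¹ ^ 3 := by
      rw [mul_sum]
      refine sum_congr rfl fun k _ => ?_
      ring
    rw [e5]
    ring
  rw [hmain, mul_div_cancel_left₀ _ hpv]
  refine add_mem (sub_mem (neg_mem (mul_mem (int_mem_RpS p _) (int_mem_RpS p d)))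
    (sum_mem fun f hf => ?_))
    (sum_mem fun k _ => mul_mem (mul_mem (int_mem_RpS p _)
      (pow_mem p_mem _)) (sum_mem fun l hl => ?_))
  · exact mul_mem (int_mem_RpS p _) (mul_mem (mul_mem (pow_mem p_mem _)
      (inv_mem hp (mem_Ico.1 hf).1)) (sub_mem (int_mem_RpS p _) (int_mem_RpS p _)))
  · exact mul_mem (mul_mem (pow_mem p_mem _) (int_mem_RpS p _))
      (pow_mem (inv_mem hp (mem_Icc.1 hl).1) 3)

end Pool.Agent.H410.QL
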