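import Pool.Agent.H410.QL.Stm

/-!
QL: expansion of the numbers `H_k` (helper945, for helper410)
-/

set_option autoImplicit false


namespace Pool.Agent.H410.QL.P_HX

open Finset

/-- `y = p^l ≠ 1` -/
theorem pow_ne_one' {p : ℤ} (hp : 2 ≤ |p|) {l : ℕ} (hl : 1 ≤ l) : ((p : ℚ)) ^ l ≠ 1 := by
  intro h
  have h1 : (p : ℤ) ^ l = 1 := by exact_mod_cast h
  have h2 : |p| ^ l = 1 := by rw [← abs_pow, h1, abs_one]
  have h3 : 2 ^ l ≤ |p| ^ l := pow_le_pow_left₀ (by norm_num) hp l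
  have h4 : (2 : ℤ) ^ 1 ≤ 2 ^ l := pow_le_pow_right₀ (by norm_num) hl
  linarith

/-- the numerator of the remainder -/
def uu (w : Fin 3 → ℤ) (F : ℤ) (y : ℤ) : ℤ :=
  w 0 * (y - 1) ^ 2 + w 1 * ((F - (F - 1) * y) * (y - 1)) +
    w 2 * (F ^ 2 - (2 * F ^ 2 - 2 * F - 1) * y + (F - 1) ^ 2 * y ^ 2)

theorem uu_rec (w : Fin 3 → ℤ) (F y : ℤ) :
    y * uu w (F + 1) y = uu w F y + Wz w (-F) * (y - 1) ^ 3 := by
  unfold uu Wz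
  ring

theorem expand {p : ℤ} (hp : 2 ≤ |p|) (w : Fin 3 → ℤ) {l : ℕ} (hl : 1 ≤ l) (F : ℕ) :
    h1 p w l = -(∑ f ∈ range F, (Wz w (-(f : ℤ)) : ℚ) * ((p : ℚ) ^ f) ^ l) +
      (p : ℚ) ^ (l * F) * (uu w F (p ^ l) : ℚ) / ((p : ℚ) ^ l - 1) ^ 3 := by
  have hy : ((p : ℚ)) ^ l - 1 ≠ 0 := sub_ne_zero.2 (pow_ne_one' hp hl)
  induction F with
  | zero =>
    rw [Finset.sum_range_zero, mul_zero, pow_zero]
    unfold h1 uu
    push_cast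
    field_simp
    ring
  | succ F ih =>
    rw [ih, Finset.sum_range_succ]
    have h2 := uu_rec w (F : ℤ) (p ^ l)
    have h3 : ((p : ℚ) ^ l) * (uu w ((F : ℤ) + 1) (p ^ l) : ℚ) =
        (uu w (F : ℤ) (p ^ l) : ℚ) + (Wz w (-(F : ℤ)) : ℚ) * ((p : ℚ) ^ l - 1) ^ 3 := by
      exact_mod_cast h2
    have h4 : ((F + 1 : ℕ) : ℤ) = (F : ℤ) + 1 := by push_cast; ring
    have h5 : (p : ℚ) ^ (l * (F + 1)) = (p : ℚ) ^ (l * F) * (p : ℚ) ^ l := by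
      rw [mul_add, mul_one, pow_add]
    have h6 : (((p : ℚ) ^ F) ^ l) = (p : ℚ) ^ (l * F) := by rw [← pow_mul, mul_comm]
    rw [h4, h5, h6]
    have h7 : (p : ℚ) ^ (l * F) * (p : ℚ) ^ l * (uu w ((F : ℤ) + 1) (p ^ l) : ℚ) =
        (p : ℚ) ^ (l * F) * ((uu w (F : ℤ) (p ^ l) : ℚ) +
          (Wz w (-(F : ℤ)) : ℚ) * ((p : ℚ) ^ l - 1) ^ 3) := by
      rw [mul_assoc, h3]
    rw [h7]
    field_simp
    ring

theorem geo {x : ℚ} (hx : x - 1 ≠ 0) (k : ℕ) :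
    ∑ l ∈ Icc 1 k, x ^ l = x * (x ^ k - 1) / (x - 1) := by
  induction k with
  | zero => simp
  | succ k ih =>
    rw [Finset.sum_Icc_succ_top (by omega), ih]
    field_simp
    ring

theorem hx_main {p : ℤ} (hp : 2 ≤ |p|) (w : Fin 3 → ℤ) {F : ℕ} (k : ℕ) (hF : 1 ≤ F) :
    hq p w k = -((w 0 : ℚ) * k) -
      (∑ f ∈ Ico 1 F, (Wz w (-(f : ℤ)) : ℚ) *
        ((p : ℚ) ^ f * ((p : ℚ) ^ (k * f) - 1) / ((p : ℚ) ^ f - 1))) +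
      ∑ l ∈ Icc 1 k, (p : ℚ) ^ (l * F) * (uu w F (p ^ l) : ℚ) / ((p : ℚ) ^ l - 1) ^ 3 := by
  unfold hq
  rw [Finset.sum_congr rfl fun l hl => expand hp w (Finset.mem_Icc.1 hl).1 F,
    Finset.sum_add_distrib, Finset.sum_neg_distrib, Finset.sum_comm]
  congr 1
  rw [Finset.range_eq_Ico, Finset.sum_eq_sum_Ico_succ_bot hF]
  have e0 : ∑ l ∈ Icc 1 k, (Wz w (-((0 : ℕ) : ℤ)) : ℚ) * ((p : ℚ) ^ 0) ^ l = (w 0 : ℚ) * k := by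
    have h0 : Wz w (-((0 : ℕ) : ℤ)) = w 0 := by
      unfold Wz
      push_cast
      ring
    rw [h0]
    simp [mul_comm]
  have e1 : ∀ f ∈ Ico (0 + 1) F, ∑ l ∈ Icc 1 k, (Wz w (-(f : ℤ)) : ℚ) * ((p : ℚ) ^ f) ^ l =
      (Wz w (-(f : ℤ)) : ℚ) * ((p : ℚ) ^ f * ((p : ℚ) ^ (k * f) - 1) / ((p : ℚ) ^ f - 1)) := by
    intro f hf
    have hf1 : 1 ≤ f := by
      have := (Finset.mem_Ico.1 hf).1
      omega
    rw [← Finset.mul_sum, geo (sub_ne_zero.2 (pow_ne_one' hp hf1)) k, ← pow_mul, mul_comm f k]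
  rw [e0, Finset.sum_congr rfl e1]
  rw [zero_add]
  ring

end Pool.Agent.H410.QL.P_HX

namespace Pool.Agent.H410.QL

theorem t_HX : S_HX := fun _ hp w F k hF =>
  ⟨fun l => P_HX.uu w F (_ ^ l), P_HX.hx_main hp w k hF⟩

end Pool.Agent.H410.QL
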