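import Pool.Agent.H410.QL.Stm

/-!
Integrality of the determinant.
-/

set_option autoImplicit false

namespace Pool.Agent.H410.QL

open Finset Polynomial
open Pool.Agent.H410.NQ (ph PP Om vv rr ZR)

namespace P_INT

theorem int_mem (m : ℤ) : (m : ℚ) ∈ ZR := ⟨m, rfl⟩

theorem mem_int {x : ℚ} (h : x ∈ ZR) : ∃ m : ℤ, x = m := by
  obtain ⟨m, hm⟩ := h
  exact ⟨m, hm.symm⟩

theorem e1 {p : ℤ} (hp : 2 ≤ |p|) (w : Fin 3 → ℤ) (hE1 : S_E1) (hRD : S_RD) (n i j k : ℕ)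
    (hk : k ≤ i) :
    (Rr p n i : ℚ) * (Rc p n j : ℚ) * (((PP p j).eval (p ^ k) : ℤ) : ℚ) * hq p w k ∈ ZR := by
  obtain ⟨m, hm⟩ := hE1 p hp w i j k hk
  obtain ⟨q, hq'⟩ := (hRD p n i j).1
  generalize ((∏ d ∈ Ioc j i, ph p d) ^ 3 * (∏ d ∈ Icc 1 (min i j), ph p d) ^ 2) = D at hm hq'
  have h1 : (Rr p n i : ℚ) * (Rc p n j : ℚ) = (D : ℚ) * (q : ℚ) := by
    exact_mod_cast hq'
  have h2 : (Rr p n i : ℚ) * (Rc p n j : ℚ) * (((PP p j).eval (p ^ k) : ℤ) : ℚ) * hq p w k =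
      ((q * m : ℤ) : ℚ) := by
    rw [h1]
    push_cast
    rw [← hm]
    ring
  rw [h2]
  exact int_mem _

theorem e2 {p : ℤ} (hp : 2 ≤ |p|) (w : Fin 3 → ℤ) (hE2 : Pool.Agent.H410.NQ.S_E2) (hRD : S_RD)
    (n i j l e : ℕ) (he : 1 ≤ e) (hel : e ≤ l + 1) (hl : l ≤ j) :
    (Rr p n i : ℚ) * (Rc p n j : ℚ) * (((PP p i).eval (p ^ (l + 1 - e)) : ℤ) : ℚ) * cq p w e ∈
      ZR := by
  obtain ⟨m, hm⟩ := hE2 p hp i j l e he hel hl
  obtain ⟨q, hq'⟩ := (hRD p n i j).2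
  generalize (∏ d ∈ Ioc i (j + 1), ph p d) = D at hm hq'
  have h1 : (Rr p n i : ℚ) * (Rc p n j : ℚ) = (D : ℚ) * (q : ℚ) := by
    exact_mod_cast hq'
  have h2 : (Rr p n i : ℚ) * (Rc p n j : ℚ) * (((PP p i).eval (p ^ (l + 1 - e)) : ℤ) : ℚ) *
      cq p w e = ((q * m * Wz w e : ℤ) : ℚ) := by
    rw [h1]
    unfold cq
    push_cast
    rw [← hm]
    ring
  rw [h2]
  exact int_mem _

theorem entry (hMON : Pool.Agent.H410.NQ.S_MON) (hE1 : S_E1) (hE2 : Pool.Agent.H410.NQ.S_E2)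
    (hRD : S_RD) (hEIJ : S_EIJ) {p : ℤ} (hp : 2 ≤ |p|) (w : Fin 3 → ℤ) (s : ℤ) (n N i j : ℕ)
    (hi : i < N) (hj : j < N) :
    (Rr p n i : ℚ) * ((Rc p n j : ℚ) * ∑ k ∈ range N, ∑ l ∈ range N,
        (((PP p i).coeff k : ℤ) : ℚ) * Aq p w s k (l + 1) * (((PP p j).coeff l : ℤ) : ℚ)) ∈ ZR := by
  have hdeg : ∀ i k, i < k → (PP p i).coeff k = 0 := fun i k hk =>
    Polynomial.coeff_eq_zero_of_natDegree_lt (by rw [((hMON p).1 i).2]; exact hk)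
  rw [hEIJ p w s N i j hi hj, ← mul_assoc, mul_sub, Finset.mul_sum, Finset.mul_sum]
  refine ZR.sub_mem (ZR.sum_mem fun k _ => ?_) (ZR.sum_mem fun l _ => ?_)
  · rcases le_or_gt k i with hk | hk
    · have h1 := e1 hp w hE1 hRD n i j k hk
      have h2 : (Rr p n i : ℚ) * (Rc p n j : ℚ) * ((((PP p i).coeff k : ℤ) : ℚ) * (p : ℚ) ^ k *
          (((PP p j).eval (p ^ k) : ℤ) : ℚ) * ((s : ℚ) - hq p w k)) =
          (((Rr p n i * Rc p n j * (PP p i).coeff k * p ^ k * (PP p j).eval (p ^ k) * s : ℤ)) : ℚ) -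
          ((((PP p i).coeff k * p ^ k : ℤ)) : ℚ) *
            ((Rr p n i : ℚ) * (Rc p n j : ℚ) * (((PP p j).eval (p ^ k) : ℤ) : ℚ) * hq p w k) := by
        push_cast
        ring
      rw [h2]
      exact ZR.sub_mem (int_mem _) (ZR.mul_mem (int_mem _) h1)
    · rw [hdeg i k hk, Int.cast_zero, zero_mul, zero_mul, zero_mul, mul_zero]
      exact ZR.zero_mem
  · rcases le_or_gt l j with hl | hl
    · have h2 : (Rr p n i : ℚ) * (Rc p n j : ℚ) * ((((PP p j).coeff l : ℤ) : ℚ) *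
          ∑ e ∈ Icc 1 (l + 1), (((PP p i).eval (p ^ (l + 1 - e)) : ℤ) : ℚ) * cq p w e) =
          (((PP p j).coeff l : ℤ) : ℚ) * ∑ e ∈ Icc 1 (l + 1), (Rr p n i : ℚ) * (Rc p n j : ℚ) *
            (((PP p i).eval (p ^ (l + 1 - e)) : ℤ) : ℚ) * cq p w e := by
        rw [Finset.mul_sum, Finset.mul_sum, Finset.mul_sum]
        exact Finset.sum_congr rfl fun e _ => by ring
      rw [h2]
      refine ZR.mul_mem (int_mem _) (ZR.sum_mem fun e he => ?_)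
      rw [Finset.mem_Icc] at he
      exact e2 hp w hE2 hRD n i j l e he.1 he.2 hl
    · rw [hdeg j l hl, Int.cast_zero, zero_mul, mul_zero]
      exact ZR.zero_mem

/-- the determinant of the transformed matrix -/
theorem det_eq (hTR : S_TR) (hMON : Pool.Agent.H410.NQ.S_MON) (p : ℤ) (w : Fin 3 → ℤ) (s : ℤ)
    (n : ℕ) :
    (RT p n : ℚ) * (MQ p w s (2 * n + 1)).det =
      (Matrix.of fun i j : Fin (2 * n + 1) => (Rr p n (i : ℕ) : ℚ) * ((Rc p n (j : ℕ) : ℚ) *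
        ∑ k ∈ range (2 * n + 1), ∑ l ∈ range (2 * n + 1), (((PP p (i : ℕ)).coeff k : ℤ) : ℚ) *
          Aq p w s k (l + 1) * (((PP p (j : ℕ)).coeff l : ℤ) : ℚ))).det := by
  have h1 := (hTR (2 * n + 1) (MQ p w s (2 * n + 1)) (PP p) (hMON p).1).2
  have h2 : (Matrix.of fun i j : Fin (2 * n + 1) => (Rr p n (i : ℕ) : ℚ) * ((Rc p n (j : ℕ) : ℚ) *
        ∑ k ∈ range (2 * n + 1), ∑ l ∈ range (2 * n + 1), (((PP p (i : ℕ)).coeff k : ℤ) : ℚ) *
          Aq p w s k (l + 1) * (((PP p (j : ℕ)).coeff l : ℤ) : ℚ))) =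
      Matrix.of fun i j : Fin (2 * n + 1) => (Rr p n (i : ℕ) : ℚ) *
        (Matrix.of fun i j : Fin (2 * n + 1) => (Rc p n (j : ℕ) : ℚ) *
          (Matrix.of fun i j : Fin (2 * n + 1) => ∑ k : Fin (2 * n + 1), ∑ l : Fin (2 * n + 1),
            (((PP p (i : ℕ)).coeff k : ℤ) : ℚ) * MQ p w s (2 * n + 1) k l *
              (((PP p (j : ℕ)).coeff l : ℤ) : ℚ)) i j) i j := by
    ext i j
    simp only [Matrix.of_apply]
    rw [Finset.sum_range]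
    have h3 : ∀ k : Fin (2 * n + 1), ∑ l ∈ range (2 * n + 1),
          (((PP p (i : ℕ)).coeff (k : ℕ) : ℤ) : ℚ) *
          Aq p w s k (l + 1) * (((PP p (j : ℕ)).coeff l : ℤ) : ℚ) =
        ∑ l : Fin (2 * n + 1), (((PP p (i : ℕ)).coeff (k : ℕ) : ℤ) : ℚ) *
          MQ p w s (2 * n + 1) k l * (((PP p (j : ℕ)).coeff l : ℤ) : ℚ) := by
      intro k
      rw [Finset.sum_range]
      rfl
    rw [Finset.sum_congr rfl fun k _ => h3 k]
  rw [h2, Matrix.det_mul_column, Matrix.det_mul_row, h1]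
  unfold RT
  push_cast
  rw [Finset.prod_range, Finset.prod_range]
  ring

theorem det_mem (N : ℕ) (A : Matrix (Fin N) (Fin N) ℚ) (h : ∀ i j, A i j ∈ ZR) :
    ∃ X : ℤ, (X : ℚ) = A.det := by
  choose B hB using fun i j => mem_int (h i j)
  refine ⟨(Matrix.of B).det, ?_⟩
  have h1 := RingHom.map_det (Int.castRingHom ℚ) (Matrix.of B)
  have h2 : (Int.castRingHom ℚ).mapMatrix (Matrix.of B) = A := by
    ext i j
    simp only [RingHom.mapMatrix_apply, Matrix.map_apply, Matrix.of_apply, eq_intCast]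
    exact (hB i j).symm
  rw [h2] at h1
  exact h1

end P_INT

open P_INT in
theorem t_INT (hTR : S_TR) (hMON : Pool.Agent.H410.NQ.S_MON) (hE1 : S_E1)
    (hE2 : Pool.Agent.H410.NQ.S_E2) (hRD : S_RD) (hEIJ : S_EIJ) : S_INT := by
  intro p hp w s n
  rw [det_eq hTR hMON p w s n]
  refine det_mem _ _ fun i j => ?_
  exact entry hMON hE1 hE2 hRD hEIJ hp w s n (2 * n + 1) i j i.2 j.2

end Pool.Agent.H410.QL
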