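import Pool.Agent.H410.QL.Stm

/-! Task QL KB (helper114), adapted from `QZ/P_KB.lean` and `FL/P_KB.lean`. -/

namespace Pool.Agent.H410.QL

open Finset Polynomial
open Pool.Agent.H410.FL (nw Dg)
open Pool.Agent.H475.QZ (S_NU S_NUX S_NUQ S_NUE nu XX QQ xx EE FF ea ww C3)

namespace P_KB

theorem abs_xx_le {p : ℤ} (hp : 2 ≤ |p|) (t : ℕ) : |xx p t| ≤ 1 := by
  have h1 : (2 : ℝ) ≤ |(p : ℝ)| := by exact_mod_cast hp
  unfold xx
  rw [abs_inv, abs_pow]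
  exact inv_le_one_of_one_le₀ (one_le_pow₀ (by linarith))

theorem nw_nonneg (w : Fin 3 → ℝ) : 0 ≤ nw w := by unfold nw; positivity

theorem abs_Dg_le (w : Fin 3 → ℝ) (f : PowerSeries ℝ) : |Dg w f| ≤ 2 * nw w * nu f := by
  unfold Dg nu nw
  have h0 := abs_nonneg (PowerSeries.coeff 0 f)
  have h1 := abs_nonneg (PowerSeries.coeff 1 f)
  have h2 := abs_nonneg (PowerSeries.coeff 2 f)
  have w0 := abs_nonneg (w 0)
  have w1 := abs_nonneg (w 1)
  have w2 := abs_nonneg (w 2)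
  have e1 := abs_add_le (w 0 * PowerSeries.coeff 0 f + w 1 * PowerSeries.coeff 1 f)
    (2 * w 2 * PowerSeries.coeff 2 f)
  have e2 := abs_add_le (w 0 * PowerSeries.coeff 0 f) (w 1 * PowerSeries.coeff 1 f)
  rw [abs_mul, abs_mul] at e2
  rw [abs_mul (2 * w 2), abs_mul 2, abs_two] at e1
  nlinarith [mul_nonneg w0 h0, mul_nonneg w0 h1, mul_nonneg w0 h2, mul_nonneg w1 h0,
    mul_nonneg w1 h1, mul_nonneg w1 h2, mul_nonneg w2 h0, mul_nonneg w2 h1, mul_nonneg w2 h2]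

theorem nuF (hNU : S_NU) (hNUX : S_NUX) (hNUE : S_NUE) {p : ℤ} (hp : 2 ≤ |p|) {a c t : ℕ}
    (ha : a < t) (hc : c ≤ 2) :
    nu (Polynomial.aeval (XX p t) (FF p a c)) ≤ 13 ^ 3 * (7 / 2) ^ 2 * ea p a ^ 3 := by
  obtain ⟨n0, n1, nm, n2, np, npow, nC⟩ := hNU
  have e0 : (0 : ℝ) ≤ ea p a := by unfold ea; positivity
  have hF : Polynomial.aeval (XX p t) (FF p a c) =
      (Polynomial.aeval (XX p t) (EE p a)) ^ 3 *
        (XX p t - PowerSeries.C (xx p (a + 1))) ^ c := by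
    unfold FF
    rw [map_mul, map_pow, map_pow, map_sub, Polynomial.aeval_X, Polynomial.aeval_C]
    rfl
  have h1 : nu ((Polynomial.aeval (XX p t) (EE p a)) ^ 3) ≤ (13 * ea p a) ^ 3 :=
    (npow _ 3).trans (pow_le_pow_left₀ (n0 _) (hNUE p hp a t ha) 3)
  have h2 : nu (XX p t - PowerSeries.C (xx p (a + 1))) ≤ 7 / 2 := by
    refine ((hNUX p hp).1 (a + 1) t (by omega)).trans ?_
    have h5 : ((1 : ℝ) / 2) ^ (t - (a + 1)) ≤ 1 := pow_le_one₀ (by norm_num) (by norm_num)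
    have h6 : (0 : ℝ) ≤ ((1 : ℝ) / 2) ^ (t - (a + 1)) := by positivity
    calc |xx p (a + 1)| * (1 + 5 / 2 * (1 / 2) ^ (t - (a + 1)))
        ≤ 1 * (1 + 5 / 2 * (1 / 2) ^ (t - (a + 1))) :=
          mul_le_mul_of_nonneg_right (abs_xx_le hp _) (by positivity)
      _ ≤ 7 / 2 := by linarith
  have h3 : nu ((XX p t - PowerSeries.C (xx p (a + 1))) ^ c) ≤ (7 / 2) ^ 2 :=
    (npow _ c).trans ((pow_le_pow_left₀ (n0 _) h2 c).trans
      (pow_le_pow_right₀ (by norm_num) hc))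
  rw [hF]
  calc nu ((Polynomial.aeval (XX p t) (EE p a)) ^ 3 *
        (XX p t - PowerSeries.C (xx p (a + 1))) ^ c)
      ≤ nu ((Polynomial.aeval (XX p t) (EE p a)) ^ 3) *
        nu ((XX p t - PowerSeries.C (xx p (a + 1))) ^ c) := nm _ _
    _ ≤ (13 * ea p a) ^ 3 * (7 / 2) ^ 2 := mul_le_mul h1 h3 (n0 _) (by positivity)
    _ = _ := by ring

end P_KB

theorem t_KB (hNU : Pool.Agent.H475.QZ.S_NU) (hNUX : Pool.Agent.H475.QZ.S_NUX)
    (hNUQ : Pool.Agent.H475.QZ.S_NUQ) (hNUE : Pool.Agent.H475.QZ.S_NUE) : S_KB := by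
  intro p hp w N t a a' c c' ha ha' hc hc'
  have hNU' := hNU
  obtain ⟨n0, n1, nm, n2, np, npow, nC⟩ := hNU'
  have e0 : (0 : ℝ) ≤ ea p a := by unfold ea; positivity
  have e0' : (0 : ℝ) ≤ ea p a' := by unfold ea; positivity
  have w0 : (0 : ℝ) ≤ ww p N := by unfold ww; positivity
  have nw0 := P_KB.nw_nonneg w
  have f1 := P_KB.nuF hNU hNUX hNUE hp ha hc
  have f2 := P_KB.nuF hNU hNUX hNUE hp ha' hc'
  have x1 : nu (XX p t ^ 2) ≤ |xx p t| * 9 := by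
    have h1 := (hNUX p hp).2 t 2
    have h2 : |xx p t| ^ 2 ≤ |xx p t| := by
      rw [pow_two]
      exact mul_le_of_le_one_left (abs_nonneg _) (P_KB.abs_xx_le hp t)
    have e : (((2 : ℕ) : ℝ) + 1) ^ 2 = 9 := by norm_num
    rw [e] at h1
    exact h1.trans (mul_le_mul_of_nonneg_right h2 (by norm_num))
  have q1 := hNUQ p hp N t (by omega)
  have hmain : nu (XX p t ^ 2 * Polynomial.aeval (XX p t) (FF p a c * FF p a' c') *
      (QQ p N t)⁻¹) ≤ (|xx p t| * 9) *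
        ((13 ^ 3 * (7 / 2) ^ 2 * ea p a ^ 3) *
        (13 ^ 3 * (7 / 2) ^ 2 * ea p a' ^ 3)) * (3 ^ 12 * ww p N) := by
    rw [map_mul]
    refine (nm _ _).trans (mul_le_mul ?_ q1 (n0 _) (by positivity))
    refine (nm _ _).trans (mul_le_mul x1 ?_ (n0 _) (by positivity))
    exact (nm _ _).trans (mul_le_mul f1 f2 (n0 _) (by positivity))
  unfold kap
  calc |Dg w (XX p t ^ 2 * Polynomial.aeval (XX p t) (FF p a c * FF p a' c') *
        (QQ p N t)⁻¹)|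
      ≤ 2 * nw w * ((|xx p t| * 9) *
        ((13 ^ 3 * (7 / 2) ^ 2 * ea p a ^ 3) *
        (13 ^ 3 * (7 / 2) ^ 2 * ea p a' ^ 3)) * (3 ^ 12 * ww p N)) :=
        (P_KB.abs_Dg_le w _).trans (mul_le_mul_of_nonneg_left hmain (by positivity))
    _ = _ := by unfold C3; ring

end Pool.Agent.H410.QL
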