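import Pool.Agent.H410.QL.Stm

/-!
Lower bound for the determinant (helper375 for helper410).
-/

namespace Pool.Agent.H410.QL

open Finset Polynomial
open Pool.Agent.H410.NQ (ph PP Om vv rr)
open Pool.Agent.H475.QZ (RpS)

namespace P_LOW

theorem ph_ne_zero (p : ℤ) (hp : 2 ≤ |p|) (n : ℕ) (hn : 1 ≤ n) : ph p n ≠ 0 := by
  intro h
  unfold ph at h
  have h1 : (Polynomial.cyclotomic n ℤ).eval p ∣ (Polynomial.X ^ n - 1 : Polynomial ℤ).eval p :=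
    Polynomial.eval_dvd (Polynomial.cyclotomic.dvd_X_pow_sub_one n ℤ)
  rw [h] at h1
  simp only [Polynomial.eval_sub, Polynomial.eval_pow, Polynomial.eval_X, Polynomial.eval_one,
    zero_dvd_iff] at h1
  have h2 : |p| ^ n = 1 := by
    rw [← abs_pow, sub_eq_zero.mp h1, abs_one]
  have h3 : (2 : ℤ) ≤ |p| ^ n :=
    le_trans hp (le_self_pow₀ (by omega) (by omega))
  omega

theorem Rc_ne_zero (p : ℤ) (hp : 2 ≤ |p|) (n j : ℕ) : Rc p n j ≠ 0 := by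
  unfold Rc rr
  refine mul_ne_zero ?_ ?_
  · rw [Finset.prod_ne_zero_iff]
    intro d hd
    exact ph_ne_zero p hp d (by have := (Finset.mem_Ioc.mp hd).1; omega)
  · rw [Finset.prod_ne_zero_iff]
    intro d hd
    exact ph_ne_zero p hp d (by have := (Finset.mem_Ioc.mp hd).1; omega)

theorem Rr_ne_zero (p : ℤ) (hp : 2 ≤ |p|) (n i : ℕ) : Rr p n i ≠ 0 := by
  unfold Rr
  refine mul_ne_zero (mul_ne_zero ?_ ?_) ?_
  · rw [Finset.prod_ne_zero_iff]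
    intro d hd
    exact ph_ne_zero p hp d (Finset.mem_Icc.mp hd).1
  · rw [Finset.prod_ne_zero_iff]
    intro d hd
    exact ph_ne_zero p hp d (Finset.mem_Icc.mp hd).1
  · rw [Finset.prod_ne_zero_iff]
    intro d hd
    exact pow_ne_zero _ (ph_ne_zero p hp d (by have := (Finset.mem_Ioc.mp hd).1; omega))

theorem RT_ne_zero (p : ℤ) (hp : 2 ≤ |p|) (n : ℕ) : RT p n ≠ 0 := by
  unfold RT
  refine mul_ne_zero ?_ ?_
  · rw [Finset.prod_ne_zero_iff]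
    intro i _
    exact Rr_ne_zero p hp n i
  · rw [Finset.prod_ne_zero_iff]
    intro j _
    exact Rc_ne_zero p hp n j

end P_LOW

open P_LOW in
theorem t_LOW (hINT : S_INT) (hPAD : S_PAD) : S_LOW := by
  intro p hp w s n hdet
  have hpZ : p ≠ 0 := by
    intro h
    rw [h] at hp
    simp at hp
  have hp0 : (p : ℚ) ≠ 0 := by exact_mod_cast hpZ
  obtain ⟨V, hV⟩ : ∃ V : ℕ, V = ∑ r ∈ range (2 * n + 1), vv r := ⟨_, rfl⟩
  obtain ⟨d, hd⟩ : ∃ d : ℚ, d = (MQ p w s (2 * n + 1)).det := ⟨_, rfl⟩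
  obtain ⟨m, hm⟩ := hINT p hp w s n
  have hP := hPAD p hp w s (2 * n + 1)
  rw [← hd] at hm hP hdet ⊢
  rw [← hV] at hP ⊢
  obtain ⟨n0, m0, hcop, hnm⟩ := hP
  have hpV : (p : ℚ) ^ V ≠ 0 := pow_ne_zero _ hp0
  have hRT : (RT p n : ℚ) ≠ 0 := by exact_mod_cast RT_ne_zero p hp n
  have h1 : (n0 : ℚ) * d = (p : ℚ) ^ V * (m0 : ℚ) := by
    rw [← hnm]
    field_simp
  have h2 : (n0 : ℚ) * (m : ℚ) = (p : ℚ) ^ V * ((RT p n : ℚ) * (m0 : ℚ)) := by
    rw [hm]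
    have h : (n0 : ℚ) * ((RT p n : ℚ) * d) = (RT p n : ℚ) * ((n0 : ℚ) * d) := by ring
    rw [h, h1]
    ring
  have h3 : n0 * m = p ^ V * (RT p n * m0) := by exact_mod_cast h2
  have h4 : p ^ V ∣ n0 * m := ⟨_, h3⟩
  have h5 : p ^ V ∣ m := (IsCoprime.pow_left hcop.symm).dvd_of_dvd_mul_left h4
  obtain ⟨c, hc⟩ := h5
  have hm0 : m ≠ 0 := by
    intro h
    rw [h] at hm
    have h6 : (RT p n : ℚ) * d ≠ 0 := mul_ne_zero hRT hdet
    exact h6 (by rw [← hm]; simp)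
  have hc0 : c ≠ 0 := by
    intro h
    rw [h, mul_zero] at hc
    exact hm0 hc
  have hc1 : (1 : ℚ) ≤ |(c : ℚ)| := by
    have h : (1 : ℤ) ≤ |c| := Int.one_le_abs hc0
    exact_mod_cast h
  have h7 : |(m : ℚ)| = |(p : ℚ)| ^ V * |(c : ℚ)| := by
    rw [hc]
    push_cast
    rw [abs_mul, abs_pow]
  have h8 : |(m : ℚ)| = |(RT p n : ℚ)| * |d| := by
    rw [hm, abs_mul]
  rw [← h8, h7]
  have h9 : (0 : ℚ) ≤ |(p : ℚ)| ^ V := by positivity
  exact le_mul_of_one_le_right h9 hc1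

end Pool.Agent.H410.QL
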