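import Pool.Agent.H410.QL.Stm

/-!
Proof of `S_NVL` (helper99; the structure is that of `Pool.Agent.H410.FL.P_NV4`).
-/

namespace Pool.Agent.H410.QL

open Finset
open Pool.Agent.H475.QZ (RpS)

namespace P_NVL

/-- the pairs `(x, z)` such that `z` is the reduction of `x` modulo `q` -/
def Sr (q : ℕ) : Subring (ℚ × ZMod q) where
  carrier := {y | ∃ n m : ℤ, IsCoprime n (q : ℤ) ∧ (n : ℚ) * y.1 = m ∧ (n : ZMod q) * y.2 = m}
  mul_mem' := by
    rintro ⟨x, z⟩ ⟨x', z'⟩ ⟨n, m, hn, h1, h2⟩ ⟨n', m', hn', h1', h2'⟩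
    refine ⟨n * n', m * m', hn.mul_left hn', ?_, ?_⟩
    · show (((n * n' : ℤ)) : ℚ) * (x * x') = ((m * m' : ℤ) : ℚ)
      push_cast
      have h1 : (n : ℚ) * x = m := h1
      have h1' : (n' : ℚ) * x' = m' := h1'
      rw [← h1, ← h1']
      ring
    · show (((n * n' : ℤ)) : ZMod q) * (z * z') = ((m * m' : ℤ) : ZMod q)
      push_cast
      have h2 : (n : ZMod q) * z = m := h2
      have h2' : (n' : ZMod q) * z' = m' := h2'
      rw [← h2, ← h2']
      ring
  one_mem' := ⟨1, 1, isCoprime_one_left, by simp, by simp⟩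
  add_mem' := by
    rintro ⟨x, z⟩ ⟨x', z'⟩ ⟨n, m, hn, h1, h2⟩ ⟨n', m', hn', h1', h2'⟩
    refine ⟨n * n', m * n' + m' * n, hn.mul_left hn', ?_, ?_⟩
    · show (((n * n' : ℤ)) : ℚ) * (x + x') = ((m * n' + m' * n : ℤ) : ℚ)
      push_cast
      have h1 : (n : ℚ) * x = m := h1
      have h1' : (n' : ℚ) * x' = m' := h1'
      rw [← h1, ← h1']
      ring
    · show (((n * n' : ℤ)) : ZMod q) * (z + z') = ((m * n' + m' * n : ℤ) : ZMod q)
      push_cast
      have h2 : (n : ZMod q) * z = m := h2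
      have h2' : (n' : ZMod q) * z' = m' := h2'
      rw [← h2, ← h2']
      ring
  zero_mem' := ⟨1, 0, isCoprime_one_left, by simp, by simp⟩
  neg_mem' := by
    rintro ⟨x, z⟩ ⟨n, m, hn, h1, h2⟩
    refine ⟨n, -m, hn, ?_, ?_⟩
    · show (n : ℚ) * (-x) = ((-m : ℤ) : ℚ)
      have h1 : (n : ℚ) * x = m := h1
      push_cast
      rw [← h1]
      ring
    · show (n : ZMod q) * (-z) = ((-m : ℤ) : ZMod q)
      have h2 : (n : ZMod q) * z = m := h2
      push_cast
      rw [← h2]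
      ring

theorem cop_ne {q : ℕ} [Fact q.Prime] {n : ℤ} (hn : IsCoprime n (q : ℤ)) : (n : ZMod q) ≠ 0 := by
  obtain ⟨u, v, h⟩ := hn
  intro h0
  have h1 := congrArg (fun x : ℤ => (x : ZMod q)) h
  simp only [Int.cast_add, Int.cast_mul, Int.cast_natCast, Int.cast_one, h0, mul_zero, zero_add,
    ZMod.natCast_self] at h1
  exact zero_ne_one h1

theorem uniq {q : ℕ} [Fact q.Prime] {x : ℚ} {z z' : ZMod q} (h : (x, z) ∈ Sr q)
    (h' : (x, z') ∈ Sr q) : z = z' := by
  have h1 := (Sr q).sub_mem h h'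
  obtain ⟨n, m, hn, e1, e2⟩ := h1
  have e1 : (n : ℚ) * (x - x) = m := e1
  have e2 : (n : ZMod q) * (z - z') = m := e2
  rw [sub_self, mul_zero] at e1
  have e3 : m = 0 := by exact_mod_cast e1.symm
  rw [e3, Int.cast_zero] at e2
  rcases mul_eq_zero.1 e2 with h2 | h2
  · exact absurd h2 (cop_ne hn)
  · exact sub_eq_zero.1 h2

theorem int_mem (q : ℕ) (a : ℤ) : ((a : ℚ), (a : ZMod q)) ∈ Sr q :=
  ⟨1, a, isCoprime_one_left, by simp, by simp⟩

theorem div_mem {q : ℕ} (hq : q ≠ 0) {x : ℚ} (h : x / (q : ℚ) ∈ RpS q) : (x, (0 : ZMod q)) ∈ Sr q := by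
  obtain ⟨n, m, hn, h1⟩ := h
  refine ⟨n, m * q, hn, ?_, ?_⟩
  · show (n : ℚ) * x = ((m * q : ℤ) : ℚ)
    have hq' : (q : ℚ) ≠ 0 := Nat.cast_ne_zero.2 hq
    push_cast
    rw [← h1]
    field_simp
  · show (n : ZMod q) * 0 = ((m * q : ℤ) : ZMod q)
    push_cast
    rw [ZMod.natCast_self, mul_zero, mul_zero]

theorem ex_red {q : ℕ} [Fact q.Prime] {x : ℚ} (h : x ∈ RpS q) : ∃ z : ZMod q, (x, z) ∈ Sr q := by
  obtain ⟨n, m, hn, h1⟩ := h
  refine ⟨(n : ZMod q)⁻¹ * m, n, m, hn, h1, ?_⟩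
  show (n : ZMod q) * ((n : ZMod q)⁻¹ * m) = m
  rw [← mul_assoc, mul_inv_cancel₀ (cop_ne hn), one_mul]

/-- determinants -/
theorem red_det {q : ℕ} [Fact q.Prime] {ι : Type} [Fintype ι] [DecidableEq ι] (B : Matrix ι ι ℚ)
    (G : Matrix ι ι (ZMod q)) (h : ∀ s c, (B s c, G s c) ∈ Sr q) (hG : G.det ≠ 0) : B.det ≠ 0 := by
  have h1 : (B.det, G.det) ∈ Sr q := by
    have e : ((B.det, G.det) : ℚ × ZMod q) = ∑ σ : Equiv.Perm ι,
        ((((Equiv.Perm.sign σ : ℤˣ) : ℤ) : ℚ), (((Equiv.Perm.sign σ : ℤˣ) : ℤ) : ZMod q)) *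
          ∏ i, (B (σ i) i, G (σ i) i) := by
      apply Prod.ext
      · rw [Prod.fst_sum]
        simp only [Prod.fst_mul, Prod.fst_prod]
        exact Matrix.det_apply' B
      · rw [Prod.snd_sum]
        simp only [Prod.snd_mul, Prod.snd_prod]
        exact Matrix.det_apply' G
    rw [e]
    exact sum_mem fun σ _ => mul_mem (int_mem q _) (prod_mem fun i _ => h _ _)
  intro h0
  rw [h0] at h1
  exact hG (uniq h1 (zero_mem (Sr q)))

theorem inj_pow {F : Type} [Field F] {P : F} {T : ℕ} (hP0 : P ≠ 0)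
    (hord : ∀ k : ℕ, 0 < k → k < T → P ^ k ≠ 1) (c n : ℕ) (hn : n ≤ T) :
    Function.Injective (fun i : Fin n => P ^ (c + (i : ℕ))) := by
  have key : ∀ i j : ℕ, i < j → j < T → P ^ (c + i) = P ^ (c + j) → False := by
    intro i j hij hj h
    apply hord (j - i) (by omega) (by omega)
    have h1 : P ^ (c + i) * P ^ (j - i) = P ^ (c + i) * 1 := by
      rw [← pow_add, mul_one, h]
      congr 1
      omega
    exact mul_left_cancel₀ (pow_ne_zero _ hP0) h1
  intro i j h
  have hi := i.isLt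
  have hj := j.isLt
  rcases lt_trichotomy (i : ℕ) j with h1 | h1 | h1
  · exact (key i j h1 (by omega) h).elim
  · exact Fin.ext h1
  · exact (key j i h1 (by omega) h.symm).elim

theorem det_block {F : Type} [Field F] {P : F} {T : ℕ} (hP0 : P ≠ 0)
    (hord : ∀ k : ℕ, 0 < k → k < T → P ^ k ≠ 1) (c n : ℕ) (hn : n ≤ T)
    (r : Fin n → F) (hr : ∀ i, r i ≠ 0) :
    (Matrix.of fun i j : Fin n =>
      r i * Matrix.vandermonde (fun i : Fin n => P ^ (c + (i : ℕ))) i j).det ≠ 0 := by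
  rw [Matrix.det_mul_column]
  refine mul_ne_zero (Finset.prod_ne_zero_iff.2 fun i _ => hr i) ?_
  rw [Matrix.det_vandermonde_ne_zero_iff]
  exact inj_pow hP0 hord c n hn

end P_NVL

open P_NVL in
theorem t_NVL : S_NVL := by
  intro p q T hq hT hqp hord A C t b hqb h1 h2 h3 h4
  have : Fact q.Prime := ⟨hq⟩
  have hq0 : q ≠ 0 := hq.ne_zero
  have hz : ∀ a : ℤ, ¬ ((q : ℤ) ∣ a) → (a : ZMod q) ≠ 0 := fun a ha h =>
    ha ((ZMod.intCast_zmod_eq_zero_iff_dvd a q).1 h)
  obtain ⟨P, hPdef⟩ : ∃ P : ZMod q, P = (p : ZMod q) := ⟨_, rfl⟩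
  have hP0 : P ≠ 0 := by rw [hPdef]; exact hz p hqp
  have hb0 : (b : ZMod q) ≠ 0 := hz b hqb
  have hord' : ∀ k : ℕ, 0 < k → k < T → P ^ k ≠ 1 := by
    intro k hk hkT h
    apply hz _ (hord k hk hkT)
    push_cast
    rw [← hPdef, h, sub_self]
  have hpow : ∀ k : ℕ, ((p : ℚ) ^ k, P ^ k) ∈ Sr q := by
    intro k
    have := int_mem q (p ^ k)
    push_cast at this
    rw [hPdef]
    exact this
  have h2' : ∀ K J : ℕ, K < T → T ≤ J → J < 2 * T →
      (C * A K J, -(P ^ (K * (J - T)))) ∈ Sr q := by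
    intro K J e1 e2 e3
    have g1 := div_mem hq0 (h2 K J e1 e2 e3)
    have g2 := (Sr q).sub_mem g1 (hpow (K * (J - T)))
    have e : ((C * A K J, -(P ^ (K * (J - T)))) : ℚ × ZMod q) =
        (C * A K J + (p : ℚ) ^ (K * (J - T)), 0) - ((p : ℚ) ^ (K * (J - T)), P ^ (K * (J - T))) := by
      apply Prod.ext
      · show C * A K J = C * A K J + (p : ℚ) ^ (K * (J - T)) - (p : ℚ) ^ (K * (J - T))
        ring
      · show -(P ^ (K * (J - T))) = 0 - P ^ (K * (J - T))
        ring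
    rw [e]
    exact g2
  have h3' : ∀ K J : ℕ, T ≤ K → K < 2 * T - 1 → 1 ≤ J → J < T →
      (t * A K J, -((b : ZMod q) * P ^ (K * J))) ∈ Sr q := by
    intro K J e1 e2 e3 e4
    have g1 := div_mem hq0 (h3 K J e1 e2 e3 e4)
    have g2 := (Sr q).sub_mem g1 ((Sr q).mul_mem (int_mem q b) (hpow (K * J)))
    have e : ((t * A K J, -((b : ZMod q) * P ^ (K * J))) : ℚ × ZMod q) =
        (t * A K J + (b : ℚ) * (p : ℚ) ^ (K * J), 0) -
          ((b : ℚ), (b : ZMod q)) * ((p : ℚ) ^ (K * J), P ^ (K * J)) := by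
      apply Prod.ext
      · show t * A K J = t * A K J + (b : ℚ) * (p : ℚ) ^ (K * J) - (b : ℚ) * (p : ℚ) ^ (K * J)
        ring
      · show -((b : ZMod q) * P ^ (K * J)) = 0 - (b : ZMod q) * P ^ (K * J)
        ring
    rw [e]
    exact g2
  have ht0 : t ≠ 0 := by
    intro h0
    have g := h3' T 1 le_rfl (by omega) le_rfl (by omega)
    rw [h0, zero_mul] at g
    have := uniq g (zero_mem (Sr q))
    rw [neg_eq_zero] at this
    exact mul_ne_zero hb0 (pow_ne_zero _ hP0) this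
  intro hdet
  obtain ⟨w, hw0, hw⟩ := Matrix.exists_vecMul_eq_zero_iff.2 hdet
  -- the relations
  have hrel : ∀ J : ℕ, 1 ≤ J → J < 2 * T → ∑ k : Fin (2 * T - 1), w k * A (k : ℕ) J = 0 := by
    intro J hJ1 hJ2
    have hj : J - 1 < 2 * T - 1 := by omega
    have := congrFun hw ⟨J - 1, hj⟩
    simp only [Matrix.vecMul, dotProduct, Matrix.of_apply, Pi.zero_apply] at this
    rw [Nat.sub_add_cancel hJ1] at this
    exact this
  have hN : T + (T - 1) = 2 * T - 1 := by omega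
  let e : Fin T ⊕ Fin (T - 1) ≃ Fin (2 * T - 1) := finSumFinEquiv.trans (finCongr hN)
  have el : ∀ i : Fin T, ((e (Sum.inl i) : Fin (2 * T - 1)) : ℕ) = i := by
    intro i
    simp [e]
  have er : ∀ i : Fin (T - 1), ((e (Sum.inr i) : Fin (2 * T - 1)) : ℕ) = T + i := by
    intro i
    simp [e]
  let sc : Fin T ⊕ Fin (T - 1) → ℚ := Sum.elim (fun _ => 1) (fun _ => t)
  have hsc : ∀ s, sc s ≠ 0 := by
    rintro (i | i)
    · simp [sc]
    · simp [sc, ht0]
  let col : Fin T ⊕ Fin (T - 1) → ℕ → ℚ := Sum.elim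
    (fun j K => C * A K (T + (j : ℕ))) (fun j K => A K ((j : ℕ) + 1))
  let B : Matrix (Fin T ⊕ Fin (T - 1)) (Fin T ⊕ Fin (T - 1)) ℚ :=
    Matrix.of fun s c => sc s * col c (e s : ℕ)
  have hf : ∀ (i : Fin T) (j : Fin (T - 1)), ∃ z : ZMod q, (A (i : ℕ) ((j : ℕ) + 1), z) ∈ Sr q := by
    intro i j
    have := j.isLt
    exact ex_red (h1 _ _ i.isLt (by omega) (by omega))
  choose f hf using hf
  let G : Matrix (Fin T ⊕ Fin (T - 1)) (Fin T ⊕ Fin (T - 1)) (ZMod q) :=
    Matrix.fromBlocks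
      (Matrix.of fun i j : Fin T =>
        (-1 : ZMod q) * Matrix.vandermonde (fun i : Fin T => P ^ (0 + (i : ℕ))) i j)
      (Matrix.of f)
      0
      (Matrix.of fun i j : Fin (T - 1) =>
        (-((b : ZMod q) * P ^ (T + (i : ℕ)))) *
          Matrix.vandermonde (fun i : Fin (T - 1) => P ^ (T + (i : ℕ))) i j)
  have hG : G.det ≠ 0 := by
    rw [Matrix.det_fromBlocks_zero₂₁]
    refine mul_ne_zero ?_ ?_
    · exact det_block hP0 hord' 0 T le_rfl (fun _ => -1) (fun _ => neg_ne_zero.2 one_ne_zero)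
    · exact det_block hP0 hord' T (T - 1) (by omega) (fun i => -((b : ZMod q) * P ^ (T + (i : ℕ))))
        (fun i => neg_ne_zero.2 (mul_ne_zero hb0 (pow_ne_zero _ hP0)))
  have hBG : ∀ s c, (B s c, G s c) ∈ Sr q := by
    rintro (i | i) (j | j)
    · have hi := i.isLt
      have hj := j.isLt
      have eB : B (Sum.inl i) (Sum.inl j) = C * A (i : ℕ) (T + (j : ℕ)) := by
        simp only [B, sc, col, Matrix.of_apply, Sum.elim_inl, el]
        ring
      have eG : G (Sum.inl i) (Sum.inl j) = -(P ^ ((i : ℕ) * (T + (j : ℕ) - T))) := by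
        simp only [G, Matrix.fromBlocks_apply₁₁, Matrix.of_apply, Matrix.vandermonde_apply]
        rw [← pow_mul, Nat.add_sub_cancel_left, zero_add, neg_one_mul]
      rw [eB, eG]
      exact h2' _ _ hi (by omega) (by omega)
    · have hi := i.isLt
      have hj := j.isLt
      have eB : B (Sum.inl i) (Sum.inr j) = A (i : ℕ) ((j : ℕ) + 1) := by
        simp only [B, sc, col, Matrix.of_apply, Sum.elim_inl, Sum.elim_inr, el]
        ring
      have eG : G (Sum.inl i) (Sum.inr j) = f i j := by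
        simp only [G, Matrix.fromBlocks_apply₁₂, Matrix.of_apply]
      rw [eB, eG]
      exact hf i j
    · have hi := i.isLt
      have hj := j.isLt
      have eG : G (Sum.inr i) (Sum.inl j) = 0 := by
        simp only [G, Matrix.fromBlocks_apply₂₁, Matrix.zero_apply]
      have eB : B (Sum.inr i) (Sum.inl j) = C * (t * A (T + i) (T + (j : ℕ))) := by
        simp only [B, sc, col, Matrix.of_apply, Sum.elim_inl, Sum.elim_inr, er]
        ring
      rw [eB, eG]
      exact div_mem hq0 (h4 _ _ (by omega) (by omega) (by omega) (by omega))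
    · have hi := i.isLt
      have hj := j.isLt
      have eB : B (Sum.inr i) (Sum.inr j) = t * A (T + i) ((j : ℕ) + 1) := by
        simp only [B, sc, col, Matrix.of_apply, Sum.elim_inr, er]
      have eG : G (Sum.inr i) (Sum.inr j) =
          -((b : ZMod q) * P ^ ((T + (i : ℕ)) * ((j : ℕ) + 1))) := by
        simp only [G, Matrix.fromBlocks_apply₂₂, Matrix.of_apply, Matrix.vandermonde_apply]
        rw [← pow_mul, mul_add_one (T + (i : ℕ)), pow_add]
        ring
      rw [eB, eG]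
      exact h3' _ _ (by omega) (by omega) (by omega) (by omega)
  have hB : B.det ≠ 0 := red_det B G hBG hG
  apply hB
  refine Matrix.exists_vecMul_eq_zero_iff.1 ⟨fun s => w (e s) / sc s, ?_, ?_⟩
  · intro h0
    apply hw0
    funext k
    have := congrFun h0 (e.symm k)
    simp only [Equiv.apply_symm_apply, Pi.zero_apply, div_eq_zero_iff, hsc, or_false] at this
    exact this
  · have key : ∀ J : ℕ, 1 ≤ J → J < 2 * T →
        ∑ s : Fin T ⊕ Fin (T - 1), w (e s) * A (e s : ℕ) J = 0 := by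
      intro J hJ1 hJ2
      rw [← hrel J hJ1 hJ2]
      exact Equiv.sum_comp e (fun k : Fin (2 * T - 1) => w k * A (k : ℕ) J)
    funext c
    simp only [Matrix.vecMul, dotProduct, Pi.zero_apply]
    have e1 : ∀ s, w (e s) / sc s * B s c = w (e s) * col c (e s : ℕ) := by
      intro s
      simp only [B, Matrix.of_apply]
      rw [← mul_assoc, div_mul_cancel₀ _ (hsc s)]
    rw [Finset.sum_congr rfl fun s _ => e1 s]
    rcases c with j | j
    · have hj := j.isLt
      simp only [col, Sum.elim_inl]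
      have e2 : ∀ s, w (e s) * (C * A (e s : ℕ) (T + (j : ℕ))) =
          C * (w (e s) * A (e s : ℕ) (T + (j : ℕ))) := by
        intro s
        ring
      rw [Finset.sum_congr rfl fun s _ => e2 s, ← Finset.mul_sum, key _ (by omega) (by omega),
        mul_zero]
    · have hj := j.isLt
      simp only [col, Sum.elim_inr]
      exact key _ (by omega) (by omega)

end Pool.Agent.H410.QL
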