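import Pool.Agent.H410.QL.Stm

/-! Task PAD: the `p`-adic gain. -/

set_option autoImplicit false

namespace Pool.Agent.H410.QL

open Finset Polynomial
open Pool.Agent.H410.NQ (ph PP Om vv rr)
open Pool.Agent.H475.QZ (RpS int_mem_RpS inv_mem_RpS)

namespace P_PAD

theorem pow_sub_ne {p : ℤ} (hp : 2 ≤ |p|) {e : ℕ} (he : 1 ≤ e) : p ^ e - 1 ≠ 0 := by
  intro h
  have h1 : p ^ (e - 1) * p = 1 := by
    rw [← pow_succ, Nat.sub_add_cancel he]
    linarith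
  have h2 : IsUnit p := IsUnit.of_mul_eq_one _ (by rw [mul_comm]; exact h1)
  rcases Int.isUnit_iff.1 h2 with h3 | h3 <;> rw [h3] at hp <;> norm_num at hp

theorem pow_sub_coprime {p : ℤ} {e : ℕ} (he : 1 ≤ e) : IsCoprime (p ^ e - 1) p := by
  refine ⟨-1, p ^ (e - 1), ?_⟩
  rw [← pow_succ, Nat.sub_add_cancel he]
  ring

theorem inv_mem {p : ℤ} (hp : 2 ≤ |p|) {e : ℕ} (he : 1 ≤ e) :
    1 / ((p : ℚ) ^ e - 1) ∈ RpS p := by
  have h1 := inv_mem_RpS (pow_sub_coprime (p := p) he) (pow_sub_ne hp he)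
  have h2 : 1 / ((p : ℚ) ^ e - 1) = (((p ^ e - 1 : ℤ) : ℚ))⁻¹ := by
    push_cast
    rw [one_div]
  rw [h2]
  exact h1

theorem cq_mem {p : ℤ} (hp : 2 ≤ |p|) (w : Fin 3 → ℤ) {e : ℕ} (he : 1 ≤ e) :
    cq p w e ∈ RpS p := by
  unfold cq
  rw [div_eq_mul_one_div]
  exact mul_mem (int_mem_RpS p _) (inv_mem hp he)

/-- the sum of `ω_k p^(k m)` -/
theorem sum_eval (p : ℤ) (F : Polynomial ℤ) (N m : ℕ) (h : F.natDegree < N) :
    ∑ k ∈ range N, ((F.coeff k : ℤ) : ℚ) * (p : ℚ) ^ (k * m) = ((F.eval (p ^ m) : ℤ) : ℚ) := by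
  rw [Polynomial.eval_eq_sum_range' h]
  push_cast
  refine sum_congr rfl fun k _ => ?_
  rw [← pow_mul, mul_comm m k]

/-- an integer divisible by `p ^ v`, divided by `p ^ v` -/
theorem div_mem {p : ℤ} (hp : 2 ≤ |p|) {v : ℕ} {a : ℤ} (h : p ^ v ∣ a) :
    ((a : ℤ) : ℚ) / (p : ℚ) ^ v ∈ RpS p := by
  obtain ⟨c, rfl⟩ := h
  have hp0 : (p : ℚ) ≠ 0 := by
    intro h0
    have : p = 0 := by exact_mod_cast h0
    rw [this] at hp
    norm_num at hp
  have h1 : (((p ^ v * c : ℤ)) : ℚ) / (p : ℚ) ^ v = (c : ℚ) := by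
    push_cast
    field_simp
  rw [h1]
  exact int_mem_RpS p c

/-- the entries of the transformed matrix -/
theorem entry (hMON : Pool.Agent.H410.NQ.S_MON) (hOM : Pool.Agent.H410.NQ.S_OM) (hHP : S_HP)
    (p : ℤ) (hp : 2 ≤ |p|) (w : Fin 3 → ℤ) (s : ℤ) (N r : ℕ) (hr : r < N) (J : ℕ) :
    1 / (p : ℚ) ^ vv r *
        ∑ k ∈ range N, (((Om p r).coeff k : ℤ) : ℚ) * Aq p w s k J ∈ RpS p := by
  have hdeg : (Om p r).natDegree = r := ((hMON p).2 r).2
  have hdN : (Om p r).natDegree < N := by omega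
  set S1 : ℚ := ∑ k ∈ range N, (((Om p r).coeff k : ℤ) : ℚ) * (p : ℚ) ^ (k * J) with hS1
  set S2 : ℚ := ∑ k ∈ range N, (((Om p r).coeff k : ℤ) : ℚ) * (p : ℚ) ^ (k * J) * hq p w k
    with hS2
  set S3 : ℚ := ∑ k ∈ range N, (((Om p r).coeff k : ℤ) : ℚ) *
    ∑ e ∈ Icc 1 J, (p : ℚ) ^ (k * (J - e)) * cq p w e with hS3
  have e1 : S1 / (p : ℚ) ^ vv r ∈ RpS p := by
    rw [hS1, sum_eval p _ N J hdN]
    exact div_mem hp (hOM p r J).1
  have e2 : S2 / (p : ℚ) ^ vv r ∈ RpS p := by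
    have h1 : S2 = ∑ k ∈ range (r + 1), (((Om p r).coeff k : ℤ) : ℚ) *
        (p : ℚ) ^ (k * J) * hq p w k := by
      rw [hS2]
      symm
      apply sum_subset
      · intro k hk
        rw [mem_range] at hk ⊢
        omega
      · intro k _ hk
        rw [mem_range, not_lt] at hk
        have : (Om p r).coeff k = 0 := Polynomial.coeff_eq_zero_of_natDegree_lt (by omega)
        rw [this]
        simp
    rw [h1]
    exact hHP p hp w r J
  have e3 : S3 / (p : ℚ) ^ vv r ∈ RpS p := by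
    have h1 : S3 = ∑ e ∈ Icc 1 J, (((Om p r).eval (p ^ (J - e)) : ℤ) : ℚ) * cq p w e := by
      rw [hS3]
      simp only [mul_sum]
      rw [sum_comm]
      refine sum_congr rfl fun e _ => ?_
      rw [← sum_eval p _ N (J - e) hdN, sum_mul]
      refine sum_congr rfl fun k _ => ?_
      ring
    rw [h1, sum_div]
    refine sum_mem fun e he => ?_
    have h2 : (((Om p r).eval (p ^ (J - e)) : ℤ) : ℚ) * cq p w e /
        (p : ℚ) ^ vv r = (((Om p r).eval (p ^ (J - e)) : ℤ) : ℚ) / (p : ℚ) ^ vv r *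
        cq p w e := by ring
    rw [h2]
    exact mul_mem (div_mem hp (hOM p r (J - e)).1) (cq_mem hp w (mem_Icc.1 he).1)
  have h1 : 1 / (p : ℚ) ^ vv r *
      ∑ k ∈ range N, (((Om p r).coeff k : ℤ) : ℚ) * Aq p w s k J =
      S1 / (p : ℚ) ^ vv r * (s : ℚ) - S2 / (p : ℚ) ^ vv r - S3 / (p : ℚ) ^ vv r := by
    have h2 : ∑ k ∈ range N, (((Om p r).coeff k : ℤ) : ℚ) * Aq p w s k J =
        S1 * (s : ℚ) - S2 - S3 := by
      rw [hS1, hS2, hS3, sum_mul, ← sum_sub_distrib, ← sum_sub_distrib]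
      refine sum_congr rfl fun k _ => ?_
      unfold Aq
      ring
    rw [h2]
    ring
  rw [h1]
  exact sub_mem (sub_mem (mul_mem e1 (int_mem_RpS p s)) e2) e3

theorem det_mem {N : ℕ} (R : Subring ℚ) (A : Matrix (Fin N) (Fin N) ℚ)
    (h : ∀ i j, A i j ∈ R) : A.det ∈ R := by
  rw [Matrix.det_apply]
  refine sum_mem fun σ _ => ?_
  rw [Units.smul_def]
  exact zsmul_mem (prod_mem fun i _ => h _ _) _

end P_PAD

open P_PAD

theorem t_PAD (hTR : S_TR) (hMON : Pool.Agent.H410.NQ.S_MON) (hOM : Pool.Agent.H410.NQ.S_OM)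
    (hHP : S_HP) : S_PAD := by
  intro p hp w s N
  have key : (MQ p w s N).det / (p : ℚ) ^ (∑ r ∈ range N, vv r) =
      (Matrix.of fun i j : Fin N => 1 / (p : ℚ) ^ vv (i : ℕ) *
        ∑ k ∈ range N, (((Om p (i : ℕ)).coeff k : ℤ) : ℚ) * Aq p w s k ((j : ℕ) + 1)).det := by
    have h1 := (hTR N (MQ p w s N) (Om p) (hMON p).2).1
    have h2 := Matrix.det_mul_column (fun i : Fin N => 1 / (p : ℚ) ^ vv (i : ℕ))
      (Matrix.of fun i j : Fin N => ∑ k : Fin N, (((Om p (i : ℕ)).coeff k : ℤ) : ℚ) *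
        MQ p w s N k j)
    have h3 : (Matrix.of fun i j : Fin N => 1 / (p : ℚ) ^ vv (i : ℕ) *
        ∑ k ∈ range N, (((Om p (i : ℕ)).coeff k : ℤ) : ℚ) * Aq p w s k ((j : ℕ) + 1)) =
        Matrix.of fun i j : Fin N => 1 / (p : ℚ) ^ vv (i : ℕ) *
          (Matrix.of fun i j : Fin N => ∑ k : Fin N, (((Om p (i : ℕ)).coeff k : ℤ) : ℚ) *
            MQ p w s N k j) i j := by
      ext i j
      simp only [Matrix.of_apply, MQ]
      rw [Finset.sum_range]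
    rw [h3, h2, h1]
    have h4 : ∏ i : Fin N, 1 / (p : ℚ) ^ vv (i : ℕ) =
        1 / (p : ℚ) ^ (∑ r ∈ range N, vv r) := by
      rw [Finset.prod_div_distrib, Finset.prod_const_one, ← Finset.prod_pow_eq_pow_sum,
        Finset.prod_range]
    rw [h4]
    ring
  rw [key]
  refine det_mem (RpS p) _ fun i j => ?_
  exact entry hMON hOM hHP p hp w s N (i : ℕ) i.2 ((j : ℕ) + 1)

end Pool.Agent.H410.QL
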