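import Pool.Agent.H410.QL.Stm

set_option autoImplicit false

/-! Project QL, part RD (helper169). -/

namespace Pool.Agent.H410.QL

open Finset

namespace P_RD

theorem conv (f : ℕ → ℤ) (a b M k : ℕ) (hb : b ≤ M) :
    ∏ d ∈ Ioc a b, f d ^ k = ∏ d ∈ Icc 1 M, f d ^ (if a < d ∧ d ≤ b then k else 0) := by
  have h1 : ∀ d ∈ Icc 1 M, f d ^ (if a < d ∧ d ≤ b then k else 0) =
      if a < d ∧ d ≤ b then f d ^ k else 1 := by
    intro d _
    split_ifs
    · rfl
    · exact pow_zero _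
  rw [prod_congr rfl h1, ← prod_filter]
  refine prod_congr ?_ fun d _ => rfl
  ext d
  rw [mem_filter, mem_Ioc, mem_Icc]
  omega

theorem conv1 (f : ℕ → ℤ) (a b M : ℕ) (hb : b ≤ M) :
    ∏ d ∈ Ioc a b, f d = ∏ d ∈ Icc 1 M, f d ^ (if a < d ∧ d ≤ b then 1 else 0) := by
  rw [← conv f a b M 1 hb]
  exact prod_congr rfl fun d _ => (pow_one _).symm

theorem icc_ioc (n : ℕ) : Icc 1 n = Ioc 0 n := by
  ext d
  rw [mem_Icc, mem_Ioc]
  omega

theorem rhs (p : ℤ) (n i j M : ℕ) (hM : M = n + i + j + 1) :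
    Rr p n i * Rc p n j = ∏ d ∈ Icc 1 M, NQ.ph p d ^
      ((if 0 < d ∧ d ≤ n then 1 else 0) + (if 0 < d ∧ d ≤ min i n then 1 else 0) +
        (if n < d ∧ d ≤ i then 3 else 0) +
        ((if j < d ∧ d ≤ n then 1 else 0) + (if n < d ∧ d ≤ j + 1 then 1 else 0))) := by
  unfold Rr Rc NQ.rr
  rw [icc_ioc n, icc_ioc (min i n), conv1 (NQ.ph p) 0 n M (by omega),
    conv1 (NQ.ph p) 0 (min i n) M (by omega), conv (NQ.ph p) n i M 3 (by omega),
    conv1 (NQ.ph p) j n M (by omega), conv1 (NQ.ph p) n (j + 1) M (by omega),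
    ← prod_mul_distrib, ← prod_mul_distrib, ← prod_mul_distrib, ← prod_mul_distrib]
  refine prod_congr rfl fun d _ => ?_
  rw [← pow_add, ← pow_add, ← pow_add, ← pow_add]

end P_RD

theorem t_RD : S_RD := by
  intro p n i j
  obtain ⟨M, hM⟩ : ∃ M, M = n + i + j + 1 := ⟨_, rfl⟩
  rw [P_RD.rhs p n i j M hM]
  constructor
  · rw [← prod_pow, ← prod_pow, P_RD.icc_ioc (min i j),
      P_RD.conv (NQ.ph p) j i M 3 (by omega), P_RD.conv (NQ.ph p) 0 (min i j) M 2 (by omega),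
      ← prod_mul_distrib]
    refine prod_dvd_prod_of_dvd _ _ fun d hd => ?_
    rw [← pow_add]
    refine pow_dvd_pow _ ?_
    rw [mem_Icc] at hd
    split_ifs <;> omega
  · rw [P_RD.conv1 (NQ.ph p) i (j + 1) M (by omega)]
    refine prod_dvd_prod_of_dvd _ _ fun d hd => ?_
    refine pow_dvd_pow _ ?_
    rw [mem_Icc] at hd
    split_ifs <;> omega

end Pool.Agent.H410.QL
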