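import Pool.Agent.H410.QL.Stm

namespace Pool.Agent.H410.QL

open Finset

namespace P_T2

theorem phi_split (n k : ℕ) : Phi (n + k) = Phi n + ∑ d ∈ Ioc n (n + k), Nat.totient d := by
  induction k with
  | zero => simp
  | succ k ih =>
    have h1 : Phi (n + (k + 1)) = Phi (n + k) + Nat.totient (n + k + 1) := by
      unfold Phi
      rw [show n + (k + 1) = n + k + 1 by omega, Finset.sum_Icc_succ_top (by omega)]
    rw [h1, ih, show n + (k + 1) = n + k + 1 by omega,
      Finset.sum_Ioc_succ_top (by omega : n ≤ n + k)]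
    omega

theorem weight (n k : ℕ) : (∑ d ∈ Ioc n (n + k), (n + k - d) * Nat.totient d) + k * Phi n =
    ∑ m ∈ range k, Phi (n + m) := by
  induction k with
  | zero => simp
  | succ k ih =>
    have h1 : ∑ d ∈ Ioc n (n + (k + 1)), (n + (k + 1) - d) * Nat.totient d =
        (∑ d ∈ Ioc n (n + k), (n + k - d) * Nat.totient d) +
          ∑ d ∈ Ioc n (n + k), Nat.totient d := by
      rw [show n + (k + 1) = n + k + 1 by omega, Finset.sum_Ioc_succ_top (by omega : n ≤ n + k),
        Nat.sub_self, zero_mul, add_zero, ← Finset.sum_add_distrib]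
      refine Finset.sum_congr rfl fun d hd => ?_
      rw [Finset.mem_Ioc] at hd
      rw [show n + k + 1 - d = (n + k - d) + 1 by omega, add_mul, one_mul]
    rw [Finset.sum_range_succ, ← ih, h1, phi_split n k]
    ring

theorem psi_eq (n : ℕ) : Psi n + 3 * Phi n =
    4 * (∑ m ∈ range (n + 1), Phi (n + m)) + Phi (2 * n + 1) := by
  have h1 := weight n (n + 1)
  have h2 := phi_split n (n + 1)
  have e : n + (n + 1) = 2 * n + 1 := by omega
  rw [e] at h1 h2
  have h3 : Psi n = (4 * n + 2) * Phi n +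
      (4 * (∑ d ∈ Ioc n (2 * n + 1), (2 * n + 1 - d) * Nat.totient d) +
        ∑ d ∈ Ioc n (2 * n + 1), Nat.totient d) := by
    unfold Psi Phi
    rw [Finset.mul_sum, Finset.mul_sum, ← Finset.sum_add_distrib]
    congr 1
    refine Finset.sum_congr rfl fun d _ => ?_
    ring
  rw [← h1, h2, h3]
  ring

theorem sq_sum (n j : ℕ) : 6 * ∑ m ∈ range (j + 1), (n + m) ^ 2 =
    6 * (j + 1) * n ^ 2 + 6 * n * (j * (j + 1)) + j * (j + 1) * (2 * j + 1) := by
  induction j with
  | zero => simp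
  | succ j ih =>
    rw [Finset.sum_range_succ, mul_add, ih]
    ring

theorem lin_sum (n j : ℕ) : 2 * ∑ m ∈ range (j + 1), (n + m) =
    2 * (j + 1) * n + j * (j + 1) := by
  induction j with
  | zero => simp
  | succ j ih =>
    rw [Finset.sum_range_succ, mul_add, ih]
    ring

end P_T2

open P_T2 in
theorem t_T2 (hTT : S_TT) : S_T2 := by
  obtain ⟨C, hC⟩ := hTT
  refine ⟨182428 + 45 * C, fun n hn => ?_⟩
  have h1 : 10000 * ∑ m ∈ range (n + 1), Phi (n + m) ≤
      3092 * (∑ m ∈ range (n + 1), (n + m) ^ 2) + C * ∑ m ∈ range (n + 1), (n + m) := by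
    rw [Finset.mul_sum, Finset.mul_sum, Finset.mul_sum, ← Finset.sum_add_distrib]
    exact Finset.sum_le_sum fun m _ => hC (n + m)
  have h2 := hC (2 * n + 1)
  have h3 := psi_eq n
  have h4 := sq_sum n n
  have h5 := lin_sum n n
  set P := ∑ m ∈ range (n + 1), Phi (n + m) with hP
  set Q := ∑ m ∈ range (n + 1), (n + m) ^ 2 with hQ
  set L := ∑ m ∈ range (n + 1), (n + m) with hL
  have h6 : 30000 * Psi n ≤ 2 * 3092 * (6 * Q) + 6 * C * (2 * L) +
      3 * (3092 * (2 * n + 1) ^ 2 + C * (2 * n + 1)) := by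
    have h7 : 30000 * Psi n ≤ 12 * (10000 * P) + 3 * (10000 * Phi (2 * n + 1)) := by omega
    have h8 : 12 * (10000 * P) ≤ 12 * (3092 * Q + C * L) := Nat.mul_le_mul_left _ h1
    have h9 : 3 * (10000 * Phi (2 * n + 1)) ≤ 3 * (3092 * (2 * n + 1) ^ 2 + C * (2 * n + 1)) :=
      Nat.mul_le_mul_left _ h2
    calc 30000 * Psi n ≤ _ := h7
      _ ≤ 12 * (3092 * Q + C * L) + 3 * (3092 * (2 * n + 1) ^ 2 + C * (2 * n + 1)) :=
        Nat.add_le_add h8 h9
      _ = _ := by ring
  rw [h4, h5] at h6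
  refine h6.trans ?_
  obtain ⟨k, rfl⟩ : ∃ k, n = k + 1 := ⟨n - 1, by omega⟩
  have h10 : 0 ≤ C * k ^ 2 := Nat.zero_le _
  ring_nf
  nlinarith [Nat.zero_le (C * k), Nat.zero_le (C * k ^ 2), Nat.zero_le k, Nat.zero_le (k ^ 2),
    Nat.zero_le C]

end Pool.Agent.H410.QL
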