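import Pool.Agent.H410.QL.Stm

/-!
S_TR of the project QL
-/

set_option autoImplicit false

namespace Pool.Agent.H410.QL

open Finset Polynomial

namespace P_TR

/-- the matrix of the coefficients -/
def CoM (N : ℕ) (F : ℕ → Polynomial ℤ) : Matrix (Fin N) (Fin N) ℚ :=
  Matrix.of fun i k : Fin N => (((F i).coeff k : ℤ) : ℚ)

theorem detL (N : ℕ) (F : ℕ → Polynomial ℤ) (h : ∀ i, (F i).Monic ∧ (F i).natDegree = i) :
    (CoM N F).det = 1 := by
  rw [Matrix.det_of_lowerTriangular]
  · refine Finset.prod_eq_one fun i _ => ?_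
    show (((F i).coeff i : ℤ) : ℚ) = 1
    have h1 : (F i).coeff ((i : ℕ)) = 1 := by
      have h2 : (F i).coeff (F i).natDegree = 1 := (h i).1
      rwa [(h i).2] at h2
    rw [h1]
    exact Int.cast_one
  · intro i j hij
    show (((F i).coeff j : ℤ) : ℚ) = 0
    have hlt : (i : ℕ) < (j : ℕ) := hij
    rw [Polynomial.coeff_eq_zero_of_natDegree_lt (by rw [(h i).2]; exact hlt)]
    exact Int.cast_zero

end P_TR

open P_TR in
theorem t_TR : S_TR := by
  intro N A F h
  have hd := detL N F h
  constructor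
  · have e : (Matrix.of fun i j : Fin N => ∑ k : Fin N, (((F i).coeff k : ℤ) : ℚ) * A k j) =
        CoM N F * A := by
      ext i j
      rw [Matrix.mul_apply]
      rfl
    rw [e, Matrix.det_mul, hd, one_mul]
  · have e : (Matrix.of fun i j : Fin N => ∑ k : Fin N, ∑ l : Fin N,
        (((F i).coeff k : ℤ) : ℚ) * A k l * (((F j).coeff l : ℤ) : ℚ)) =
        CoM N F * A * (CoM N F).transpose := by
      ext i j
      rw [Matrix.mul_apply]
      simp only [Matrix.mul_apply, Matrix.of_apply, Finset.sum_mul, Matrix.transpose_apply, CoM]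
      rw [Finset.sum_comm]
    rw [e, Matrix.det_mul, Matrix.det_mul, Matrix.det_transpose, hd, one_mul, mul_one]

end Pool.Agent.H410.QL
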