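import Pool.Agent.H410.QL.Stm

/-!
Pairs without a common divisor in a set of primes (`S_TS`).
-/

namespace Pool.Agent.H410.QL

namespace P_TS

open Finset

/-- the set of pairs counted by `FS` -/
def PS (S : Finset ℕ) (m : ℕ) : Finset (ℕ × ℕ) :=
  ((Icc 1 m) ×ˢ (Icc 1 m)).filter fun x => x.1 ≤ x.2 ∧ ∀ q ∈ S, ¬ (q ∣ x.1 ∧ q ∣ x.2)

theorem mem_PS {S : Finset ℕ} {m : ℕ} {x : ℕ × ℕ} : x ∈ PS S m ↔
    ((1 ≤ x.1 ∧ x.1 ≤ m) ∧ (1 ≤ x.2 ∧ x.2 ≤ m)) ∧ x.1 ≤ x.2 ∧ ∀ q ∈ S, ¬ (q ∣ x.1 ∧ q ∣ x.2) := by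
  simp only [PS, mem_filter, mem_product, mem_Icc]

theorem step (S : Finset ℕ) (hS : ∀ q ∈ S, q.Prime) (q : ℕ) (hq : q.Prime) (hqS : q ∉ S)
    (m : ℕ) : FS (insert q S) m + FS S (m / q) = FS S m := by
  have e1 : (PS S m).filter (fun x => q ∣ x.1 ∧ q ∣ x.2) =
      (PS S (m / q)).image (fun x => (q * x.1, q * x.2)) := by
    ext x
    obtain ⟨a, d⟩ := x
    rw [mem_filter, mem_image]
    constructor
    · rintro ⟨h, ⟨a', ha⟩, ⟨d', hd⟩⟩
      rw [mem_PS] at h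
      simp only at h ha hd
      subst ha hd
      obtain ⟨⟨⟨h1, h2⟩, h3, h4⟩, h5, h6⟩ := h
      refine ⟨(a', d'), ?_, rfl⟩
      rw [mem_PS]
      refine ⟨⟨⟨?_, ?_⟩, ?_, ?_⟩, ?_, ?_⟩
      · rcases Nat.eq_zero_or_pos a' with h0 | h0
        · subst h0; simp at h1
        · exact h0
      · rw [Nat.le_div_iff_mul_le hq.pos]; simpa [mul_comm] using h2
      · rcases Nat.eq_zero_or_pos d' with h0 | h0
        · subst h0; simp at h3
        · exact h0
      · rw [Nat.le_div_iff_mul_le hq.pos]; simpa [mul_comm] using h4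
      · exact Nat.le_of_mul_le_mul_left h5 hq.pos
      · intro r hr hc
        exact h6 r hr ⟨hc.1.mul_left q, hc.2.mul_left q⟩
    · rintro ⟨⟨a', d'⟩, h, he⟩
      rw [Prod.mk.injEq] at he
      obtain ⟨ha, hd⟩ := he
      simp only at ha hd
      subst ha hd
      rw [mem_PS] at h
      obtain ⟨⟨⟨h1, h2⟩, h3, h4⟩, h5, h6⟩ := h
      simp only at h1 h2 h3 h4 h5 h6
      rw [Nat.le_div_iff_mul_le hq.pos] at h2 h4
      refine ⟨?_, Dvd.intro _ rfl, Dvd.intro _ rfl⟩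
      rw [mem_PS]
      refine ⟨⟨⟨Nat.mul_pos hq.pos h1, by simpa [mul_comm] using h2⟩,
        Nat.mul_pos hq.pos h3, by simpa [mul_comm] using h4⟩, Nat.mul_le_mul_left q h5, ?_⟩
      intro r hr hc
      have hrq : ¬ r ∣ q := by
        intro h
        exact hqS (((Nat.prime_dvd_prime_iff_eq (hS r hr) hq).1 h) ▸ hr)
      refine h6 r hr ⟨?_, ?_⟩
      · exact ((hS r hr).dvd_mul.1 hc.1).resolve_left hrq
      · exact ((hS r hr).dvd_mul.1 hc.2).resolve_left hrq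
  have e2 : (PS S m).filter (fun x => ¬ (q ∣ x.1 ∧ q ∣ x.2)) = PS (insert q S) m := by
    ext x
    rw [mem_filter, mem_PS, mem_PS]
    constructor
    · rintro ⟨⟨h1, h2, h3⟩, h4⟩
      refine ⟨h1, h2, fun r hr => ?_⟩
      rcases mem_insert.1 hr with rfl | hr
      · exact h4
      · exact h3 r hr
    · rintro ⟨h1, h2, h3⟩
      exact ⟨⟨h1, h2, fun r hr => h3 r (mem_insert_of_mem hr)⟩, h3 q (mem_insert_self q S)⟩
  have e3 : ((PS S (m / q)).image (fun x => (q * x.1, q * x.2))).card = (PS S (m / q)).card := by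
    apply card_image_of_injective
    rintro ⟨a, b⟩ ⟨c, d⟩ h
    rw [Prod.mk.injEq] at h
    obtain ⟨h1, h2⟩ := h
    simp only at h1 h2
    rw [Nat.eq_of_mul_eq_mul_left hq.pos h1, Nat.eq_of_mul_eq_mul_left hq.pos h2]
  have h := card_filter_add_card_filter_not (s := PS S m) (fun x => q ∣ x.1 ∧ q ∣ x.2)
  rw [e1, e2, e3] at h
  change (PS (insert q S) m).card + (PS S (m / q)).card = (PS S m).card
  omega

theorem base (m : ℕ) : 2 * FS ∅ m = m * (m + 1) := by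
  have h : FS ∅ m = ∑ d ∈ Icc 1 m, d := by
    have h1 : FS ∅ m = (PS ∅ m).card := rfl
    rw [h1]
    have h2 : PS ∅ m = (Icc 1 m).biUnion fun d => (Icc 1 d).image fun a => (a, d) := by
      ext x
      obtain ⟨a, d⟩ := x
      rw [mem_PS, mem_biUnion]
      constructor
      · rintro ⟨⟨⟨h1, h2⟩, h3, h4⟩, h5, -⟩
        exact ⟨d, mem_Icc.2 ⟨h3, h4⟩, mem_image.2 ⟨a, mem_Icc.2 ⟨h1, h5⟩, rfl⟩⟩
      · rintro ⟨e, he, h⟩
        obtain ⟨b, hb, hbe⟩ := mem_image.1 h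
        rw [Prod.mk.injEq] at hbe
        obtain ⟨rfl, rfl⟩ := hbe
        rw [mem_Icc] at he hb
        exact ⟨⟨⟨hb.1, hb.2.trans he.2⟩, he⟩, hb.2, fun q hq => absurd hq (notMem_empty q)⟩
    rw [h2, card_biUnion]
    · refine sum_congr rfl fun d _ => ?_
      rw [card_image_of_injective _ (fun a b h => (Prod.mk.inj h).1), Nat.card_Icc]
      omega
    · intro d _ e _ hde
      rw [Function.onFun, disjoint_left]
      intro x hx hy
      obtain ⟨a, -, rfl⟩ := mem_image.1 hx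
      obtain ⟨b, -, hb⟩ := mem_image.1 hy
      exact hde (Prod.mk.inj hb).2.symm
  rw [h]
  clear h
  induction m with
  | zero => simp
  | succ m ih =>
    rw [sum_Icc_succ_top (by omega), mul_add, ih]
    ring

end P_TS

open Finset in
theorem t_TS : S_TS := by
  intro S
  induction S using Finset.induction_on with
  | empty =>
    intro _
    refine ⟨1, fun m => ?_⟩
    have h := P_TS.base m
    have h' : (2 : ℝ) * (FS ∅ m : ℝ) = (m : ℝ) * ((m : ℝ) + 1) := by exact_mod_cast h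
    rw [prod_empty, abs_le]
    have hm : (0 : ℝ) ≤ (m : ℝ) := Nat.cast_nonneg m
    constructor <;> nlinarith
  | insert q S hqS ih =>
    intro hS
    have hq : q.Prime := hS q (mem_insert_self q S)
    have hS' : ∀ r ∈ S, r.Prime := fun r hr => hS r (mem_insert_of_mem hr)
    obtain ⟨C, hC⟩ := ih hS'
    set k : ℝ := (∏ q ∈ S, (1 - 1 / (q : ℝ) ^ 2)) / 2 with hk
    have hC0 : 0 ≤ C := by
      have := (abs_nonneg _).trans (hC 0)
      simpa using this
    refine ⟨2 * C + 2 * |k|, fun m => ?_⟩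
    have hst := P_TS.step S hS' q hq hqS m
    have hst' : (FS (insert q S) m : ℝ) = (FS S m : ℝ) - (FS S (m / q) : ℝ) := by
      rw [← hst]; push_cast; ring
    have hq0 : (0 : ℝ) < (q : ℝ) := by exact_mod_cast hq.pos
    have hq1 : (1 : ℝ) ≤ (q : ℝ) := by exact_mod_cast hq.one_lt.le
    have hm0 : (0 : ℝ) ≤ (m : ℝ) := Nat.cast_nonneg m
    set y : ℝ := ((m / q : ℕ) : ℝ) with hy
    set x : ℝ := (m : ℝ) / (q : ℝ) with hx
    have hy0 : 0 ≤ y := Nat.cast_nonneg _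
    have hyx : y ≤ x := Nat.cast_div_le
    have hxm : x ≤ m := div_le_self hm0 hq1
    have hxy : x ≤ y + 1 := by
      have h1 : m < q * (m / q + 1) := by
        have := Nat.lt_mul_div_succ m hq.pos
        simpa using this
      have h2 : (m : ℝ) < (q : ℝ) * (y + 1) := by
        rw [hy]; exact_mod_cast h1
      rw [hx, div_le_iff₀ hq0]
      linarith
    have e1 : (∏ r ∈ insert q S, (1 - 1 / (r : ℝ) ^ 2)) / 2 * (m : ℝ) ^ 2 =
        k * (m : ℝ) ^ 2 - k * x ^ 2 := by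
      rw [prod_insert hqS, hk, hx]
      field_simp
    rw [hst', e1]
    have h1 := hC m
    have h2 := hC (m / q)
    have h3 : |k * (x ^ 2 - y ^ 2)| ≤ |k| * (2 * (m : ℝ)) := by
      rw [abs_mul]
      refine mul_le_mul_of_nonneg_left ?_ (abs_nonneg k)
      rw [abs_of_nonneg (by nlinarith)]
      nlinarith
    have e2 : (FS S m : ℝ) - (FS S (m / q) : ℝ) - (k * (m : ℝ) ^ 2 - k * x ^ 2) =
        ((FS S m : ℝ) - k * (m : ℝ) ^ 2) - ((FS S (m / q) : ℝ) - k * y ^ 2) +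
          k * (x ^ 2 - y ^ 2) := by ring
    rw [e2]
    have h4 := abs_add_le (((FS S m : ℝ) - k * (m : ℝ) ^ 2) - ((FS S (m / q) : ℝ) - k * y ^ 2))
      (k * (x ^ 2 - y ^ 2))
    have h5 := abs_sub ((FS S m : ℝ) - k * (m : ℝ) ^ 2) ((FS S (m / q) : ℝ) - k * y ^ 2)
    have h6 : C * (y + 1) ≤ C * ((m : ℝ) + 1) :=
      mul_le_mul_of_nonneg_left (by linarith) hC0
    have h7 : |k| * (2 * (m : ℝ)) ≤ |k| * (2 * ((m : ℝ) + 1)) :=
      mul_le_mul_of_nonneg_left (by linarith) (abs_nonneg k)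
    have h8 : (2 * C + 2 * |k|) * ((m : ℝ) + 1) =
      C * ((m : ℝ) + 1) + C * ((m : ℝ) + 1) + |k| * (2 * ((m : ℝ) + 1)) := by ring
    rw [h8]
    linarith

end Pool.Agent.H410.QL
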