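import Pool.Agent.H410.QL.Stm

/-!
The sum of the values of the totient function is at most `0.3092 m^2 + C m` (helper87).
-/

set_option autoImplicit false

namespace Pool.Agent.H410.QL

open Finset

namespace P_TT

/-- `Φ(m)` counts the coprime pairs. -/
theorem phi_le (S : Finset ℕ) (hS : ∀ q ∈ S, q.Prime) (m : ℕ) : Phi m ≤ FS S m := by
  have h1 : Phi m = ((Icc 1 m).sigma fun d => (Ico 1 (1 + d)).filter fun a => d.Coprime a).card := by
    rw [Finset.card_sigma]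
    unfold Phi
    refine Finset.sum_congr rfl fun d _ => ?_
    rw [Nat.filter_coprime_Ico_eq_totient]
  rw [h1]
  unfold FS
  refine Finset.card_le_card_of_injOn (fun x => (x.2, x.1)) ?_ ?_
  · intro x hx
    rw [Finset.mem_coe, Finset.mem_sigma, Finset.mem_filter, Finset.mem_Icc, Finset.mem_Ico] at hx
    obtain ⟨⟨h2, h3⟩, ⟨h4, h5⟩, h6⟩ := hx
    rw [Finset.mem_coe, Finset.mem_filter, Finset.mem_product, Finset.mem_Icc, Finset.mem_Icc]
    refine ⟨⟨⟨h4, by show x.2 ≤ m; omega⟩, ⟨h2, h3⟩⟩, by show x.2 ≤ x.1; omega, ?_⟩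
    rintro q hq ⟨h7, h8⟩
    have h9 : q ∣ Nat.gcd x.1 x.2 := Nat.dvd_gcd h8 h7
    rw [Nat.Coprime] at h6
    rw [h6] at h9
    exact (hS q hq).one_lt.ne' (Nat.dvd_one.1 h9)
  · rintro ⟨d, a⟩ _ ⟨d', a'⟩ _ h
    have h2 : a = a' := congrArg Prod.fst h
    have h3 : d = d' := congrArg Prod.snd h
    rw [h2, h3]

end P_TT

theorem t_TT (hTS : S_TS) : S_TT := by
  obtain ⟨S, hS⟩ : ∃ S : Finset ℕ, S = {2, 3, 5, 7, 11, 13} := ⟨_, rfl⟩
  have hprime : ∀ q ∈ S, q.Prime := by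
    intro q hq
    rw [hS] at hq
    simp only [Finset.mem_insert, Finset.mem_singleton] at hq
    rcases hq with rfl | rfl | rfl | rfl | rfl | rfl <;> norm_num
  have hk : (∏ q ∈ S, (1 - 1 / (q : ℝ) ^ 2)) / 2 ≤ 3092 / 10000 := by
    rw [hS, Finset.prod_insert (by decide), Finset.prod_insert (by decide),
      Finset.prod_insert (by decide), Finset.prod_insert (by decide),
      Finset.prod_insert (by decide), Finset.prod_singleton]
    norm_num
  obtain ⟨C₁, hC₁⟩ := hTS S hprime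
  obtain ⟨C, hC⟩ := exists_nat_ge (20000 * |C₁|)
  refine ⟨C, fun m => ?_⟩
  rcases Nat.eq_zero_or_pos m with rfl | hm
  · unfold Phi
    rw [Finset.Icc_eq_empty (by omega), Finset.sum_empty]
    omega
  have hm1 : (1 : ℝ) ≤ m := by exact_mod_cast hm
  have h1 : (Phi m : ℝ) ≤ (FS S m : ℝ) := by exact_mod_cast P_TT.phi_le S hprime m
  have h2 := (abs_le.1 (hC₁ m)).2
  have h3 : (∏ q ∈ S, (1 - 1 / (q : ℝ) ^ 2)) / 2 * (m : ℝ) ^ 2 ≤ 3092 / 10000 * (m : ℝ) ^ 2 :=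
    mul_le_mul_of_nonneg_right hk (by positivity)
  have h4 : C₁ * ((m : ℝ) + 1) ≤ |C₁| * (2 * m) :=
    mul_le_mul (le_abs_self C₁) (by linarith) (by linarith) (abs_nonneg C₁)
  have h5 : 20000 * |C₁| * m ≤ (C : ℝ) * m := mul_le_mul_of_nonneg_right hC (by linarith)
  have h6 : (10000 : ℝ) * (Phi m : ℝ) ≤ 3092 * (m : ℝ) ^ 2 + C * m := by linarith
  exact_mod_cast h6

end Pool.Agent.H410.QL
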