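import Pool.Agent.H410.QL.Stm

/-! Task QL UP1. -/

namespace Pool.Agent.H410.QL

open Finset Polynomial
open Pool.Agent.H475.QZ hiding S_HLL S_VAN S_KB S_UP1 kap LL
open Pool.Agent.H410.FL (nw)

namespace P_UP1

theorem xx_abs {p : ℤ} (hp : 2 ≤ |p|) (t : ℕ) : |xx p t| ≤ (1 / 2) ^ t := by
  unfold xx
  rw [abs_inv, abs_pow, one_div, inv_pow]
  have h2 : (2 : ℝ) ≤ |(p : ℝ)| := by exact_mod_cast hp
  exact inv_anti₀ (by positivity) (pow_le_pow_left₀ (by norm_num) h2 t)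

theorem van (hVAN : QL.S_VAN) (hDVD : Pool.Agent.H475.QZ.S_DVD) (p : ℤ) (w : Fin 3 → ℝ)
    (N a a' c c' t : ℕ) (ht : 1 ≤ t) (h : t ≤ a ∨ t ≤ a') :
    QL.kap p w N t (FF p a c * FF p a' c') = 0 := by
  apply hVAN
  rcases h with h | h
  · exact (hDVD p a c t ht h).mul_right _
  · exact (hDVD p a' c' t ht h).mul_left _

end P_UP1

theorem t_UP1 (hHLL : QL.S_HLL) (hVAN : QL.S_VAN) (hKB : QL.S_KB)
    (hDVD : Pool.Agent.H475.QZ.S_DVD) (hDEG : Pool.Agent.H475.QZ.S_DEG) : QL.S_UP1 := by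
  intro p hp w N a a' c c' hc hc' h1 h2
  have e0 : (0 : ℝ) ≤ ea p a := by unfold ea; positivity
  have e0' : (0 : ℝ) ≤ ea p a' := by unfold ea; positivity
  have w0 : (0 : ℝ) ≤ ww p N := by unfold ww; positivity
  have C0 : (0 : ℝ) ≤ C3 := by unfold C3; positivity
  have n0 : (0 : ℝ) ≤ nw (wR w) := by unfold nw; positivity
  set K : ℝ := C3 * nw (wR w) * 9 * ea p a ^ 3 * ea p a' ^ 3 * ww p N with hK
  have K0 : 0 ≤ K := by rw [hK]; positivity
  have hs := hHLL p hp w N (FF p a c) (FF p a' c') (by rw [(hDEG p a c).2]; exact h1)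
    (by rw [(hDEG p a' c').2]; exact h2)
  have hg : HasSum (fun t : ℕ => K / 2 * (1 / 2 : ℝ) ^ t) (K / 2 * 2) :=
    hasSum_geometric_two.mul_left _
  have hb : ∀ t : ℕ, ‖QL.kap p (wR w) N (t + 1) (FF p a c * FF p a' c')‖ ≤
      K / 2 * (1 / 2 : ℝ) ^ t := by
    intro t
    by_cases ht : t + 1 ≤ a ∨ t + 1 ≤ a'
    · rw [P_UP1.van hVAN hDVD p (wR w) N a a' c c' (t + 1) (by omega) ht, norm_zero]
      positivity
    · rw [Real.norm_eq_abs]
      push Not at ht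
      refine (hKB p hp (wR w) N (t + 1) a a' c c' ht.1 ht.2 hc hc').trans ?_
      have b1 : |xx p (t + 1)| ≤ (1 / 2) ^ (t + 1) := P_UP1.xx_abs hp _
      calc C3 * nw (wR w) * 9 * |xx p (t + 1)| * ea p a ^ 3 * ea p a' ^ 3 * ww p N
          = K * |xx p (t + 1)| := by
            rw [hK]; ring
        _ ≤ K * (1 / 2) ^ (t + 1) := mul_le_mul_of_nonneg_left b1 K0
        _ = K / 2 * (1 / 2 : ℝ) ^ t := by rw [pow_succ]; ring
  have := hs.norm_le_of_bounded hg hb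
  rw [Real.norm_eq_abs] at this
  calc |QL.LL p w N (FF p a c) (FF p a' c')| ≤ K / 2 * 2 := this
    _ = K := by ring

end Pool.Agent.H410.QL
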