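import Pool.Agent.H410.QL.Stm

/-! Vanishing (`S_VAN`). -/

set_option autoImplicit false

namespace Pool.Agent.H410.QL

open Pool.Agent.H475.QZ (XX QQ xx)

theorem t_VAN : S_VAN := by
  intro p w N t F hF
  obtain ⟨G, rfl⟩ := hF
  have h0 : (PowerSeries.X : PowerSeries ℝ) ∣ XX p t - PowerSeries.C (xx p t) := by
    rw [PowerSeries.X_dvd_iff]
    unfold XX
    rw [map_sub, map_mul, PowerSeries.constantCoeff_C, PowerSeries.constantCoeff_exp, mul_one,
      sub_self]
  have h1 : (PowerSeries.X : PowerSeries ℝ) ^ 3 ∣ XX p t ^ 2 *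
      Polynomial.aeval (XX p t) ((Polynomial.X - Polynomial.C (xx p t)) ^ 3 * G) *
        (QQ p N t)⁻¹ := by
    rw [map_mul, map_pow, map_sub, Polynomial.aeval_X, Polynomial.aeval_C]
    exact Dvd.dvd.mul_right (Dvd.dvd.mul_left (Dvd.dvd.mul_right (pow_dvd_pow_of_dvd h0 3) _) _) _
  have h2 := PowerSeries.X_pow_dvd_iff.1 h1 2 (by norm_num)
  have h3 := PowerSeries.X_pow_dvd_iff.1 h1 1 (by norm_num)
  have h4 := PowerSeries.X_pow_dvd_iff.1 h1 0 (by norm_num)
  unfold kap FL.Dg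
  rw [h2, h3, h4]
  simp

end Pool.Agent.H410.QL
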