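import Pool.Agent.H410.QL.Stm

/-! Size of the Vandermonde product (`S_VB`). -/

set_option autoImplicit false

namespace Pool.Agent.H410.QL

open Finset
open Pool.Agent.H475.QZ (VV ea)

namespace P_VB

theorem sum_cube (N : ℕ) : 3 * ∑ l ∈ range N, l * (l + 1) + N = N ^ 3 := by
  induction N with
  | zero => simp
  | succ N ih =>
    rw [Finset.sum_range_succ, mul_add]
    have h : (N + 1) ^ 3 = N ^ 3 + 3 * (N * (N + 1)) + 1 := by ring
    rw [h, ← ih]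
    ring

theorem step (n : ℕ) : 3 * n ^ 2 ≤ 27 * (n / 3 * (n / 3 + 1)) + 3 * n + 6 := by
  obtain ⟨a, r, hr, hn⟩ : ∃ a r : ℕ, r < 3 ∧ n = 3 * a + r :=
    ⟨n / 3, n % 3, Nat.mod_lt _ (by norm_num), (Nat.div_add_mod n 3).symm⟩
  have ha : n / 3 = a := by omega
  rw [ha, hn]
  interval_cases r <;> nlinarith

theorem sum_low (N : ℕ) :
    N ^ 3 ≤ 10 * N ^ 2 + ∑ i ∈ range N, 27 * (i / 3 * (i / 3 + 1)) := by
  induction N with
  | zero => simp
  | succ N ih =>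
    rw [Finset.sum_range_succ]
    have h1 := step N
    have h2 : (N + 1) ^ 3 = N ^ 3 + (3 * N ^ 2 + 3 * N + 1) := by ring
    have h3 : 10 * (N + 1) ^ 2 = 10 * N ^ 2 + (20 * N + 10) := by ring
    rw [h2, h3]
    omega

end P_VB

open P_VB

theorem t_VB : S_VB := by
  intro p hp N _
  have hp2 : (2 : ℝ) ≤ |(p : ℝ)| := by
    have : ((2 : ℤ) : ℝ) ≤ ((|p| : ℤ) : ℝ) := by exact_mod_cast hp
    rw [Int.cast_abs] at this
    exact_mod_cast this
  have hp1 : (1 : ℝ) ≤ |(p : ℝ)| := by linarith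
  have hp0 : (0 : ℝ) < |(p : ℝ)| := by linarith
  constructor
  · have h1 : ∀ l i : ℕ, i < l → |(p : ℝ) ^ l - (p : ℝ) ^ i| ≤ |(p : ℝ)| ^ (l + 1) := by
      intro l i hil
      have h2 : |(p : ℝ) ^ l - (p : ℝ) ^ i| ≤ |(p : ℝ)| ^ l + |(p : ℝ)| ^ i := by
        refine (abs_sub _ _).trans ?_
        rw [abs_pow, abs_pow]
      have h3 : |(p : ℝ)| ^ i ≤ |(p : ℝ)| ^ l := pow_le_pow_right₀ hp1 hil.le
      have h4 : 0 ≤ |(p : ℝ)| ^ l := (pow_pos hp0 l).le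
      have h5 : 2 * |(p : ℝ)| ^ l ≤ |(p : ℝ)| * |(p : ℝ)| ^ l := mul_le_mul_of_nonneg_right hp2 h4
      rw [pow_succ']
      linarith
    have h2 : |VV ℝ p N| ≤ ∏ l ∈ range N, |(p : ℝ)| ^ (l * (l + 1)) := by
      unfold VV
      rw [Finset.abs_prod]
      refine Finset.prod_le_prod (fun l _ => abs_nonneg _) fun l _ => ?_
      rw [Finset.abs_prod]
      have h3 : ∏ i ∈ range l, |(p : ℝ) ^ l - (p : ℝ) ^ i| ≤ ∏ i ∈ range l, |(p : ℝ)| ^ (l + 1) :=
        Finset.prod_le_prod (fun i _ => abs_nonneg _) fun i hi => h1 l i (mem_range.1 hi)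
      refine h3.trans (le_of_eq ?_)
      rw [Finset.prod_const, card_range, ← pow_mul, mul_comm]
    refine (pow_le_pow_left₀ (abs_nonneg _) h2 3).trans ?_
    rw [Finset.prod_pow_eq_pow_sum, ← pow_mul]
    refine pow_le_pow_right₀ hp1 ?_
    have h3 := sum_cube N
    omega
  · have h2 : ∀ a : ℕ, ((ea p a ^ 3) ^ 2) ^ 9 = (|(p : ℝ)| ^ (27 * (a * (a + 1))))⁻¹ := by
      intro a
      unfold ea
      rw [inv_pow, inv_pow, inv_pow, ← pow_mul, ← pow_mul, ← pow_mul]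
      have h3 : a * (a + 1) / 2 * 2 = a * (a + 1) :=
        Nat.div_mul_cancel (Nat.even_mul_succ_self a).two_dvd
      have h4 : a * (a + 1) / 2 * (3 * (2 * 9)) = 27 * (a * (a + 1)) := by
        omega
      rw [h4]
    have h1 : (∏ i : Fin N, (ea p ((i : ℕ) / 3) ^ 3) ^ 2) ^ 9 =
        (|(p : ℝ)| ^ (∑ i ∈ range N, 27 * (i / 3 * (i / 3 + 1))))⁻¹ := by
      rw [Fin.prod_univ_eq_prod_range (fun i => (ea p (i / 3) ^ 3) ^ 2) N, ← Finset.prod_pow,
        ← Finset.prod_pow_eq_pow_sum, ← Finset.prod_inv_distrib]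
      exact Finset.prod_congr rfl fun i _ => h2 (i / 3)
    rw [h1, inv_mul_le_iff₀ (pow_pos hp0 _), ← pow_add]
    refine pow_le_pow_right₀ hp1 ?_
    have h3 := sum_low N
    omega

end Pool.Agent.H410.QL
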