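import Pool.Agent.H410.NQ.Defs
import Pool.Agent.H410.FL.Defs
import Pool.Agent.H475.QZ.Defs

/-!
Definitions for the theorem: `1, ∑ 1/(p^n-1), ∑ n/(p^n-1), ∑ n^2/(p^n-1)` are linearly independent
over `ℚ` for every integer `p` with `|p| ≥ 2` (helper410).
-/

namespace Pool.Agent.H410.QL

open Finset

/-- `W(m) = w 0 + w 1 m + w 2 m^2`, an integer. -/
def Wz (w : Fin 3 → ℤ) (m : ℤ) : ℤ := w 0 + w 1 * m + w 2 * m ^ 2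

/-- `c_e = W(e)/(p^e-1)` (used for `e ≥ 1`). -/
def cq (p : ℤ) (w : Fin 3 → ℤ) (e : ℕ) : ℚ := (Wz w e : ℚ) / ((p : ℚ) ^ e - 1)

/-- `h_l = w 0/(p^l-1) + w 1 p^l/(p^l-1)^2 + w 2 p^l (p^l+1)/(p^l-1)^3`. -/
def h1 (p : ℤ) (w : Fin 3 → ℤ) (l : ℕ) : ℚ :=
  (w 0 : ℚ) / ((p : ℚ) ^ l - 1) + (w 1 : ℚ) * (p : ℚ) ^ l / ((p : ℚ) ^ l - 1) ^ 2 +
    (w 2 : ℚ) * ((p : ℚ) ^ l * ((p : ℚ) ^ l + 1)) / ((p : ℚ) ^ l - 1) ^ 3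

/-- `H_k = ∑_{l=1}^k h_l`. -/
def hq (p : ℤ) (w : Fin 3 → ℤ) (k : ℕ) : ℚ := ∑ l ∈ Icc 1 k, h1 p w l

/-- `A(k,J) = p^{kJ} (s - H_k) - ∑_{e=1}^J p^{k(J-e)} c_e`. -/
def Aq (p : ℤ) (w : Fin 3 → ℤ) (s : ℤ) (k J : ℕ) : ℚ :=
  (p : ℚ) ^ (k * J) * ((s : ℚ) - hq p w k) - ∑ e ∈ Icc 1 J, (p : ℚ) ^ (k * (J - e)) * cq p w e

/-- The matrix `(A(k, j+1))`, `0 ≤ k, j < N`. -/
def MQ (p : ℤ) (w : Fin 3 → ℤ) (s : ℤ) (N : ℕ) : Matrix (Fin N) (Fin N) ℚ :=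
  Matrix.of fun k j => Aq p w s (k : ℕ) ((j : ℕ) + 1)

/-- The real weights. -/
noncomputable def wR (w : Fin 3 → ℤ) : Fin 3 → ℝ := fun i => (w i : ℝ)

/-- `c_e` as a real number. -/
noncomputable def cR (p : ℤ) (w : Fin 3 → ℤ) (e : ℕ) : ℝ := (Wz w e : ℝ) / ((p : ℝ) ^ e - 1)

/-- `Z = ∑_{e ≥ 1} W(e)/(p^e-1)`. -/
noncomputable def ZZ (p : ℤ) (w : Fin 3 → ℤ) : ℝ := ∑' e : ℕ, cR p w (e + 1)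

/-- `a(k,J) = ∑_{e ≥ 1} p^{-k e} c_{e+J}`. -/
noncomputable def aR (p : ℤ) (w : Fin 3 → ℤ) (k J : ℕ) : ℝ :=
  ∑' e : ℕ, ((p : ℝ) ^ (k * (e + 1)))⁻¹ * cR p w (e + 1 + J)

/-- The real matrix `(a(k, j+1))`, `0 ≤ k, j < N`. -/
noncomputable def MR (p : ℤ) (w : Fin 3 → ℤ) (N : ℕ) : Matrix (Fin N) (Fin N) ℝ :=
  Matrix.of fun k j => aR p w (k : ℕ) ((j : ℕ) + 1)

/-- Row factors: `∏_{d ≤ n} Φ_d · ∏_{d ≤ min(i,n)} Φ_d · ∏_{n < d ≤ i} Φ_d^3`. -/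
noncomputable def Rr (p : ℤ) (n i : ℕ) : ℤ :=
  (∏ d ∈ Icc 1 n, NQ.ph p d) * (∏ d ∈ Icc 1 (min i n), NQ.ph p d) *
    ∏ d ∈ Ioc n i, NQ.ph p d ^ 3

/-- Column factors: `∏_{j < d ≤ n} Φ_d · ∏_{n < d ≤ j+1} Φ_d`. -/
noncomputable def Rc (p : ℤ) (n j : ℕ) : ℤ := NQ.rr p n j

/-- All factors, `N = 2n+1`. -/
noncomputable def RT (p : ℤ) (n : ℕ) : ℤ :=
  (∏ i ∈ range (2 * n + 1), Rr p n i) * ∏ j ∈ range (2 * n + 1), Rc p n j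

/-- `Φ(m) = ∑_{d ≤ m} φ(d)`. -/
def Phi (m : ℕ) : ℕ := ∑ d ∈ Icc 1 m, Nat.totient d

/-- `∑_{d ≤ n} (4n+2) φ(d) + ∑_{n < d ≤ 2n+1} (4(2n+1-d)+1) φ(d)`. -/
def Psi (n : ℕ) : ℕ :=
  (∑ d ∈ Icc 1 n, (4 * n + 2) * Nat.totient d) +
    ∑ d ∈ Ioc n (2 * n + 1), (4 * (2 * n + 1 - d) + 1) * Nat.totient d

/-- The number of pairs `(a, d)`, `1 ≤ a ≤ d ≤ m`, such that no prime in `S` divides both. -/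
def FS (S : Finset ℕ) (m : ℕ) : ℕ :=
  (((Icc 1 m) ×ˢ (Icc 1 m)).filter fun x => x.1 ≤ x.2 ∧ ∀ q ∈ S, ¬ (q ∣ x.1 ∧ q ∣ x.2)).card

/-- `κ_t(F) = D_w [X_t^2 F(X_t) / Q(X_t)]`. -/
noncomputable def kap (p : ℤ) (w : Fin 3 → ℝ) (N t : ℕ) (F : Polynomial ℝ) : ℝ :=
  FL.Dg w (Pool.Agent.H475.QZ.XX p t ^ 2 * Polynomial.aeval (Pool.Agent.H475.QZ.XX p t) F *
    (Pool.Agent.H475.QZ.QQ p N t)⁻¹)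

/-- `L(F,G) = ∑_k ∑_j F(p^k)/π_k · a(k,j+1) · G_j`. -/
noncomputable def LL (p : ℤ) (w : Fin 3 → ℤ) (N : ℕ) (F G : Polynomial ℝ) : ℝ :=
  ∑ k ∈ range N, ∑ j ∈ range N,
    F.eval ((p : ℝ) ^ k) / Pool.Agent.H475.QZ.pik ℝ p N k * aR p w k (j + 1) * G.coeff j

end Pool.Agent.H410.QL
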