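import Pool.Agent.H410.QL.Stm

/-!
Project QL, lemma FIN (helper383): `Z` is not an integer.
-/

namespace Pool.Agent.H410.QL

open Finset Polynomial

namespace P_FIN

theorem arith (n V V' C₁ C₂ : ℕ) (hn : 1 ≤ n) (hV : V' ≤ V) (h : 2 * n ^ 3 ≤ 3 * V' + 6 * n ^ 2)
    (hk : 90000 * V + 25000 * (2 * n + 1) ^ 3 ≤
      3 * (86576 * n ^ 3 + C₁ * n ^ 2) + 5000 * (C₂ * (2 * n + 1) ^ 2))
    (hB : 180000 + 3 * C₁ + 45000 * C₂ + 1 ≤ n) : False := by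
  have h1 : 8 * n ^ 3 ≤ (2 * n + 1) ^ 3 := by
    have : (2 * n) ^ 3 ≤ (2 * n + 1) ^ 3 := Nat.pow_le_pow_left (by omega) 3
    calc 8 * n ^ 3 = (2 * n) ^ 3 := by ring
      _ ≤ _ := this
  have h2 : (2 * n + 1) ^ 2 ≤ 9 * n ^ 2 := by
    have : (2 * n + 1) ^ 2 ≤ (3 * n) ^ 2 := Nat.pow_le_pow_left (by omega) 2
    calc (2 * n + 1) ^ 2 ≤ (3 * n) ^ 2 := this
      _ = 9 * n ^ 2 := by ring
  have h3 : C₂ * (2 * n + 1) ^ 2 ≤ C₂ * (9 * n ^ 2) := Nat.mul_le_mul_left _ h2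
  have h4 : 272 * n ^ 3 ≤ (180000 + 3 * C₁ + 45000 * C₂) * n ^ 2 := by
    have e1 : (180000 + 3 * C₁ + 45000 * C₂) * n ^ 2 =
      180000 * n ^ 2 + 3 * (C₁ * n ^ 2) + 5000 * (C₂ * (9 * n ^ 2)) := by ring
    rw [e1]
    omega
  have h5 : (180000 + 3 * C₁ + 45000 * C₂ + 1) * n ^ 2 ≤ n * n ^ 2 := Nat.mul_le_mul_right _ hB
  have h6 : 0 < n ^ 2 := by positivity
  have h7 : n * n ^ 2 = n ^ 3 := by ring
  rw [h7, add_mul, one_mul] at h5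
  omega

end P_FIN

open P_FIN in
theorem t_FIN (hCF : S_CF) (hNV : S_NV) (hLOW : S_LOW) (hSV : Pool.Agent.H410.NQ.S_SV)
    (hRB : S_RB) (hUP : S_UP) : S_FIN := by
  intro p hp w hw s hz
  obtain ⟨C₁, hC₁⟩ := hRB p hp
  obtain ⟨C₂, hC₂⟩ := hUP p hp w
  obtain ⟨n, hnB, hdet0⟩ := hNV p hp w hw s (180000 + 3 * C₁ + 45000 * C₂ + 1)
  have hn1 : 1 ≤ n := by omega
  have hpR : (2 : ℝ) ≤ |(p : ℝ)| := by exact_mod_cast hp
  have hp1 : (1 : ℝ) < |(p : ℝ)| := by linarith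
  -- the real matrix is the image of the rational one
  have hA : MR p w (2 * n + 1) = (MQ p w s (2 * n + 1)).map (algebraMap ℚ ℝ) := by
    ext k j
    simp only [MR, MQ, Matrix.of_apply, Matrix.map_apply, Aq, hCF p hp, hz]
    simp
  have hdet : (MR p w (2 * n + 1)).det = (((MQ p w s (2 * n + 1)).det : ℚ) : ℝ) := by
    rw [hA, ← RingHom.mapMatrix_apply, ← RingHom.map_det]
    simp
  have hlow : |(p : ℝ)| ^ (∑ r ∈ range (2 * n + 1), NQ.vv r) ≤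
      |(RT p n : ℝ)| * |(MR p w (2 * n + 1)).det| := by
    have h := hLOW p hp w s n hdet0
    rw [hdet]
    exact_mod_cast h
  have hrb := hC₁ n hn1
  have hup := hC₂ (2 * n + 1) (by omega)
  set V : ℕ := ∑ r ∈ range (2 * n + 1), NQ.vv r with hV
  have key : |(p : ℝ)| ^ (90000 * V + 25000 * (2 * n + 1) ^ 3) ≤
      |(p : ℝ)| ^ (3 * (86576 * n ^ 3 + C₁ * n ^ 2) + 5000 * (C₂ * (2 * n + 1) ^ 2)) := by
    calc |(p : ℝ)| ^ (90000 * V + 25000 * (2 * n + 1) ^ 3)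
        = (|(p : ℝ)| ^ V) ^ 90000 * |(p : ℝ)| ^ (25000 * (2 * n + 1) ^ 3) := by
          rw [pow_add, ← pow_mul, mul_comm 90000]
      _ ≤ (|(RT p n : ℝ)| * |(MR p w (2 * n + 1)).det|) ^ 90000 *
          |(p : ℝ)| ^ (25000 * (2 * n + 1) ^ 3) := by
          gcongr
      _ = (|(RT p n : ℝ)| ^ 30000) ^ 3 *
          (|(MR p w (2 * n + 1)).det| ^ 18 * |(p : ℝ)| ^ (5 * (2 * n + 1) ^ 3)) ^ 5000 := by
          rw [mul_pow, mul_pow, ← pow_mul, ← pow_mul, ← pow_mul, mul_assoc]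
          congr 3
          ring
      _ ≤ (|(p : ℝ)| ^ (86576 * n ^ 3 + C₁ * n ^ 2)) ^ 3 *
          (|(p : ℝ)| ^ (C₂ * (2 * n + 1) ^ 2)) ^ 5000 := by
          gcongr
      _ = _ := by
          rw [← pow_mul, ← pow_mul, ← pow_add]
          congr 1
          ring
  have key2 := (pow_le_pow_iff_right₀ hp1).mp key
  have hVV : ∑ r ∈ range (2 * n), NQ.vv r ≤ V := by
    rw [hV, Finset.sum_range_succ]
    exact Nat.le_add_right _ _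
  exact arith n V _ C₁ C₂ hn1 hVV (hSV n) key2 hnB

end Pool.Agent.H410.QL
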