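import Pool.Agent.H410.QL.Stm

/-! Proof of `S_LI` (helper297): clear denominators in a rational relation. -/

namespace Pool.Agent.H410.QL

namespace P_LI

/-- A common denominator of finitely many rational numbers. -/
theorem clear (g : Fin 4 → ℚ) : ∃ (D : ℕ) (z : Fin 4 → ℤ), D ≠ 0 ∧ ∀ i, (z i : ℚ) = D * g i := by
  refine ⟨∏ i, (g i).den, fun i => (∏ j ∈ Finset.univ.erase i, ((g j).den : ℤ)) * (g i).num,
    Finset.prod_ne_zero_iff.mpr fun i _ => (g i).den_nz, fun i => ?_⟩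
  have h1 : (((g i).den : ℚ)) * g i = (g i).num := by
    rw [mul_comm]
    exact Rat.mul_den_eq_num (g i)
  rw [← Finset.prod_erase_mul Finset.univ _ (Finset.mem_univ i)]
  push_cast
  rw [mul_assoc, h1]

/-- The series for the weight `w`. -/
theorem split (hSUM : S_SUM) (p : ℤ) (hp : 2 ≤ |p|) (z1 z2 z3 : ℤ) :
    ZZ p ![z1, z2, z3] = (z1 : ℝ) * (∑' n : ℕ, 1 / ((p : ℝ) ^ (n + 1) - 1)) +
      (z2 : ℝ) * (∑' n : ℕ, ((n : ℝ) + 1) / ((p : ℝ) ^ (n + 1) - 1)) +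
      (z3 : ℝ) * (∑' n : ℕ, ((n : ℝ) + 1) ^ 2 / ((p : ℝ) ^ (n + 1) - 1)) := by
  have hs : ∀ a b c : ℤ, Summable fun n : ℕ =>
      ((a : ℝ) + b * ((n : ℝ) + 1) + c * ((n : ℝ) + 1) ^ 2) / ((p : ℝ) ^ (n + 1) - 1) := by
    intro a b c
    have h1 := (hSUM p hp ![a, b, c]).2
    have e : (fun n : ℕ => cR p ![a, b, c] (n + 1)) = fun n : ℕ =>
        ((a : ℝ) + b * ((n : ℝ) + 1) + c * ((n : ℝ) + 1) ^ 2) / ((p : ℝ) ^ (n + 1) - 1) := by
      funext n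
      have e0 : (![a, b, c] : Fin 3 → ℤ) 0 = a := rfl
      have e1 : (![a, b, c] : Fin 3 → ℤ) 1 = b := rfl
      have e2 : (![a, b, c] : Fin 3 → ℤ) 2 = c := rfl
      unfold cR Wz
      rw [e0, e1, e2]
      push_cast
      rfl
    rw [e] at h1
    exact h1
  have hs1 : Summable fun n : ℕ => 1 / ((p : ℝ) ^ (n + 1) - 1) := by
    have h1 := hs 1 0 0
    simp only [Int.cast_one, Int.cast_zero, zero_mul, add_zero] at h1
    exact h1
  have hs2 : Summable fun n : ℕ => ((n : ℝ) + 1) / ((p : ℝ) ^ (n + 1) - 1) := by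
    have h1 := hs 0 1 0
    simp only [Int.cast_one, Int.cast_zero, zero_mul, add_zero, one_mul, zero_add] at h1
    exact h1
  have hs3 : Summable fun n : ℕ => ((n : ℝ) + 1) ^ 2 / ((p : ℝ) ^ (n + 1) - 1) := by
    have h1 := hs 0 0 1
    simp only [Int.cast_one, Int.cast_zero, zero_mul, add_zero, one_mul, zero_add] at h1
    exact h1
  rw [← hs1.tsum_mul_left (z1 : ℝ), ← hs2.tsum_mul_left (z2 : ℝ), ← hs3.tsum_mul_left (z3 : ℝ),
    ← (hs1.mul_left (z1 : ℝ)).tsum_add (hs2.mul_left (z2 : ℝ)),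
    ← ((hs1.mul_left (z1 : ℝ)).add (hs2.mul_left (z2 : ℝ))).tsum_add (hs3.mul_left (z3 : ℝ))]
  unfold ZZ
  refine tsum_congr fun n => ?_
  have e0 : (![z1, z2, z3] : Fin 3 → ℤ) 0 = z1 := rfl
  have e1 : (![z1, z2, z3] : Fin 3 → ℤ) 1 = z2 := rfl
  have e2 : (![z1, z2, z3] : Fin 3 → ℤ) 2 = z3 := rfl
  unfold cR Wz
  rw [e0, e1, e2]
  push_cast
  ring

end P_LI

theorem t_LI (hSUM : S_SUM) (hFIN : S_FIN) : S_LI := by
  intro p hp
  rw [Fintype.linearIndependent_iff]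
  intro g hg
  obtain ⟨D, z, hD, hz⟩ := P_LI.clear g
  have hDq : (D : ℚ) ≠ 0 := by exact_mod_cast hD
  have hzr : ∀ i, ((z i : ℤ) : ℝ) = (D : ℝ) * ((g i : ℚ) : ℝ) := by
    intro i
    have h1 := congrArg (fun q : ℚ => (q : ℝ)) (hz i)
    push_cast at h1
    exact h1
  have hsp := P_LI.split hSUM p hp (z 1) (z 2) (z 3)
  set S1 : ℝ := ∑' n : ℕ, 1 / ((p : ℝ) ^ (n + 1) - 1) with hS1
  set S2 : ℝ := ∑' n : ℕ, ((n : ℝ) + 1) / ((p : ℝ) ^ (n + 1) - 1) with hS2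
  set S3 : ℝ := ∑' n : ℕ, ((n : ℝ) + 1) ^ 2 / ((p : ℝ) ^ (n + 1) - 1) with hS3
  have h0 : ((z 0 : ℤ) : ℝ) + (z 1 : ℤ) * S1 + (z 2 : ℤ) * S2 + (z 3 : ℤ) * S3 = 0 := by
    rw [hzr, hzr, hzr, hzr]
    have h1 : ((g 0 : ℚ) : ℝ) * 1 + ((g 1 : ℚ) : ℝ) * S1 + ((g 2 : ℚ) : ℝ) * S2 +
        ((g 3 : ℚ) : ℝ) * S3 = 0 := by
      have h2 := hg
      rw [Fin.sum_univ_four, Rat.smul_def, Rat.smul_def, Rat.smul_def, Rat.smul_def] at h2
      exact h2
    linear_combination (D : ℝ) * h1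
  have hr0 : (![z 1, z 2, z 3] : Fin 3 → ℤ) = 0 := by
    by_contra hr
    refine hFIN p hp ![z 1, z 2, z 3] hr (-z 0) ?_
    rw [hsp]
    push_cast
    linear_combination h0
  have e1 : z 1 = 0 := congrFun hr0 0
  have e2 : z 2 = 0 := congrFun hr0 1
  have e3 : z 3 = 0 := congrFun hr0 2
  have e0 : z 0 = 0 := by
    rw [e1, e2, e3] at h0
    have : ((z 0 : ℤ) : ℝ) = 0 := by
      simp only [Int.cast_zero, zero_mul, add_zero] at h0
      exact h0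
    exact_mod_cast this
  have hz0 : ∀ i, z i = 0 := by
    intro i
    fin_cases i
    · exact e0
    · exact e1
    · exact e2
    · exact e3
  intro i
  have h3 := hz i
  rw [hz0 i, Int.cast_zero] at h3
  exact (mul_eq_zero.mp h3.symm).resolve_left hDq

end Pool.Agent.H410.QL
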