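import Pool.Agent.H410.QL.Stm

/-!
Nonvanishing for infinitely many `n` (helper50 for helper410).
-/

namespace Pool.Agent.H410.QL

open Finset
open Pool.Agent.H475.QZ (RpS mem_RpS int_mem_RpS inv_mem_RpS)

namespace P_NV

theorem cop {q : ℕ} (hq : q.Prime) {n : ℤ} (h : ¬ ((q : ℤ) ∣ n)) : IsCoprime n (q : ℤ) :=
  (((Nat.prime_iff_prime_int.mp hq).irreducible.coprime_iff_not_dvd).2 h).symm

theorem ne_zero_of_not_dvd {q : ℕ} {n : ℤ} (h : ¬ ((q : ℤ) ∣ n)) : n ≠ 0 := by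
  rintro rfl
  exact h (dvd_zero _)

/-- `1 / (p ^ l - 1)` -/
theorem inv_mem {q : ℕ} (hq : q.Prime) {p : ℤ} {l : ℕ} (h : ¬ ((q : ℤ) ∣ p ^ l - 1)) :
    ((p : ℚ) ^ l - 1)⁻¹ ∈ RpS (q : ℤ) := by
  have h1 := inv_mem_RpS (cop hq h) (ne_zero_of_not_dvd h)
  push_cast at h1
  exact h1

theorem pow_mem' {q : ℕ} (p : ℤ) (n : ℕ) : (p : ℚ) ^ n ∈ RpS (q : ℤ) :=
  pow_mem (int_mem_RpS _ p) n

theorem cq_mem {q : ℕ} (hq : q.Prime) {p : ℤ} (w : Fin 3 → ℤ) {l : ℕ}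
    (h : ¬ ((q : ℤ) ∣ p ^ l - 1)) : cq p w l ∈ RpS (q : ℤ) := by
  unfold cq
  rw [div_eq_mul_inv]
  exact mul_mem (int_mem_RpS _ _) (inv_mem hq h)

theorem h1_mem {q : ℕ} (hq : q.Prime) {p : ℤ} (w : Fin 3 → ℤ) {l : ℕ}
    (h : ¬ ((q : ℤ) ∣ p ^ l - 1)) : h1 p w l ∈ RpS (q : ℤ) := by
  have hi := inv_mem hq h
  have hp : (p : ℚ) ^ l ∈ RpS (q : ℤ) := pow_mem' p l
  unfold h1
  rw [div_eq_mul_inv, div_eq_mul_inv, div_eq_mul_inv, ← inv_pow, ← inv_pow]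
  exact add_mem (add_mem (mul_mem (int_mem_RpS _ _) hi)
    (mul_mem (mul_mem (int_mem_RpS _ _) hp) (pow_mem hi 2)))
    (mul_mem (mul_mem (int_mem_RpS _ _) (mul_mem hp (add_mem hp (one_mem _)))) (pow_mem hi 3))

theorem Aq_mem1 {q T : ℕ} (hq : q.Prime) {p : ℤ} (w : Fin 3 → ℤ) (s : ℤ)
    (hnd : ∀ l : ℕ, 1 ≤ l → l < 2 * T → l ≠ T → ¬ ((q : ℤ) ∣ p ^ l - 1)) {K J : ℕ}
    (hK : K < T) (hJ : J < T) : Aq p w s K J ∈ RpS (q : ℤ) := by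
  unfold Aq QL.hq
  refine sub_mem (mul_mem (pow_mem' p _) (sub_mem (int_mem_RpS _ _) (sum_mem fun l hl => ?_)))
    (sum_mem fun e he => mul_mem (pow_mem' p _) ?_)
  · rw [mem_Icc] at hl
    exact h1_mem hq w (hnd l hl.1 (by omega) (by omega))
  · rw [mem_Icc] at he
    exact cq_mem hq w (hnd e he.1 (by omega) (by omega))

theorem Aq_mem2 {q T : ℕ} (hq : q.Prime) {p : ℤ} (w : Fin 3 → ℤ) (s : ℤ) (hT : 1 ≤ T)
    (hnd : ∀ l : ℕ, 1 ≤ l → l < 2 * T → l ≠ T → ¬ ((q : ℤ) ∣ p ^ l - 1)) {K J : ℕ}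
    (hK : K < T) (hJ : T ≤ J) (hJ2 : J < 2 * T) :
    ∃ X ∈ RpS (q : ℤ), Aq p w s K J = X - (p : ℚ) ^ (K * (J - T)) * cq p w T := by
  have hmem : T ∈ Icc 1 J := mem_Icc.2 ⟨hT, hJ⟩
  refine ⟨(p : ℚ) ^ (K * J) * ((s : ℚ) - QL.hq p w K) -
    ∑ e ∈ (Icc 1 J).erase T, (p : ℚ) ^ (K * (J - e)) * cq p w e, ?_, ?_⟩
  · unfold QL.hq
    refine sub_mem (mul_mem (pow_mem' p _) (sub_mem (int_mem_RpS _ _) (sum_mem fun l hl => ?_)))
      (sum_mem fun e he => mul_mem (pow_mem' p _) ?_)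
    · rw [mem_Icc] at hl
      exact h1_mem hq w (hnd l hl.1 (by omega) (by omega))
    · rw [mem_erase, mem_Icc] at he
      exact cq_mem hq w (hnd e he.2.1 (by omega) he.1)
  · unfold Aq
    rw [← Finset.add_sum_erase (Icc 1 J) (fun e => (p : ℚ) ^ (K * (J - e)) * cq p w e) hmem]
    ring

theorem Aq_mem3 {q T : ℕ} (hq : q.Prime) {p : ℤ} (w : Fin 3 → ℤ) (s : ℤ) (hT : 1 ≤ T)
    (hnd : ∀ l : ℕ, 1 ≤ l → l < 2 * T → l ≠ T → ¬ ((q : ℤ) ∣ p ^ l - 1)) {K J : ℕ}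
    (hK : T ≤ K) (hK2 : K < 2 * T) (hJ : J < T) :
    ∃ X ∈ RpS (q : ℤ), Aq p w s K J = X - (p : ℚ) ^ (K * J) * h1 p w T := by
  have hmem : T ∈ Icc 1 K := mem_Icc.2 ⟨hT, hK⟩
  refine ⟨(p : ℚ) ^ (K * J) * ((s : ℚ) - ∑ l ∈ (Icc 1 K).erase T, h1 p w l) -
    ∑ e ∈ Icc 1 J, (p : ℚ) ^ (K * (J - e)) * cq p w e, ?_, ?_⟩
  · refine sub_mem (mul_mem (pow_mem' p _) (sub_mem (int_mem_RpS _ _) (sum_mem fun l hl => ?_)))
      (sum_mem fun e he => mul_mem (pow_mem' p _) ?_)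
    · rw [mem_erase, mem_Icc] at hl
      exact h1_mem hq w (hnd l hl.2.1 (by omega) hl.1)
    · rw [mem_Icc] at he
      exact cq_mem hq w (hnd e he.1 (by omega) (by omega))
  · unfold Aq QL.hq
    rw [← Finset.add_sum_erase (Icc 1 K) (fun l => h1 p w l) hmem]
    ring

theorem Aq_mem4 {q T : ℕ} (hq : q.Prime) {p : ℤ} (w : Fin 3 → ℤ) (s : ℤ) (hT : 1 ≤ T)
    (hnd : ∀ l : ℕ, 1 ≤ l → l < 2 * T → l ≠ T → ¬ ((q : ℤ) ∣ p ^ l - 1)) {K J : ℕ}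
    (hK : T ≤ K) (hK2 : K < 2 * T) (hJ : T ≤ J) (hJ2 : J < 2 * T) :
    ∃ X ∈ RpS (q : ℤ), Aq p w s K J = X - (p : ℚ) ^ (K * J) * h1 p w T -
      (p : ℚ) ^ (K * (J - T)) * cq p w T := by
  have hmem : T ∈ Icc 1 K := mem_Icc.2 ⟨hT, hK⟩
  have hmem' : T ∈ Icc 1 J := mem_Icc.2 ⟨hT, hJ⟩
  refine ⟨(p : ℚ) ^ (K * J) * ((s : ℚ) - ∑ l ∈ (Icc 1 K).erase T, h1 p w l) -
    ∑ e ∈ (Icc 1 J).erase T, (p : ℚ) ^ (K * (J - e)) * cq p w e, ?_, ?_⟩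
  · refine sub_mem (mul_mem (pow_mem' p _) (sub_mem (int_mem_RpS _ _) (sum_mem fun l hl => ?_)))
      (sum_mem fun e he => mul_mem (pow_mem' p _) ?_)
    · rw [mem_erase, mem_Icc] at hl
      exact h1_mem hq w (hnd l hl.2.1 (by omega) hl.1)
    · rw [mem_erase, mem_Icc] at he
      exact cq_mem hq w (hnd e he.2.1 (by omega) he.1)
  · unfold Aq QL.hq
    rw [← Finset.add_sum_erase (Icc 1 K) (fun l => h1 p w l) hmem,
      ← Finset.add_sum_erase (Icc 1 J) (fun e => (p : ℚ) ^ (K * (J - e)) * cq p w e) hmem']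
    ring

/-- `C / q` -/
theorem C_mem {q : ℕ} (hq : q.Prime) {u W : ℤ} {k : ℕ} (h1 : (q : ℤ) ^ (k + 1) ∣ u)
    (h2 : ¬ ((q : ℤ) ^ (k + 1) ∣ W)) (hW : W ≠ 0) : ((u : ℚ) / W) / (q : ℚ) ∈ RpS (q : ℤ) := by
  have hfin : FiniteMultiplicity (q : ℤ) W :=
    Int.finiteMultiplicity_iff.2 ⟨by rw [Int.natAbs_natCast]; exact hq.one_lt.ne', hW⟩
  obtain ⟨c, hc1, hc2⟩ := hfin.exists_eq_pow_mul_and_not_dvd
  obtain ⟨y, hy⟩ := h1
  obtain ⟨v, hv⟩ : ∃ v, v = multiplicity (q : ℤ) W := ⟨_, rfl⟩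
  rw [← hv] at hc1
  have hvk : v ≤ k := by
    by_contra hcon
    rw [not_le] at hcon
    apply h2
    rw [hc1]
    exact Dvd.dvd.mul_right (pow_dvd_pow _ hcon) _
  have hq0 : (q : ℚ) ≠ 0 := by exact_mod_cast hq.ne_zero
  have hc0 : (c : ℚ) ≠ 0 := by exact_mod_cast ne_zero_of_not_dvd hc2
  refine ⟨c, (q : ℤ) ^ (k - v) * y, cop hq hc2, ?_⟩
  rw [hc1, hy]
  push_cast
  have e : (q : ℚ) ^ (k + 1) = (q : ℚ) ^ (k - v) * (q : ℚ) ^ v * q := by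
    rw [← pow_add, ← pow_succ]
    congr 1
    omega
  rw [e]
  field_simp

/-- the choice of `t` and `b` -/
theorem exists_tb {q T : ℕ} {p : ℤ} {w : Fin 3 → ℤ} (hw : w ≠ 0)
    (hq : q.Prime) (h3 : 3 ≤ T) (hTq : T < q) (hwq : ∀ i, w i ≠ 0 → ¬ ((q : ℤ) ∣ w i))
    (hu0 : (p : ℚ) ^ T - 1 ≠ 0) (hu : ((p : ℚ) ^ T - 1) / (q : ℚ) ∈ RpS (q : ℤ)) :
    ∃ (t : ℚ) (b : ℤ), ¬ ((q : ℤ) ∣ b) ∧ t ∈ RpS (q : ℤ) ∧ t / (q : ℚ) ∈ RpS (q : ℤ) ∧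
      (t * h1 p w T - b) / (q : ℚ) ∈ RpS (q : ℤ) := by
  obtain ⟨u, hudef⟩ : ∃ u : ℚ, u = (p : ℚ) ^ T - 1 := ⟨_, rfl⟩
  have hpu : (p : ℚ) ^ T = u + 1 := by rw [hudef]; ring
  rw [← hudef] at hu0 hu
  have hum : u ∈ RpS (q : ℤ) := by
    rw [hudef]
    exact sub_mem (pow_mem' p T) (one_mem _)
  have hi : ∀ n : ℤ, (n : ℚ) ∈ RpS (q : ℤ) := fun n => int_mem_RpS _ n
  by_cases h2 : w 2 = 0
  · by_cases h1' : w 1 = 0
    · have h0 : w 0 ≠ 0 := by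
        intro h0
        apply hw
        funext i
        fin_cases i
        · exact h0
        · exact h1'
        · exact h2
      refine ⟨u, w 0, hwq 0 h0, hum, hu, ?_⟩
      have e : u * h1 p w T - (w 0 : ℚ) = 0 := by
        unfold h1
        rw [← hudef, h2, h1']
        push_cast
        field_simp
        ring
      rw [e, zero_div]
      exact zero_mem _
    · refine ⟨u ^ 2, w 1, hwq 1 h1', pow_mem hum 2, ?_, ?_⟩
      · have e : u ^ 2 / (q : ℚ) = u * (u / (q : ℚ)) := by ring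
        rw [e]
        exact mul_mem hum hu
      · have e : (u ^ 2 * h1 p w T - (w 1 : ℚ)) / (q : ℚ) =
            ((w 0 : ℚ) + w 1) * (u / (q : ℚ)) := by
          unfold h1
          rw [← hudef, hpu, h2]
          push_cast
          field_simp
          ring
        rw [e]
        exact mul_mem (add_mem (hi _) (hi _)) hu
  · have h2q : ¬ ((q : ℤ) ∣ 2 * w 2) := by
      intro h
      rcases (Nat.prime_iff_prime_int.mp hq).dvd_or_dvd h with h | h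
      · have h5 : (q : ℤ) ≤ 2 := Int.le_of_dvd (by norm_num) h
        omega
      · exact hwq 2 h2 h
    refine ⟨u ^ 3, 2 * w 2, h2q, pow_mem hum 3, ?_, ?_⟩
    · have e : u ^ 3 / (q : ℚ) = u ^ 2 * (u / (q : ℚ)) := by ring
      rw [e]
      exact mul_mem (pow_mem hum 2) hu
    · have e : (u ^ 3 * h1 p w T - ((2 * w 2 : ℤ) : ℚ)) / (q : ℚ) =
          ((w 0 : ℚ) * u + w 1 * (u + 1) + w 2 * (3 + u)) * (u / (q : ℚ)) := by
        unfold h1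
        rw [← hudef, hpu]
        push_cast
        field_simp
        ring
      rw [e]
      have h3' : (3 : ℚ) ∈ RpS (q : ℤ) := by exact_mod_cast hi 3
      exact mul_mem (add_mem (add_mem (mul_mem (hi _) hum) (mul_mem (hi _) (add_mem hum (one_mem _))))
        (mul_mem (hi _) (add_mem h3' hum))) hu

theorem pow_ne_one {p : ℤ} (hp : 2 ≤ |p|) {T : ℕ} (hT : 1 ≤ T) : p ^ T - 1 ≠ 0 := by
  intro h
  have h1 : |p ^ T| = 1 := by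
    have : p ^ T = 1 := by linarith
    rw [this, abs_one]
  rw [abs_pow] at h1
  have h2 : (2 : ℤ) ^ 1 ≤ |p| ^ T :=
    (pow_le_pow_left₀ (by norm_num) hp 1).trans (pow_le_pow_right₀ (by linarith) hT)
  rw [h1] at h2
  norm_num at h2

end P_NV

open P_NV in
theorem t_NV (hNVP : S_NVP) (hNVL : S_NVL) : S_NV := by
  intro p hp w hw s B
  obtain ⟨T, q, k, hB, hT3, hq, hTq, hqp, hwq, hnd, hk1, hk2⟩ := hNVP p hp w hw (B + 1)
  obtain ⟨n, rfl⟩ : ∃ n, T = n + 1 := ⟨T - 1, by omega⟩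
  refine ⟨n, by omega, ?_⟩
  obtain ⟨T, hT⟩ : ∃ T, T = n + 1 := ⟨_, rfl⟩
  have hcast : ((n + 1 : ℕ) : ℤ) = (T : ℤ) := by rw [hT]
  rw [← hT] at hB hT3 hTq hnd hk1
  have hk2' : ¬ ((q : ℤ) ^ (k + 1) ∣ Wz w (T : ℤ)) := by
    rw [← hcast]
    exact hk2
  have hT1 : 1 ≤ T := by omega
  have hq0 : (q : ℚ) ≠ 0 := by exact_mod_cast hq.ne_zero
  have hW0 : Wz w (T : ℤ) ≠ 0 := by
    intro h
    rw [h] at hk2'
    exact hk2' (dvd_zero _)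
  have hW0' : ((Wz w (T : ℤ) : ℤ) : ℚ) ≠ 0 := by exact_mod_cast hW0
  have hu0 : p ^ T - 1 ≠ 0 := pow_ne_one hp hT1
  have hu0' : (p : ℚ) ^ T - 1 ≠ 0 := by exact_mod_cast hu0
  have hCq := C_mem hq hk1 hk2' hW0
  push_cast at hCq
  have huq : ((p : ℚ) ^ T - 1) / (q : ℚ) ∈ RpS (q : ℤ) := by
    obtain ⟨y, hy⟩ := hk1
    have e : ((p : ℚ) ^ T - 1) / (q : ℚ) = (((q : ℤ) ^ k * y : ℤ) : ℚ) := by
      have e1 : ((p ^ T - 1 : ℤ) : ℚ) = (((q : ℤ) ^ (k + 1) * y : ℤ) : ℚ) := by rw [hy]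
      push_cast at e1 ⊢
      rw [e1]
      field_simp
      ring
    rw [e]
    exact int_mem_RpS _ _
  obtain ⟨t, b, hb, ht, htq, hth⟩ := exists_tb hw hq hT3 hTq hwq hu0' huq
  have hthT : t * h1 p w T ∈ RpS (q : ℤ) := by
    have e : t * h1 p w T = (q : ℚ) * ((t * h1 p w T - b) / (q : ℚ)) + b := by
      field_simp
      ring
    rw [e]
    refine add_mem (mul_mem ?_ hth) (int_mem_RpS _ _)
    exact_mod_cast int_mem_RpS (q : ℤ) (q : ℤ)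
  have hCc : ((p : ℚ) ^ T - 1) / (Wz w (T : ℤ) : ℚ) * cq p w T = 1 := by
    unfold cq
    field_simp
  have key := hNVL p q T hq (by omega) hqp
    (fun l hl hlT => hnd l hl (by omega) (by omega)) (fun K J => Aq p w s K J)
    (((p : ℚ) ^ T - 1) / (Wz w (T : ℤ) : ℚ)) t b hb
    (fun K J hK hJ hJT => Aq_mem1 hq w s hnd hK hJT)
    (fun K J hK hJ hJ2 => by
      obtain ⟨X, hX, e⟩ := Aq_mem2 hq w s hT1 hnd hK hJ hJ2
      have e2 : (((p : ℚ) ^ T - 1) / (Wz w (T : ℤ) : ℚ) * Aq p w s K J +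
          (p : ℚ) ^ (K * (J - T))) / (q : ℚ) =
          ((((p : ℚ) ^ T - 1) / (Wz w (T : ℤ) : ℚ)) / (q : ℚ)) * X := by
        rw [e]
        have e3 : ((p : ℚ) ^ T - 1) / (Wz w (T : ℤ) : ℚ) *
            (X - (p : ℚ) ^ (K * (J - T)) * cq p w T) =
            ((p : ℚ) ^ T - 1) / (Wz w (T : ℤ) : ℚ) * X - (p : ℚ) ^ (K * (J - T)) *
              (((p : ℚ) ^ T - 1) / (Wz w (T : ℤ) : ℚ) * cq p w T) := by ring
        rw [e3, hCc]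
        ring
      rw [e2]
      exact mul_mem hCq hX)
    (fun K J hK hK2 hJ hJT => by
      obtain ⟨X, hX, e⟩ := Aq_mem3 hq w s hT1 hnd hK (by omega) hJT
      have e2 : (t * Aq p w s K J + (b : ℚ) * (p : ℚ) ^ (K * J)) / (q : ℚ) =
          (t / (q : ℚ)) * X - (p : ℚ) ^ (K * J) * ((t * h1 p w T - b) / (q : ℚ)) := by
        rw [e]
        ring
      rw [e2]
      exact sub_mem (mul_mem htq hX) (mul_mem (pow_mem' p _) hth))
    (fun K J hK hK2 hJ hJ2 => by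
      obtain ⟨X, hX, e⟩ := Aq_mem4 hq w s hT1 hnd hK (by omega) hJ hJ2
      have e2 : (((p : ℚ) ^ T - 1) / (Wz w (T : ℤ) : ℚ) * (t * Aq p w s K J)) / (q : ℚ) =
          ((((p : ℚ) ^ T - 1) / (Wz w (T : ℤ) : ℚ)) / (q : ℚ)) *
            (t * X - (p : ℚ) ^ (K * J) * (t * h1 p w T)) -
          (t / (q : ℚ)) * (p : ℚ) ^ (K * (J - T)) := by
        rw [e]
        have e3 : ((p : ℚ) ^ T - 1) / (Wz w (T : ℤ) : ℚ) * (t * (X - (p : ℚ) ^ (K * J) *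
            h1 p w T - (p : ℚ) ^ (K * (J - T)) * cq p w T)) =
            ((p : ℚ) ^ T - 1) / (Wz w (T : ℤ) : ℚ) * (t * X - (p : ℚ) ^ (K * J) *
              (t * h1 p w T)) - t * (p : ℚ) ^ (K * (J - T)) *
              (((p : ℚ) ^ T - 1) / (Wz w (T : ℤ) : ℚ) * cq p w T) := by ring
        rw [e3, hCc]
        ring
      rw [e2]
      exact sub_mem (mul_mem hCq (sub_mem (mul_mem ht hX) (mul_mem (pow_mem' p _) hthT)))
        (mul_mem htq (pow_mem' p _)))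
  have e5 : 2 * T - 1 = 2 * n + 1 := by omega
  rw [e5] at key
  exact key

end Pool.Agent.H410.QL
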