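import Pool.Agent.H410.QL.Stm

/-!
Choice of the prime (`S_NVP`).
-/

namespace Pool.Agent.H410.QL

namespace P_NVP

open Filter Polynomial

/-- a polynomial grows slower than `2 ^ m` -/
theorem growth (Q : ℤ[X]) : ∃ M : ℕ, ∀ m : ℕ, M ≤ m → |Q.eval (m : ℤ)| < 2 ^ m := by
  have h1 : (fun m : ℕ => (Q.map (Int.castRingHom ℝ)).eval (m : ℝ)) =o[atTop]
      fun m : ℕ => (2 : ℝ) ^ m := by
    simp only [Polynomial.eval_eq_sum_range]
    have h0 : ∀ i ∈ Finset.range ((Q.map (Int.castRingHom ℝ)).natDegree + 1),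
        (fun m : ℕ => (Q.map (Int.castRingHom ℝ)).coeff i * (m : ℝ) ^ i) =o[atTop]
          fun m : ℕ => (2 : ℝ) ^ m := by
      intro i _
      exact (isLittleO_pow_const_const_pow_of_one_lt (R := ℝ) (r := 2) i
        (by norm_num)).const_mul_left ((Q.map (Int.castRingHom ℝ)).coeff i)
    exact Asymptotics.IsLittleO.fun_sum h0
  have h2 := h1.bound (show (0 : ℝ) < 1 / 2 by norm_num)
  obtain ⟨M, hM⟩ := Filter.eventually_atTop.1 h2
  refine ⟨M, fun m hm => ?_⟩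
  have h3 := hM m hm
  have h4 : (Q.map (Int.castRingHom ℝ)).eval (m : ℝ) = ((Q.eval (m : ℤ) : ℤ) : ℝ) := by
    simp
  rw [h4, Real.norm_eq_abs, Real.norm_eq_abs, abs_of_pos (show (0 : ℝ) < 2 ^ m by positivity)]
    at h3
  have h5 : (0 : ℝ) < 2 ^ m := by positivity
  have h6 : ((|Q.eval (m : ℤ)| : ℤ) : ℝ) < ((2 ^ m : ℤ) : ℝ) := by
    push_cast
    linarith
  exact_mod_cast h6

/-- a nonzero polynomial has no large roots -/
theorem noroot (P : ℤ[X]) (hP : P ≠ 0) : ∃ M : ℕ, ∀ z : ℤ, (M : ℤ) ≤ z → P.eval z ≠ 0 := by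
  refine ⟨(∑ z ∈ P.roots.toFinset, z.natAbs) + 1, fun z hz h0 => ?_⟩
  have h1 : z ∈ P.roots.toFinset := by
    rw [Multiset.mem_toFinset, Polynomial.mem_roots hP]
    exact h0
  have h2 : z.natAbs ≤ ∑ z ∈ P.roots.toFinset, z.natAbs :=
    Finset.single_le_sum (f := fun z : ℤ => z.natAbs) (fun _ _ => Nat.zero_le _) h1
  push_cast at hz
  have h3 : (z.natAbs : ℤ) ≤ ((∑ z ∈ P.roots.toFinset, z.natAbs : ℕ) : ℤ) := by exact_mod_cast h2
  push_cast at h3
  have h4 : z ≤ |z| := le_abs_self z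
  linarith

/-- the polynomial `W` -/
noncomputable def R (w : Fin 3 → ℤ) : ℤ[X] := C (w 0) + C (w 1) * X + C (w 2) * X ^ 2

theorem R_eval (w : Fin 3 → ℤ) (z : ℤ) : (R w).eval z = Wz w z := by
  simp [R, Wz]

theorem R_ne (w : Fin 3 → ℤ) (hw : w ≠ 0) : R w ≠ 0 := by
  intro h0
  apply hw
  have hev : ∀ z : ℤ, w 0 + w 1 * z + w 2 * z ^ 2 = 0 := by
    intro z
    have h1 := R_eval w z
    rw [h0, Polynomial.eval_zero] at h1
    exact h1.symm
  have e0 := hev 0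
  have e1 := hev 1
  have e2 := hev (-1)
  have f0 : w 0 = 0 := by linarith
  have f1 : w 1 = 0 := by linarith
  have f2 : w 2 = 0 := by linarith
  funext i
  fin_cases i
  · exact f0
  · exact f1
  · exact f2

/-- the lower bound for the sum of the powers -/
theorem geo (p : ℤ) (hp : 2 ≤ |p|) (T : ℕ) :
    2 ^ T ≤ |∑ i ∈ Finset.range (T + 2), p ^ i| := by
  have h1 : (∑ i ∈ Finset.range (T + 2), p ^ i) * (p - 1) = p ^ (T + 2) - 1 :=
    geom_sum_mul p (T + 2)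
  have h2 : |∑ i ∈ Finset.range (T + 2), p ^ i| * |p - 1| = |p ^ (T + 2) - 1| := by
    rw [← abs_mul, h1]
  have h3 : |p - 1| ≤ |p| + 1 := by
    refine (abs_sub _ _).trans ?_
    rw [abs_one]
  have h4 : |p| ^ (T + 2) - 1 ≤ |p ^ (T + 2) - 1| := by
    have := abs_sub_abs_le_abs_sub (p ^ (T + 2)) 1
    rwa [abs_pow, abs_one] at this
  have h5 : (2 : ℤ) ^ T ≤ |p| ^ T := pow_le_pow_left₀ (by norm_num) hp T
  have h6 : (1 : ℤ) ≤ 2 ^ T := one_le_pow₀ (by norm_num)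
  have h7 : |p| ^ T * (|p| + 1) ≤ |p| ^ (T + 2) - 1 := by
    have e : |p| ^ (T + 2) = |p| ^ T * (|p| * |p|) := by ring
    rw [e]
    have h8 : |p| + 2 ≤ |p| * |p| := by nlinarith
    have h9 : |p| ^ T * (|p| + 2) ≤ |p| ^ T * (|p| * |p|) :=
      mul_le_mul_of_nonneg_left h8 (by linarith)
    nlinarith
  have h10 : 0 < |p| + 1 := by linarith
  have h11 : |p| ^ T * (|p| + 1) ≤ |∑ i ∈ Finset.range (T + 2), p ^ i| * (|p| + 1) := by
    calc |p| ^ T * (|p| + 1) ≤ |∑ i ∈ Finset.range (T + 2), p ^ i| * |p - 1| := by linarith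
      _ ≤ _ := mul_le_mul_of_nonneg_left h3 (abs_nonneg _)
  exact h5.trans (le_of_mul_le_mul_right h11 h10)

end P_NVP

open P_NVP Polynomial in
/-- Choice of the prime. -/
theorem t_NVP : S_NVP := by
  intro p hp w hw B
  obtain ⟨M1, hM1⟩ := noroot (R w) (R_ne w hw)
  obtain ⟨M2, hM2⟩ := growth ((R w).comp (X + 2))
  obtain ⟨T, hT, hTp⟩ := Nat.exists_infinite_primes
    (B + 3 + (p - 1).natAbs + 1 + (w 0).natAbs + (w 1).natAbs + (w 2).natAbs + M1 + M2 + 2)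
  obtain ⟨m, rfl⟩ : ∃ m, T = m + 2 := ⟨T - 2, by omega⟩
  set G : ℤ := ∑ i ∈ Finset.range (m + 2), p ^ i with hG
  have hG1 : G * (p - 1) = p ^ (m + 2) - 1 := geom_sum_mul p (m + 2)
  have hG2 : 2 ^ m ≤ |G| := geo p hp m
  set z : ℤ := Wz w ((m + 2 : ℕ) : ℤ) with hz
  have hz0 : z ≠ 0 := by
    rw [hz, ← R_eval]
    apply hM1
    have : M1 ≤ m + 2 := by omega
    exact_mod_cast this
  have hz1 : |z| < 2 ^ m := by
    have h1 := hM2 m (by omega)
    rw [Polynomial.eval_comp] at h1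
    have e : (X + 2 : ℤ[X]).eval (m : ℤ) = ((m + 2 : ℕ) : ℤ) := by simp
    rw [e, R_eval] at h1
    exact h1
  have h6 : ¬ G.natAbs ∣ z.natAbs := by
    intro h7
    have h8 := Nat.le_of_dvd (Int.natAbs_pos.2 hz0) h7
    have h9 : |G| ≤ |z| := by
      rw [Int.abs_eq_natAbs, Int.abs_eq_natAbs]
      exact_mod_cast h8
    linarith
  rw [Nat.dvd_iff_prime_pow_dvd_dvd] at h6
  push Not at h6
  obtain ⟨q, k, hq, hk1, hk2⟩ := h6
  obtain ⟨j, rfl⟩ : ∃ j, k = j + 1 := by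
    rcases Nat.eq_zero_or_pos k with h0 | h0
    · exfalso
      apply hk2
      rw [h0, pow_zero]
      exact one_dvd _
    · exact ⟨k - 1, by omega⟩
  have hqG : ((q : ℤ) ^ (j + 1)) ∣ G := by
    have h1 : ((q ^ (j + 1) : ℕ) : ℤ) ∣ G := Int.natCast_dvd.2 hk1
    push_cast at h1
    exact h1
  have hqG1 : (q : ℤ) ∣ G := (Dvd.intro_left ((q : ℤ) ^ j) (pow_succ _ _).symm).trans hqG
  have hqT : ((q : ℤ) ^ (j + 1)) ∣ p ^ (m + 2) - 1 := by
    rw [← hG1]
    exact hqG.mul_right _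
  have hqT1 : (q : ℤ) ∣ p ^ (m + 2) - 1 := by
    rw [← hG1]
    exact hqG1.mul_right _
  have : Fact q.Prime := ⟨hq⟩
  have : Fact (m + 2).Prime := ⟨hTp⟩
  have hpT : (p : ZMod q) ^ (m + 2) = 1 := by
    have h1 := (ZMod.intCast_zmod_eq_zero_iff_dvd (p ^ (m + 2) - 1) q).2 hqT1
    push_cast at h1
    exact sub_eq_zero.1 h1
  have hp0 : (p : ZMod q) ≠ 0 := by
    intro h0
    rw [h0, zero_pow (by omega)] at hpT
    exact zero_ne_one hpT
  have hp1 : (p : ZMod q) ≠ 1 := by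
    intro h1
    have h2 : ((G : ℤ) : ZMod q) = ((m + 2 : ℕ) : ZMod q) := by
      rw [hG]
      push_cast
      rw [h1]
      simp
    rw [(ZMod.intCast_zmod_eq_zero_iff_dvd G q).2 hqG1] at h2
    have h3 : q ∣ m + 2 := (ZMod.natCast_eq_zero_iff (m + 2) q).1 h2.symm
    have h4 : q = m + 2 := (Nat.prime_dvd_prime_iff_eq hq hTp).1 h3
    have h5 : ((p - 1 : ℤ) : ZMod q) = 0 := by
      push_cast
      rw [h1, sub_self]
    have h6 : (q : ℤ) ∣ p - 1 := (ZMod.intCast_zmod_eq_zero_iff_dvd (p - 1) q).1 h5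
    have h7 : q ∣ (p - 1).natAbs := Int.natCast_dvd.1 h6
    have h8 : p - 1 ≠ 0 := by
      intro h
      have : p = 1 := by linarith
      rw [this] at hp
      norm_num at hp
    have h9 := Nat.le_of_dvd (Int.natAbs_pos.2 h8) h7
    omega
  have hord : orderOf (p : ZMod q) = m + 2 := orderOf_eq_prime hpT hp1
  have hTq : m + 2 < q := by
    have h1 := ZMod.orderOf_dvd_card_sub_one hp0
    rw [hord] at h1
    have h2 := hq.two_le
    have h3 := Nat.le_of_dvd (by omega) h1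
    omega
  refine ⟨m + 2, q, j, by omega, by omega, hq, hTq, ?_, ?_, ?_, hqT, ?_⟩
  · intro h
    exact hp0 ((ZMod.intCast_zmod_eq_zero_iff_dvd p q).2 h)
  · intro i hi h
    have h1 : q ∣ (w i).natAbs := Int.natCast_dvd.1 h
    have h2 := Nat.le_of_dvd (Int.natAbs_pos.2 hi) h1
    have h3 : (w i).natAbs < m + 2 := by
      fin_cases i
      · show (w 0).natAbs < m + 2
        omega
      · show (w 1).natAbs < m + 2
        omega
      · show (w 2).natAbs < m + 2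
        omega
    omega
  · intro l hl1 hl2 hlT h
    have h1 : (p : ZMod q) ^ l = 1 := by
      have h2 := (ZMod.intCast_zmod_eq_zero_iff_dvd (p ^ l - 1) q).2 h
      push_cast at h2
      exact sub_eq_zero.1 h2
    have h2 := orderOf_dvd_of_pow_eq_one h1
    rw [hord] at h2
    obtain ⟨c, rfl⟩ := h2
    have hc1 : c ≠ 0 := by
      rintro rfl
      omega
    have hc2 : c ≠ 1 := by
      rintro rfl
      exact hlT (mul_one _)
    have hc3 : 2 ≤ c := by omega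
    have : (m + 2) * 2 ≤ (m + 2) * c := Nat.mul_le_mul_left _ hc3
    omega
  · intro h
    apply hk2
    have h8 : ((q ^ (j + 1) : ℕ) : ℤ) ∣ z := by
      push_cast
      exact h
    exact Int.natCast_dvd.1 h8

end Pool.Agent.H410.QL
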