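import Pool.Agent.H410.QL.P_SUM
import Pool.Agent.H410.QL.P_CF
import Pool.Agent.H410.QL.P_TR
import Pool.Agent.H410.QL.P_E1
import Pool.Agent.H410.QL.P_RD
import Pool.Agent.H410.QL.P_EIJ
import Pool.Agent.H410.QL.P_INT
import Pool.Agent.H410.QL.P_HX
import Pool.Agent.H410.QL.P_HP
import Pool.Agent.H410.QL.P_PAD
import Pool.Agent.H410.QL.P_LOW
import Pool.Agent.H410.QL.P_TS
import Pool.Agent.H410.QL.P_TT
import Pool.Agent.H410.QL.P_T2
import Pool.Agent.H410.QL.P_RB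
import Pool.Agent.H410.QL.P_ASER
import Pool.Agent.H410.QL.P_HLL
import Pool.Agent.H410.QL.P_VAN
import Pool.Agent.H410.QL.P_KB
import Pool.Agent.H410.QL.P_UP1
import Pool.Agent.H410.QL.P_VB
import Pool.Agent.H410.QL.P_UP
import Pool.Agent.H410.QL.P_NVP
import Pool.Agent.H410.QL.P_NVL
import Pool.Agent.H410.QL.P_NV
import Pool.Agent.H410.QL.P_FIN
import Pool.Agent.H410.QL.P_LI
import Pool.Agent.H410.NQ.P_MON
import Pool.Agent.H410.NQ.P_PK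
import Pool.Agent.H410.NQ.P_E2
import Pool.Agent.H410.NQ.P_OM
import Pool.Agent.H410.NQ.P_SV
import Pool.Agent.H410.FL.P_KER
import Pool.Agent.H475.QZ.P_B1
import Pool.Agent.H475.QZ.P_PHI
import Pool.Agent.H475.QZ.P_DET
import Pool.Agent.H475.QZ.P_DU
import Pool.Agent.H475.QZ.P_LAG
import Pool.Agent.H475.QZ.P_NU
import Pool.Agent.H475.QZ.P_NUE
import Pool.Agent.H475.QZ.P_NUQ
import Pool.Agent.H475.QZ.P_NUX
import Pool.Agent.H475.QZ.P_DEG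
import Pool.Agent.H475.QZ.P_DVD

/-!
Assembly (helper410).
-/

namespace Pool.Agent.H410.QL

theorem main : S_LI := by
  have hSUM := t_SUM
  have hCF := t_CF hSUM
  have hMON := Pool.Agent.H410.NQ.t_MON
  have hB1 := Pool.Agent.H475.QZ.t_B1
  have hPK := Pool.Agent.H410.NQ.t_PK
  have hOM := Pool.Agent.H410.NQ.t_OM
  have hINT := t_INT t_TR hMON (t_E1 hPK hB1) (Pool.Agent.H410.NQ.t_E2 hPK hB1) t_RD (t_EIJ hMON)
  have hPAD := t_PAD t_TR hMON hOM (t_HP hMON hOM t_HX)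
  have hLOW := t_LOW hINT hPAD
  have hPHI := Pool.Agent.H475.QZ.t_PHI
  have hRB := t_RB hPHI (t_T2 (t_TT t_TS))
  have hHLL := t_HLL (t_ASER hSUM Pool.Agent.H410.FL.t_KER) Pool.Agent.H475.QZ.t_LAG
  have hNU := Pool.Agent.H475.QZ.t_NU
  have hNUX := Pool.Agent.H475.QZ.t_NUX hNU
  have hKB := t_KB hNU hNUX (Pool.Agent.H475.QZ.t_NUQ hNU) (Pool.Agent.H475.QZ.t_NUE hNU hNUX)
  have hDEG := Pool.Agent.H475.QZ.t_DEG
  have hUP1 := t_UP1 hHLL t_VAN hKB Pool.Agent.H475.QZ.t_DVD hDEG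
  have hUP := t_UP Pool.Agent.H475.QZ.t_DET hUP1 hDEG t_VB Pool.Agent.H475.QZ.t_DU
  have hNV := t_NV t_NVP t_NVL
  exact t_LI hSUM (t_FIN hCF hNV hLOW Pool.Agent.H410.NQ.t_SV hRB hUP)

end Pool.Agent.H410.QL
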