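import Pool.Agent.H410.QL.Stm

/-!
Size of `RT` (helper308 for helper410; after helper339).
-/

namespace Pool.Agent.H410.QL

open Finset

namespace P_RB

theorem card1 (n j : ℕ) (hj : j < 2 * n + 1) :
    (Ioc j n).card + (Ioc n (j + 1)).card ≤ 2 * n + 1 := by
  rw [Nat.card_Ioc, Nat.card_Ioc]
  omega

theorem sum1 (n : ℕ) : ∑ _i ∈ range (2 * n + 1), ∑ d ∈ Icc 1 n, Nat.totient d =
    ∑ d ∈ Icc 1 n, (2 * n + 1) * Nat.totient d := by
  rw [Finset.sum_const, card_range, smul_eq_mul, Finset.mul_sum]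

theorem sum2 (n : ℕ) : ∑ i ∈ range (2 * n + 1), ∑ d ∈ Icc 1 (min i n), Nat.totient d =
    ∑ d ∈ Icc 1 n, (2 * n + 1 - d) * Nat.totient d := by
  rw [Finset.sum_comm' (s' := fun d => Ico d (2 * n + 1)) (t' := Icc 1 n)]
  · refine Finset.sum_congr rfl fun d _ => ?_
    rw [Finset.sum_const, Nat.card_Ico, smul_eq_mul]
  · intro x y
    simp only [mem_range, mem_Ico, mem_Icc, le_min_iff]
    omega

theorem sum3 (n : ℕ) : ∑ i ∈ range (2 * n + 1), ∑ d ∈ Ioc n i, Nat.totient d =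
    ∑ d ∈ Ioc n (2 * n + 1), (2 * n + 1 - d) * Nat.totient d := by
  rw [Finset.sum_comm' (s' := fun d => Ico d (2 * n + 1)) (t' := Ioc n (2 * n + 1))]
  · refine Finset.sum_congr rfl fun d _ => ?_
    rw [Finset.sum_const, Nat.card_Ico, smul_eq_mul]
  · intro x y
    simp only [mem_range, mem_Ico, mem_Ioc]
    omega

theorem sumA (n : ℕ) : ∑ i ∈ range (2 * n + 1), ∑ d ∈ Ioc i n, Nat.totient d =
    ∑ d ∈ Icc 1 n, d * Nat.totient d := by
  rw [Finset.sum_comm' (s' := fun d => range d) (t' := Icc 1 n)]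
  · refine Finset.sum_congr rfl fun d _ => ?_
    rw [Finset.sum_const, card_range, smul_eq_mul]
  · intro x y
    simp only [mem_range, mem_Ioc, mem_Icc]
    omega

theorem sumB (n : ℕ) : ∑ i ∈ range (2 * n + 1), ∑ d ∈ Ioc n (i + 1), Nat.totient d =
    ∑ d ∈ Ioc n (2 * n + 1), (2 * n + 2 - d) * Nat.totient d := by
  rw [Finset.sum_comm' (s' := fun d => Ico (d - 1) (2 * n + 1)) (t' := Ioc n (2 * n + 1))]
  · refine Finset.sum_congr rfl fun d hd => ?_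
    rw [Finset.sum_const, Nat.card_Ico, smul_eq_mul]
    have h1 := mem_Ioc.1 hd
    have h2 : 2 * n + 1 - (d - 1) = 2 * n + 2 - d := by omega
    rw [h2]
  · intro x y
    simp only [mem_range, mem_Ioc, mem_Ico]
    omega

/-- the exponent of a row -/
def Er (n i : ℕ) : ℕ := ∑ d ∈ Icc 1 n, Nat.totient d + ∑ d ∈ Icc 1 (min i n), Nat.totient d +
  3 * ∑ d ∈ Ioc n i, Nat.totient d

/-- the exponent of a column -/
def Ec (n j : ℕ) : ℕ := ∑ d ∈ Ioc j n, Nat.totient d + ∑ d ∈ Ioc n (j + 1), Nat.totient d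

theorem sum_all (n : ℕ) : ∑ i ∈ range (2 * n + 1), Er n i + ∑ j ∈ range (2 * n + 1), Ec n j =
    Psi n := by
  simp only [Er, Ec]
  rw [Finset.sum_add_distrib, Finset.sum_add_distrib, Finset.sum_add_distrib, ← Finset.mul_sum,
    sum1, sum2, sum3, sumA, sumB, Psi]
  have h1 : ∑ d ∈ Icc 1 n, (4 * n + 2) * Nat.totient d =
      ∑ d ∈ Icc 1 n, (2 * n + 1) * Nat.totient d +
        ∑ d ∈ Icc 1 n, (2 * n + 1 - d) * Nat.totient d + ∑ d ∈ Icc 1 n, d * Nat.totient d := by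
    rw [← Finset.sum_add_distrib, ← Finset.sum_add_distrib]
    refine Finset.sum_congr rfl fun d hd => ?_
    have h2 := mem_Icc.1 hd
    have h3 : 4 * n + 2 = (2 * n + 1) + (2 * n + 1 - d) + d := by omega
    rw [h3, add_mul, add_mul]
  have h4 : ∑ d ∈ Ioc n (2 * n + 1), (4 * (2 * n + 1 - d) + 1) * Nat.totient d =
      3 * ∑ d ∈ Ioc n (2 * n + 1), (2 * n + 1 - d) * Nat.totient d +
        ∑ d ∈ Ioc n (2 * n + 1), (2 * n + 2 - d) * Nat.totient d := by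
    rw [Finset.mul_sum, ← Finset.sum_add_distrib]
    refine Finset.sum_congr rfl fun d hd => ?_
    have h2 := mem_Ioc.1 hd
    have h3 : 4 * (2 * n + 1 - d) + 1 = 3 * (2 * n + 1 - d) + (2 * n + 2 - d) := by omega
    rw [h3, add_mul, mul_assoc]
  rw [h1, h4]
  ring

theorem ph_le (hPHI : Pool.Agent.H475.QZ.S_PHI) {p : ℤ} (hp : 2 ≤ |p|) {d : ℕ} (hd : 1 ≤ d) :
    |NQ.ph p d| ≤ |p| ^ (2 + Nat.totient d) := by
  have h1 := hPHI p d hp hd
  have h2 : (4 : ℤ) ≤ |p| ^ 2 := by nlinarith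
  have h3 : (0 : ℤ) ≤ |p| ^ Nat.totient d := by positivity
  rw [pow_add]
  exact h1.trans (mul_le_mul_of_nonneg_right h2 h3)

theorem prod_le (hPHI : Pool.Agent.H475.QZ.S_PHI) {p : ℤ} (hp : 2 ≤ |p|) (a b : ℕ) :
    |∏ d ∈ Ioc a b, NQ.ph p d| ≤
      |p| ^ (2 * (Ioc a b).card + ∑ d ∈ Ioc a b, Nat.totient d) := by
  rw [Finset.abs_prod]
  calc ∏ d ∈ Ioc a b, |NQ.ph p d| ≤ ∏ d ∈ Ioc a b, |p| ^ (2 + Nat.totient d) :=
        Finset.prod_le_prod (fun d _ => abs_nonneg _) fun d hd =>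
          ph_le hPHI hp (by have := (mem_Ioc.1 hd).1; omega)
    _ = |p| ^ (∑ d ∈ Ioc a b, (2 + Nat.totient d)) := Finset.prod_pow_eq_pow_sum _ _ _
    _ = _ := by
        rw [Finset.sum_add_distrib, Finset.sum_const, smul_eq_mul, mul_comm 2]

theorem Icc_eq (m : ℕ) : Icc 1 m = Ioc 0 m := by
  ext x
  rw [mem_Icc, mem_Ioc]
  omega

theorem rc_le (hPHI : Pool.Agent.H475.QZ.S_PHI) {p : ℤ} (hp : 2 ≤ |p|) (n j : ℕ)
    (hj : j < 2 * n + 1) : |Rc p n j| ≤ |p| ^ (4 * n + 2 + Ec n j) := by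
  have h1 := prod_le hPHI hp j n
  have h2 := prod_le hPHI hp n (j + 1)
  have h3 := card1 n j hj
  rw [Rc, NQ.rr, abs_mul]
  calc |∏ d ∈ Ioc j n, NQ.ph p d| * |∏ d ∈ Ioc n (j + 1), NQ.ph p d|
      ≤ |p| ^ (2 * (Ioc j n).card + ∑ d ∈ Ioc j n, Nat.totient d) *
        |p| ^ (2 * (Ioc n (j + 1)).card + ∑ d ∈ Ioc n (j + 1), Nat.totient d) :=
        mul_le_mul h1 h2 (abs_nonneg _) (by positivity)
    _ = |p| ^ ((2 * (Ioc j n).card + ∑ d ∈ Ioc j n, Nat.totient d) +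
        (2 * (Ioc n (j + 1)).card + ∑ d ∈ Ioc n (j + 1), Nat.totient d)) := (pow_add _ _ _).symm
    _ ≤ _ := pow_le_pow_right₀ (by linarith) (by rw [Ec]; omega)

theorem rr_le (hPHI : Pool.Agent.H475.QZ.S_PHI) {p : ℤ} (hp : 2 ≤ |p|) (n i : ℕ)
    (hi : i < 2 * n + 1) : |Rr p n i| ≤ |p| ^ (10 * n + Er n i) := by
  have h1 := prod_le hPHI hp 0 n
  have h2 := prod_le hPHI hp 0 (min i n)
  have h3 := pow_le_pow_left₀ (abs_nonneg _) (prod_le hPHI hp n i) 3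
  rw [Nat.card_Ioc] at h1 h2 h3
  rw [Rr, Finset.prod_pow, abs_mul, abs_mul, abs_pow, Er, Icc_eq, Icc_eq]
  calc |∏ d ∈ Ioc 0 n, NQ.ph p d| * |∏ d ∈ Ioc 0 (min i n), NQ.ph p d| *
        |∏ d ∈ Ioc n i, NQ.ph p d| ^ 3
      ≤ |p| ^ (2 * (n - 0) + ∑ d ∈ Ioc 0 n, Nat.totient d) *
        |p| ^ (2 * (min i n - 0) + ∑ d ∈ Ioc 0 (min i n), Nat.totient d) *
        (|p| ^ (2 * (i - n) + ∑ d ∈ Ioc n i, Nat.totient d)) ^ 3 :=
        mul_le_mul (mul_le_mul h1 h2 (abs_nonneg _) (by positivity)) h3 (by positivity)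
          (by positivity)
    _ = |p| ^ ((2 * (n - 0) + ∑ d ∈ Ioc 0 n, Nat.totient d) +
        (2 * (min i n - 0) + ∑ d ∈ Ioc 0 (min i n), Nat.totient d) +
        (2 * (i - n) + ∑ d ∈ Ioc n i, Nat.totient d) * 3) := by
        rw [← pow_mul, ← pow_add, ← pow_add]
    _ ≤ _ := pow_le_pow_right₀ (by linarith) (by omega)

theorem RT_le (hPHI : Pool.Agent.H475.QZ.S_PHI) {p : ℤ} (hp : 2 ≤ |p|) (n : ℕ) :
    |RT p n| ≤ |p| ^ ((2 * n + 1) * (14 * n + 2) + Psi n) := by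
  have hs : ∑ i ∈ range (2 * n + 1), (10 * n + Er n i) +
      ∑ j ∈ range (2 * n + 1), (4 * n + 2 + Ec n j) =
      (2 * n + 1) * (14 * n + 2) + Psi n := by
    rw [← sum_all, Finset.sum_add_distrib, Finset.sum_add_distrib, Finset.sum_const,
      Finset.sum_const, card_range, smul_eq_mul, smul_eq_mul]
    ring
  have h1 : |∏ i ∈ range (2 * n + 1), Rr p n i| ≤
      |p| ^ (∑ i ∈ range (2 * n + 1), (10 * n + Er n i)) := by
    rw [Finset.abs_prod, ← Finset.prod_pow_eq_pow_sum]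
    exact Finset.prod_le_prod (fun i _ => abs_nonneg _) fun i hi =>
      rr_le hPHI hp n i (mem_range.1 hi)
  have h2 : |∏ j ∈ range (2 * n + 1), Rc p n j| ≤
      |p| ^ (∑ j ∈ range (2 * n + 1), (4 * n + 2 + Ec n j)) := by
    rw [Finset.abs_prod, ← Finset.prod_pow_eq_pow_sum]
    exact Finset.prod_le_prod (fun i _ => abs_nonneg _) fun i hi =>
      rc_le hPHI hp n i (mem_range.1 hi)
  rw [RT, abs_mul, ← hs, pow_add]
  exact mul_le_mul h1 h2 (abs_nonneg _) (by positivity)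

end P_RB

open P_RB in
theorem t_RB (hPHI : Pool.Agent.H475.QZ.S_PHI) (hT2 : S_T2) : S_RB := by
  intro p hp
  obtain ⟨C, hC⟩ := hT2
  refine ⟨1440000 + C, fun n hn => ?_⟩
  have h1 := RT_le hPHI hp n
  obtain ⟨K, hK⟩ : ∃ K : ℕ, K = 30000 := ⟨_, rfl⟩
  have h2 : |RT p n| ^ K ≤ |p| ^ (86576 * n ^ 3 + (1440000 + C) * n ^ 2) := by
    calc |RT p n| ^ K ≤ (|p| ^ ((2 * n + 1) * (14 * n + 2) + Psi n)) ^ K :=
          pow_le_pow_left₀ (abs_nonneg _) h1 K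
      _ = |p| ^ (((2 * n + 1) * (14 * n + 2) + Psi n) * K) := (pow_mul _ _ _).symm
      _ ≤ _ := by
          refine pow_le_pow_right₀ (by linarith) ?_
          have h3 := hC n hn
          rw [hK]
          nlinarith
  have h3 : (((|RT p n| ^ K : ℤ)) : ℝ) ≤
      ((|p| ^ (86576 * n ^ 3 + (1440000 + C) * n ^ 2) : ℤ) : ℝ) := by
    exact_mod_cast h2
  rw [Int.cast_pow, Int.cast_pow, Int.cast_abs, Int.cast_abs] at h3
  rw [← hK]
  exact h3

end Pool.Agent.H410.QL
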