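import Pool.Agent.H410.QL.Stm

/-!
Summability of the series of project QL (helper224 for helper410).
-/

set_option autoImplicit false

namespace Pool.Agent.H410.QL.P_SUM

open Finset

theorem abs_pow_sub {p : ℤ} (hp : 2 ≤ |p|) {e : ℕ} (he : 1 ≤ e) :
    (2 : ℝ) ^ e / 2 ≤ |(p : ℝ) ^ e - 1| := by
  have hpR : (2 : ℝ) ≤ |(p : ℝ)| := by
    have h1 : ((2 : ℤ) : ℝ) ≤ ((|p| : ℤ) : ℝ) := by exact_mod_cast hp
    rw [Int.cast_abs] at h1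
    norm_num at h1
    exact h1
  have h2 : (2 : ℝ) ^ e ≤ |(p : ℝ)| ^ e := pow_le_pow_left₀ (by norm_num) hpR e
  have h3 : (2 : ℝ) ≤ 2 ^ e := by
    calc (2 : ℝ) = 2 ^ 1 := (pow_one _).symm
      _ ≤ 2 ^ e := pow_le_pow_right₀ (by norm_num) he
  have h4 : |(p : ℝ)| ^ e - 1 ≤ |(p : ℝ) ^ e - 1| := by
    rw [← abs_pow]
    have := abs_sub_abs_le_abs_sub ((p : ℝ) ^ e) 1
    rwa [abs_one] at this
  linarith

theorem abs_W (w : Fin 3 → ℤ) (e : ℕ) :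
    |(Wz w e : ℝ)| ≤ (|(w 0 : ℝ)| + |(w 1 : ℝ)| + |(w 2 : ℝ)|) * ((e : ℝ) + 1) ^ 2 := by
  unfold Wz
  push_cast
  have he : (0 : ℝ) ≤ e := Nat.cast_nonneg e
  have h1 : |(w 0 : ℝ) + w 1 * e + w 2 * (e : ℝ) ^ 2| ≤
      |(w 0 : ℝ)| + |(w 1 : ℝ)| * e + |(w 2 : ℝ)| * (e : ℝ) ^ 2 := by
    refine (abs_add_le _ _).trans ?_
    refine add_le_add ((abs_add_le _ _).trans ?_) ?_
    · rw [abs_mul, abs_of_nonneg he]
    · rw [abs_mul, abs_of_nonneg (sq_nonneg (e : ℝ))]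
  refine h1.trans ?_
  have h2 : (1 : ℝ) ≤ ((e : ℝ) + 1) ^ 2 := by nlinarith
  have h3 : (e : ℝ) ≤ ((e : ℝ) + 1) ^ 2 := by nlinarith
  have h4 : (e : ℝ) ^ 2 ≤ ((e : ℝ) + 1) ^ 2 := by nlinarith
  have a0 := mul_le_mul_of_nonneg_left h2 (abs_nonneg (w 0 : ℝ))
  have a1 := mul_le_mul_of_nonneg_left h3 (abs_nonneg (w 1 : ℝ))
  have a2 := mul_le_mul_of_nonneg_left h4 (abs_nonneg (w 2 : ℝ))
  rw [mul_one] at a0
  linarith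

theorem abs_cR {p : ℤ} (hp : 2 ≤ |p|) (w : Fin 3 → ℤ) {e : ℕ} (he : 1 ≤ e) :
    |cR p w e| ≤ 4 * (|(w 0 : ℝ)| + |(w 1 : ℝ)| + |(w 2 : ℝ)|) *
      ((((e + 1 : ℕ) : ℝ)) ^ 2 * (1 / 2 : ℝ) ^ (e + 1)) := by
  unfold cR
  rw [abs_div]
  have h1 := abs_pow_sub hp he
  have h2 := abs_W w e
  have h0 : (0 : ℝ) < 2 ^ e / 2 := by positivity
  have h3 : (0 : ℝ) < |(p : ℝ) ^ e - 1| := lt_of_lt_of_le h0 h1
  rw [div_le_iff₀ h3]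
  refine h2.trans ?_
  have h5 : 4 * (|(w 0 : ℝ)| + |(w 1 : ℝ)| + |(w 2 : ℝ)|) *
      ((((e + 1 : ℕ) : ℝ)) ^ 2 * (1 / 2 : ℝ) ^ (e + 1)) * (2 ^ e / 2) =
      (|(w 0 : ℝ)| + |(w 1 : ℝ)| + |(w 2 : ℝ)|) * ((e : ℝ) + 1) ^ 2 := by
    have h6 : (1 / 2 : ℝ) ^ (e + 1) * (2 ^ e / 2) = 1 / 4 := by
      rw [pow_succ, one_div, inv_pow]
      field_simp
      norm_num
    push_cast
    calc 4 * (|(w 0 : ℝ)| + |(w 1 : ℝ)| + |(w 2 : ℝ)|) *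
        (((e : ℝ) + 1) ^ 2 * (1 / 2 : ℝ) ^ (e + 1)) * (2 ^ e / 2) =
        4 * (|(w 0 : ℝ)| + |(w 1 : ℝ)| + |(w 2 : ℝ)|) * ((e : ℝ) + 1) ^ 2 *
          ((1 / 2 : ℝ) ^ (e + 1) * (2 ^ e / 2)) := by ring
      _ = _ := by rw [h6]; ring
  rw [← h5]
  exact mul_le_mul_of_nonneg_left h1 (by positivity)

theorem geo : Summable (fun m : ℕ => ((m : ℝ)) ^ 2 * (1 / 2 : ℝ) ^ m) :=
  summable_pow_mul_geometric_of_norm_lt_one 2 (by norm_num)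

theorem main {p : ℤ} (hp : 2 ≤ |p|) (w : Fin 3 → ℤ) (k J : ℕ) :
    Summable (fun e : ℕ => ((p : ℝ) ^ (k * (e + 1)))⁻¹ * cR p w (e + 1 + J)) := by
  have h1 : Summable (fun e : ℕ => 4 * (|(w 0 : ℝ)| + |(w 1 : ℝ)| + |(w 2 : ℝ)|) *
      ((((e + (J + 2) : ℕ) : ℝ)) ^ 2 * (1 / 2 : ℝ) ^ (e + (J + 2)))) :=
    ((summable_nat_add_iff (J + 2)).2 geo).mul_left _
  refine Summable.of_norm_bounded h1 fun e => ?_
  rw [norm_mul, Real.norm_eq_abs, Real.norm_eq_abs]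
  have h2 := abs_cR hp w (e := e + 1 + J) (by omega)
  have e1 : e + 1 + J + 1 = e + (J + 2) := by omega
  rw [e1] at h2
  have h3 : |((p : ℝ) ^ (k * (e + 1)))⁻¹| ≤ 1 := by
    rw [abs_inv, abs_pow]
    refine inv_le_one_of_one_le₀ (one_le_pow₀ ?_)
    have h4 : ((2 : ℤ) : ℝ) ≤ ((|p| : ℤ) : ℝ) := by exact_mod_cast hp
    rw [Int.cast_abs] at h4
    norm_num at h4
    linarith
  calc |((p : ℝ) ^ (k * (e + 1)))⁻¹| * |cR p w (e + 1 + J)| ≤ 1 * |cR p w (e + 1 + J)| :=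
        mul_le_mul_of_nonneg_right h3 (abs_nonneg _)
    _ = |cR p w (e + 1 + J)| := one_mul _
    _ ≤ _ := h2

end Pool.Agent.H410.QL.P_SUM

namespace Pool.Agent.H410.QL

theorem t_SUM : S_SUM := by
  intro p hp w
  refine ⟨fun k J => P_SUM.main hp w k J, ?_⟩
  have h := P_SUM.main hp w 0 0
  refine h.congr fun e => ?_
  rw [zero_mul, pow_zero, inv_one, one_mul, add_zero]

end Pool.Agent.H410.QL
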