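import Pool.Agent.H410.QL.Defs
import Pool.Agent.H410.NQ.Stm
import Pool.Agent.H410.FL.Stm
import Pool.Agent.H475.QZ.Stm

/-!
Statements (with complete paper proofs in the docstrings) for the theorem: for every integer `p`,
`|p| ≥ 2`, the numbers `1, ∑ 1/(p^n-1), ∑ n/(p^n-1), ∑ n^2/(p^n-1)` are linearly independent over
`ℚ` (helper410). Definitions in `QL/Defs.lean`. `NQ.S_*`: `Pool/Agent/H410/NQ/Stm.lean`,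
`FL.S_*`: `Pool/Agent/H410/FL/Stm.lean`, `QZ.S_*`: `Pool/Agent/H475/QZ/Stm.lean`; all of them are
proved, in the files `P_NAME.lean` of these folders, and most statements below are small
modifications of one of them (`[QZ: NAME]` etc., the model file). Throughout `P = |p| ≥ 2`,
`q = 1/p`, `W = Wz w`, `D_k = ∏_{d ≤ k} Φ_d(p)` (`QZ.D`), `P_i = NQ.PP p i`, `Ω_r = NQ.Om p r`.
-/

namespace Pool.Agent.H410.QL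

open Finset Polynomial
open Pool.Agent.H410.NQ (ph PP Om vv rr)
open Pool.Agent.H410.FL (Dg Wt nw)
open Pool.Agent.H475.QZ (D RpS pik VV xx XX QQ EE FF nu ea C3 ww)

/-! ## A. series -/

/-- Summability. [QZ: SUM] -/
def S_SUM : Prop := ∀ p : ℤ, 2 ≤ |p| → ∀ w : Fin 3 → ℤ,
  (∀ k J : ℕ, Summable (fun e : ℕ => ((p : ℝ) ^ (k * (e + 1)))⁻¹ * cR p w (e + 1 + J))) ∧
  Summable (fun e : ℕ => cR p w (e + 1))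

/-- Closed form of `a(k,J)`. [QZ: CF]
Proof. `b_k = ∑_{e ≥ 1} q^{ke} c_e`, `b_0 = Z`. `b_k - b_{k+1} = ∑_{e≥1} W(e) y^e`, `y = q^{k+1}`,
`= w 0 y/(1-y) + w 1 y/(1-y)^2 + w 2 y(1+y)/(1-y)^3 = h_{k+1}`. So `b_k = Z - H_k`, and
`a(k,J) = p^{kJ} (b_k - ∑_{e=1}^J q^{ke} c_e)`. -/
def S_CF : Prop := ∀ p : ℤ, 2 ≤ |p| → ∀ (w : Fin 3 → ℤ) (k J : ℕ),
  aR p w k J = (p : ℝ) ^ (k * J) * (ZZ p w - ((hq p w k : ℚ) : ℝ)) -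
    ∑ e ∈ Icc 1 J, (p : ℝ) ^ (k * (J - e)) * ((cq p w e : ℚ) : ℝ)

/-! ## B. integrality -/

/-- Row and column transformation over `ℚ`. [NQ: TR1, TR2] -/
def S_TR : Prop := ∀ (N : ℕ) (A : Matrix (Fin N) (Fin N) ℚ) (F : ℕ → Polynomial ℤ),
  (∀ i, (F i).Monic ∧ (F i).natDegree = i) →
  (Matrix.of fun i j : Fin N => ∑ k : Fin N, (((F i).coeff k : ℤ) : ℚ) * A k j).det = A.det ∧
  (Matrix.of fun i j : Fin N => ∑ k : Fin N, ∑ l : Fin N,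
    (((F i).coeff k : ℤ) : ℚ) * A k l * (((F j).coeff l : ℤ) : ℚ)).det = A.det

/-- First part of the entries. [NQ: E1]
Proof. If `k < j` then `P_j(p^k) = 0`. If `j ≤ k ≤ i`: `P_j(p^k) = D_j Y` (`NQ.S_PK`),
`min i j = j`, and `D_j · D_j^2 · (∏_{j<d≤i} Φ_d)^3 = D_i^3`, and `(p^l-1) ∣ D_i` for `1 ≤ l ≤ k`
(`QZ.S_B1`), so `D_i^3 h_l` is an integer. -/
def S_E1 : Prop := ∀ p : ℤ, 2 ≤ |p| → ∀ (w : Fin 3 → ℤ) (i j k : ℕ), k ≤ i →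
  ∃ m : ℤ, (((∏ d ∈ Ioc j i, ph p d) ^ 3 * (∏ d ∈ Icc 1 (min i j), ph p d) ^ 2 : ℤ) : ℚ) *
    (((PP p j).eval (p ^ k) : ℤ) : ℚ) * hq p w k = m

/-- Divisibility of the factors.
Proof. Write everything as `∏_{1 ≤ d ≤ M} Φ_d^{e(d)}`, `M = max(n, i, j+1)`, and compare the
exponents. `Rr n i`: `1 + [d ≤ i]` for `d ≤ n`, `3 [d ≤ i]` for `d > n`; `Rc n j`: `[j < d]` for
`d ≤ n`, `[d ≤ j+1]` for `d > n`. First claim: needed `3` for `j < d ≤ i`, `2` for `d ≤ min(i,j)`.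
Second claim: needed `1` for `i < d ≤ j+1`. -/
def S_RD : Prop := ∀ (p : ℤ) (n i j : ℕ),
  ((∏ d ∈ Ioc j i, ph p d) ^ 3 * (∏ d ∈ Icc 1 (min i j), ph p d) ^ 2) ∣ Rr p n i * Rc p n j ∧
  (∏ d ∈ Ioc i (j + 1), ph p d) ∣ Rr p n i * Rc p n j

/-- The transformed entries (`i, j < N`). [NQ: EIJ] (the same proof, over `ℚ`) -/
def S_EIJ : Prop := ∀ (p : ℤ) (w : Fin 3 → ℤ) (s : ℤ) (N i j : ℕ), i < N → j < N →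
  ∑ k ∈ range N, ∑ l ∈ range N,
    (((PP p i).coeff k : ℤ) : ℚ) * Aq p w s k (l + 1) * (((PP p j).coeff l : ℤ) : ℚ) =
  (∑ k ∈ range N, (((PP p i).coeff k : ℤ) : ℚ) * (p : ℚ) ^ k *
    (((PP p j).eval (p ^ k) : ℤ) : ℚ) * ((s : ℚ) - hq p w k)) -
  ∑ l ∈ range N, (((PP p j).coeff l : ℤ) : ℚ) * ∑ e ∈ Icc 1 (l + 1),
    (((PP p i).eval (p ^ (l + 1 - e)) : ℤ) : ℚ) * cq p w e

/-- Integrality of the determinant, `N = 2n+1`. [NQ: INT]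
Proof. By `S_EIJ` and `S_RD`, `S_E1`, `NQ.S_E2` (`c_e = W(e)/(p^e-1)`, `W(e)` an integer) the numbers
`Rr i · Rc j · E_ij` are integers (`coeff_k P_i = 0` for `k > i`, `coeff_l P_j = 0` for `l > j`); their
determinant is `RT det(E_ij)` (`Matrix.det_mul_row`, `Matrix.det_mul_column`) and
`det(E_ij) = det MQ` by `S_TR` with `F = PP p` (`NQ.S_MON`). -/
def S_INT : Prop := ∀ p : ℤ, 2 ≤ |p| → ∀ (w : Fin 3 → ℤ) (s : ℤ) (n : ℕ),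
  ∃ X : ℤ, (X : ℚ) = (RT p n : ℚ) * (MQ p w s (2 * n + 1)).det

/-! ## C. the `p`-adic gain -/

/-- Expansion of `H_k`. [NQ: HX, QZ: HS]
Proof. For `y = p^l ≠ 1`: `1/(y-1) = -∑_{f<F} y^f + y^F/(y-1)`,
`y/(y-1)^2 = ∑_{f<F} f y^f + y^F (F - (F-1) y)/(y-1)^2`,
`y(y+1)/(y-1)^3 = -∑_{f<F} f^2 y^f + y^F v(y)/(y-1)^3` with an integral polynomial `v` (induction on
`F`; e.g. `v_F(y) = F^2 - (2F^2-2F-1) y + (F-1)^2 y^2`). So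
`h_l = -∑_{f<F} W(-f) y^f + y^F u/(y-1)^3` with an integer `u`. Sum over `1 ≤ l ≤ k`, the term `f = 0`
gives `-w 0 k`, and `∑_{l=1}^k p^{lf} = p^f (p^{kf}-1)/(p^f-1)` for `f ≥ 1`. -/
def S_HX : Prop := ∀ p : ℤ, 2 ≤ |p| → ∀ (w : Fin 3 → ℤ) (F k : ℕ), 1 ≤ F → ∃ u : ℕ → ℤ,
  hq p w k = -((w 0 : ℚ) * k) -
    (∑ f ∈ Ico 1 F, (Wz w (-(f : ℤ)) : ℚ) *
      ((p : ℚ) ^ f * ((p : ℚ) ^ (k * f) - 1) / ((p : ℚ) ^ f - 1))) +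
    ∑ l ∈ Icc 1 k, (p : ℚ) ^ (l * F) * (u l : ℚ) / ((p : ℚ) ^ l - 1) ^ 3

/-- `∑_k coeff_k(Ω_r) p^{km} H_k ∈ p^{vv r} R_p`. [NQ: HP] (the same proof, with `S_HX`) -/
def S_HP : Prop := ∀ p : ℤ, 2 ≤ |p| → ∀ (w : Fin 3 → ℤ) (r m : ℕ),
  (∑ k ∈ range (r + 1), (((Om p r).coeff k : ℤ) : ℚ) * (p : ℚ) ^ (k * m) * hq p w k) /
    (p : ℚ) ^ vv r ∈ RpS p

/-- The `p`-adic gain. [NQ: PAD]
Proof. Row transformation (`S_TR`, first claim) with `F = Om p` (`NQ.S_MON`). The new entry in row `r`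
and column `J = j+1` is `Ω_r(p^J) s - ∑_k ω_{rk} p^{kJ} H_k - ∑_{e=1}^J Ω_r(p^{J-e}) c_e`; divided by
`p^{vv r}` it is in `RpS p` by `NQ.S_OM`, `S_HP` and `1/(p^e-1) ∈ RpS p`. -/
def S_PAD : Prop := ∀ p : ℤ, 2 ≤ |p| → ∀ (w : Fin 3 → ℤ) (s : ℤ) (N : ℕ),
  (MQ p w s N).det / (p : ℚ) ^ (∑ r ∈ range N, vv r) ∈ RpS p

/-- Lower bound. [NQ: LOW]
Proof. `X` of `S_INT` is a nonzero integer (`Φ_d(p) ≠ 0` for `d ≥ 1`, as it divides `p^d - 1 ≠ 0`), and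
`X/p^V ∈ RpS p`, so `p^V ∣ X` and `|X| ≥ P^V`. -/
def S_LOW : Prop := ∀ p : ℤ, 2 ≤ |p| → ∀ (w : Fin 3 → ℤ) (s : ℤ) (n : ℕ),
  (MQ p w s (2 * n + 1)).det ≠ 0 →
  |(p : ℚ)| ^ (∑ r ∈ range (2 * n + 1), vv r) ≤
    |(RT p n : ℚ)| * |(MQ p w s (2 * n + 1)).det|

/-! ## D. size of the factors -/

/-- Pairs without a common divisor in `S`.
Proof. Induction on `S`. `FS ∅ m = m(m+1)/2`. For a prime `q ∉ S`: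
`FS (insert q S) m + FS S (m/q) = FS S m`, because the pairs `(a,d)` counted in `FS S m` with `q ∣ a`,
`q ∣ d` correspond to the pairs `(a/q, d/q)` counted in `FS S (m/q)` (a prime `q' ≠ q` divides `a` iff it
divides `a/q`). With `m/q - 1 < ⌊m/q⌋ ≤ m/q`:
`FS (insert q S) m = κ/2 (m^2 - (m/q)^2) + O(m+1)`. -/
def S_TS : Prop := ∀ S : Finset ℕ, (∀ q ∈ S, q.Prime) → ∃ C : ℝ, ∀ m : ℕ,
  |(FS S m : ℝ) - (∏ q ∈ S, (1 - 1 / (q : ℝ) ^ 2)) / 2 * (m : ℝ) ^ 2| ≤ C * ((m : ℝ) + 1)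

/-- `10000 Φ(m) ≤ 3092 m^2 + C m`.
Proof. `φ(d)` is the number of `a`, `1 ≤ a ≤ d`, coprime to `d`, so `Φ(m) ≤ FS S m` with
`S = {2,3,5,7,11,13}`. `S_TS`, and
`(3/4)(8/9)(24/25)(48/49)(120/121)(168/169)/2 = 0.30904 < 0.3092`; `m + 1 ≤ 2m` for `m ≥ 1`. -/
def S_TT : Prop := ∃ C : ℕ, ∀ m : ℕ, 10000 * Phi m ≤ 3092 * m ^ 2 + C * m

/-- `30000 Ψ(n) ≤ 86576 n^3 + C n^2`.
Proof. `Ψ(n) ≤ 4 ∑_{m=n}^{2n} Φ(m) + Φ(2n+1)`: in the sum `φ(d)` occurs `n+1` times for `1 ≤ d ≤ n` and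
`2n+1-d` times for `n < d ≤ 2n`. With `S_TT` and
`∑_{m=n}^{2n} m^2 = (14 n^3 + 15 n^2 + n)/6`: `30000 Ψ ≤ 3·4·3092·(7/3) n^3 + C n^2`,
`4·3092·7 = 86576`. -/
def S_T2 : Prop := ∃ C : ℕ, ∀ n : ℕ, 1 ≤ n → 30000 * Psi n ≤ 86576 * n ^ 3 + C * n ^ 2

/-- Size of `RT`. [NQ: RB]
Proof. `|Φ_d(p)| ≤ 4 P^{φ(d)} ≤ P^{φ(d)+2}` (`QZ.S_PHI`). The number of factors `Φ_d` in `RT`, with
multiplicity, is at most `C n^2`. The exponent of `Φ_d` is, for `1 ≤ d ≤ n`: rows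
`(2n+1) + (2n+1-d)`, columns `d`, sum `4n+2`; for `n < d ≤ 2n+1`: rows `3(2n+1-d)`, columns
`2n+2-d`, sum `4(2n+1-d)+1`. So `|RT| ≤ P^{Ψ(n) + C n^2}`, and `S_T2`. -/
def S_RB : Prop := ∀ p : ℤ, 2 ≤ |p| → ∃ C : ℕ, ∀ n : ℕ, 1 ≤ n →
  |(RT p n : ℝ)| ^ 30000 ≤ |(p : ℝ)| ^ (86576 * n ^ 3 + C * n ^ 2)

/-! ## E. analytic part -/

/-- Series for `a(k,J)`. [QZ: ASER] (with `FL.S_KER`, `P = p^k`, `m = J+1`) -/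
def S_ASER : Prop := ∀ p : ℤ, 2 ≤ |p| → ∀ (w : Fin 3 → ℤ) (k J : ℕ),
  HasSum (fun t : ℕ => Dg (wR w) (XX p (t + 1) ^ (J + 1) *
    (PowerSeries.C ((p : ℝ) ^ k) - XX p (t + 1))⁻¹)) (aR p w k J)

/-- Series for `L(F,G)`. [QZ: HLL, `M = 1`] -/
def S_HLL : Prop := ∀ p : ℤ, 2 ≤ |p| → ∀ (w : Fin 3 → ℤ) (N : ℕ) (F G : Polynomial ℝ),
  F.natDegree < N → G.natDegree < N →
  HasSum (fun t : ℕ => kap p (wR w) N (t + 1) (F * G)) (LL p w N F G)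

/-- Vanishing. [QZ: VAN] -/
def S_VAN : Prop := ∀ (p : ℤ) (w : Fin 3 → ℝ) (N t : ℕ) (F : Polynomial ℝ),
  (Polynomial.X - Polynomial.C (xx p t)) ^ 3 ∣ F → kap p w N t F = 0

/-- Bound for `κ_t`, `t > max(a,a')`. [QZ: KB, `M = 1`]
Proof. `|Dg w f| ≤ 2 nw w · nu f`; then as in `QZ.KB` (`ν(X_t^2) ≤ |x_t|^2 3^2 ≤ 9 |x_t|`,
`|x_{a+1}|^c ≤ 1`). -/
def S_KB : Prop := ∀ p : ℤ, 2 ≤ |p| → ∀ (w : Fin 3 → ℝ) (N t a a' c c' : ℕ), a < t → a' < t →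
  c ≤ 2 → c' ≤ 2 →
  |kap p w N t (FF p a c * FF p a' c')| ≤
    C3 * nw w * 9 * |xx p t| * ea p a ^ 3 * ea p a' ^ 3 * ww p N

/-- Upper bound for the entries. [QZ: UP1, `M = 1`] -/
def S_UP1 : Prop := ∀ p : ℤ, 2 ≤ |p| → ∀ (w : Fin 3 → ℤ) (N a a' c c' : ℕ), c ≤ 2 → c' ≤ 2 →
  3 * a + c < N → 3 * a' + c' < N →
  |LL p w N (FF p a c) (FF p a' c')| ≤ C3 * nw (wR w) * 9 * ea p a ^ 3 * ea p a' ^ 3 * ww p N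

/-- Vandermonde product and the product of the `e_{i/3}`. [QZ: VB]
Proof. `|V| ≤ P^{∑_{l<N} l(l+1)}`, `3 ∑_{l<N} l(l+1) = (N-1)N(N+1) ≤ N^3`. Second claim: the product is
`P^{-∑_{i<N} 3a(a+1)}`, `a = ⌊i/3⌋` (`a(a+1)/2` is an exact division), and
`27 a(a+1) ≥ 3 (i-2)(i+1)`, `∑_{i<N} 3 (i-2)(i+1) = N^3 - 3N^2 - 4N ≥ N^3 - 7N^2`. -/
def S_VB : Prop := ∀ p : ℤ, 2 ≤ |p| → ∀ N : ℕ, 1 ≤ N →
  |VV ℝ p N| ^ 3 ≤ |(p : ℝ)| ^ (N ^ 3) ∧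
  (∏ i : Fin N, (ea p ((i : ℕ) / 3) ^ 3) ^ 2) ^ 9 * |(p : ℝ)| ^ (N ^ 3) ≤
    |(p : ℝ)| ^ (10 * N ^ 2)

/-- Upper bound for the determinant. [QZ: UP]
Proof. `QZ.S_DET` over `ℝ` with `F_i = G_i = FF p (i/3) (i%3)` (`QZ.S_DEG`), `B = MR p w N`:
`|det| = |V| |det L|`; `S_UP1` and `QZ.S_DU` with `B = 9 C3 nw w`, `r_i = e_{i/3}^3`:
`|det L| ≤ N! (9 C3 nw ww)^N ∏ r_i^2`. `|V|^18 ≤ P^{6N^3}`, `ww^{18N} = P^{-9N^2(N-1)}`,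
`(∏ r_i^2)^18 ≤ P^{-2N^3+20N^2}`, `N! ≤ P^{N^2}`, `9 C3 nw ≤ 2^{C'}`: in total
`P^{6N^3 - 9N^3 - 2N^3 + C N^2}`. -/
def S_UP : Prop := ∀ p : ℤ, 2 ≤ |p| → ∀ w : Fin 3 → ℤ, ∃ C : ℕ, ∀ N : ℕ, 1 ≤ N →
  |(MR p w N).det| ^ 18 * |(p : ℝ)| ^ (5 * N ^ 3) ≤ |(p : ℝ)| ^ (C * N ^ 2)

/-! ## F. nonvanishing -/

/-- Choice of the prime. (The end of the proof is as in `FL/P_PRM.lean`.)
Proof. Let `T` be a large prime, `T > B, 3, |p-1|, |w i|`, and `G = ∑_{i<T} p^i = (p^T-1)/(p-1)`, so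
`|G| ≥ (2^T-1)/3`. For large `T`: `0 < |W(T)| < |G|` (`W` is a nonzero polynomial of degree `≤ 2`), so
`G ∤ W(T)` and there are a prime `q` and `k` with `q^{k+1} ∣ G`, `q^{k+1} ∤ W(T)`. `q ∤ p - 1`: otherwise
`G ≡ T` mod `q`, so `q = T ∣ p-1`, impossible as `T > |p-1| > 0`. So the order of `p` mod `q` is `T`
(prime), `T ∣ q - 1`, `q > T`, and `q ∣ p^l - 1` iff `T ∣ l`. -/
def S_NVP : Prop := ∀ p : ℤ, 2 ≤ |p| → ∀ w : Fin 3 → ℤ, w ≠ 0 → ∀ B : ℕ, ∃ T q k : ℕ,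
  B ≤ T ∧ 3 ≤ T ∧ q.Prime ∧ T < q ∧ ¬ ((q : ℤ) ∣ p) ∧
  (∀ i, w i ≠ 0 → ¬ ((q : ℤ) ∣ w i)) ∧
  (∀ l : ℕ, 1 ≤ l → l < 2 * T → l ≠ T → ¬ ((q : ℤ) ∣ p ^ l - 1)) ∧
  ((q : ℤ) ^ (k + 1) ∣ p ^ T - 1) ∧ ¬ ((q : ℤ) ^ (k + 1) ∣ Wz w T)

/-- The linear algebra of the nonvanishing. (`RpS q` is the ring of the rational numbers with
denominator prime to `q`.)
Proof. Multiply the rows `K ≥ T` by `t` and the columns `J ≥ T` by `C`; if the determinant is `0` so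
is the one of the new matrix `B`, whose entries are in `RpS q`. Reduce mod `q` (ring homomorphism
`RpS q → ZMod q`, `x = m/n ↦ m n⁻¹`; or clear the denominators of every entry by a common integer
prime to `q`). Order the rows `K < T` (`T` of them), `K ≥ T` (`T-1`) and the columns `J < T`
(`T-1`), `J ≥ T` (`T`): the block `K ≥ T`, `J ≥ T` is `0`, so `det B` is `±` the product of
`det (-p^{K i})`, `0 ≤ K, i < T` (Vandermonde, the `p^K` are different mod `q`), and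
`det (-b p^{KJ})`, `K = T, …, 2T-2`, `J = 1, …, T-1` (Vandermonde times `∏ p^K`, the `p^K` are
different mod `q`). Both are not `0`. (See `FL/P_NV4.lean` for a similar proof.) -/
def S_NVL : Prop := ∀ (p : ℤ) (q T : ℕ), q.Prime → 2 ≤ T → ¬ ((q : ℤ) ∣ p) →
  (∀ l : ℕ, 1 ≤ l → l < T → ¬ ((q : ℤ) ∣ p ^ l - 1)) →
  ∀ (A : ℕ → ℕ → ℚ) (C t : ℚ) (b : ℤ), ¬ ((q : ℤ) ∣ b) →
  (∀ K J : ℕ, K < T → 1 ≤ J → J < T → A K J ∈ RpS q) →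
  (∀ K J : ℕ, K < T → T ≤ J → J < 2 * T →
    (C * A K J + (p : ℚ) ^ (K * (J - T))) / (q : ℚ) ∈ RpS q) →
  (∀ K J : ℕ, T ≤ K → K < 2 * T - 1 → 1 ≤ J → J < T →
    (t * A K J + (b : ℚ) * (p : ℚ) ^ (K * J)) / (q : ℚ) ∈ RpS q) →
  (∀ K J : ℕ, T ≤ K → K < 2 * T - 1 → T ≤ J → J < 2 * T →
    (C * (t * A K J)) / (q : ℚ) ∈ RpS q) →
  (Matrix.of fun k j : Fin (2 * T - 1) => A (k : ℕ) ((j : ℕ) + 1)).det ≠ 0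

/-- Nonvanishing for infinitely many `n`.
Proof. `T, q, k` from `S_NVP` (bound `B+1`), `n = T - 1`, `2n + 1 = 2T - 1`. `S_NVL` with
`A = Aq p w s`, `C = (c_T)⁻¹ = (p^T-1)/W(T)`, which is in `q RpS q` (`q^{k+1} ∣ p^T - 1`,
`q^{k+1} ∤ W(T)`), and `t = (p^T-1)^j`, `j = 3, 2, 1` for `w 2 ≠ 0`, `w 2 = 0 ≠ w 1`,
`w 2 = w 1 = 0`, `b = 2 w 2, w 1, w 0`. For `l < 2T`, `l ≠ T`, `h_l` and `c_l` are in `RpS q`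
(`p^l - 1` is prime to `q`), and `t h_T ≡ b` mod `q` (`p^T ≡ 1`), `t ≡ 0`. First condition: `H_K` for
`K < T` and `c_e` for `e < T` are in `RpS q`. Second: `C A(K,J) = C (p^{KJ}(s - H_K) -
∑_{e ≤ J, e ≠ T} p^{K(J-e)} c_e) - p^{K(J-T)}`. Third: `t A(K,J) = t (…) - p^{KJ} t h_T`, where
`… ∈ RpS q`. Fourth: `C t A(K,J) = C (t (…) - p^{KJ} t h_T) - t p^{K(J-T)}`. -/
def S_NV : Prop := ∀ p : ℤ, 2 ≤ |p| → ∀ w : Fin 3 → ℤ, w ≠ 0 → ∀ (s : ℤ) (B : ℕ),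
  ∃ n : ℕ, B ≤ n ∧ (MQ p w s (2 * n + 1)).det ≠ 0

/-! ## G. conclusion -/

/-- `Z` is not an integer. [QZ: FIN]
Proof. Suppose `Z = s`. By `S_CF` `MR p w N` is the image of `MQ p w s N` in `ℝ`. Take `n` large with
`det ≠ 0` (`S_NV`), `N = 2n+1`. `S_LOW`, `V = ∑_{r<N} vv r ≥ (2n^3 - 6n^2)/3` (`NQ.S_SV` for `2n`),
to the power `90000`: `P^{60000 n^3 - C n^2} ≤ |RT|^{90000} |det|^{90000}`;
`S_RB` to the power `3`: `|RT|^{90000} ≤ P^{259728 n^3 + C n^2}`; `S_UP` to the power `5000`: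
`|det|^{90000} ≤ P^{-25000 (2n+1)^3 + C n^2} ≤ P^{-200000 n^3 + C n^2}`. So
`60000 n^3 ≤ 59728 n^3 + C n^2`, false for large `n`. -/
def S_FIN : Prop := ∀ p : ℤ, 2 ≤ |p| → ∀ w : Fin 3 → ℤ, w ≠ 0 → ∀ s : ℤ, ZZ p w ≠ s

/-- Linear independence. [FL: LI]
Proof. A rational relation; multiply by a common denominator: integers `q₀, w 0, w 1, w 2`, not all
`0`, with `q₀ + ZZ p w = 0` (the three series converge absolutely, `S_SUM` for the three unit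
vectors). `w ≠ 0` (otherwise `q₀ = 0`), against `S_FIN` with `s = -q₀`. -/
def S_LI : Prop := ∀ p : ℤ, 2 ≤ |p| → LinearIndependent ℚ ![(1 : ℝ),
  ∑' n : ℕ, 1 / ((p : ℝ) ^ (n + 1) - 1),
  ∑' n : ℕ, ((n : ℝ) + 1) / ((p : ℝ) ^ (n + 1) - 1),
  ∑' n : ℕ, ((n : ℝ) + 1) ^ 2 / ((p : ℝ) ^ (n + 1) - 1)]

end Pool.Agent.H410.QL
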